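import Mathlib

/-!
Combinatorial core for lecture hall order polytopes with s = ρ + 1.
-/

namespace Pool.Agent.Helper489.LHCore

open Finset

set_option linter.unusedVariables false
set_option linter.unusedSectionVars false
set_option linter.unusedSimpArgs false

variable {ι : Type*} [Fintype ι]

/-- The lattice points of the polytope, described by the rank function `ρ` and the covering
relation `E`. -/
def InA (ρ : ι → ℤ) (E : ι → ι → Prop) (f : ι → ℤ) : Prop :=
  (∀ z, 0 ≤ f z ∧ f z ≤ ρ z + 1) ∧ ∀ x y, E x y → 0 < f x → f x + 1 ≤ f y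

/-- Two points are not oppositely ordered at the coordinates `x`, `z` (after subtracting `ρ`). -/
def Com (ρ : ι → ℤ) (u v : ι → ℤ) (x z : ι) : Prop :=
  (u z - ρ z ≤ u x - ρ x ∧ v z - ρ z ≤ v x - ρ x) ∨
    (u x - ρ x ≤ u z - ρ z ∧ v x - ρ x ≤ v z - ρ z)

/-- Sum of absolute differences over a set of pairs. -/
def T (ρ : ι → ℤ) (Pr : ι × ι → Prop) [DecidablePred Pr] (f : ι → ℤ) : ℤ :=
  ∑ p : ι × ι, if Pr p then |(f p.2 - ρ p.2) - (f p.1 - ρ p.1)| else 0

lemma T_le {ρ : ι → ℤ} {Pr : ι × ι → Prop} [DecidablePred Pr] {u v u' v' : ι → ℤ}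
    (hc : ∀ p, Pr p → Com ρ u' v' p.1 p.2) (hs : ∀ z, u' z + v' z = u z + v z) :
    T ρ Pr u' + T ρ Pr v' ≤ T ρ Pr u + T ρ Pr v := by
  unfold T
  rw [← Finset.sum_add_distrib, ← Finset.sum_add_distrib]
  apply Finset.sum_le_sum
  intro p _
  have h1 := hs p.1
  have h2 := hs p.2
  by_cases hp : Pr p
  · have := hc p hp
    unfold Com at this
    simp only [hp, if_true, abs_eq_max_neg]
    omega
  · simp [hp]

lemma T_lt {ρ : ι → ℤ} {Pr : ι × ι → Prop} [DecidablePred Pr] {u v u' v' : ι → ℤ}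
    (hc : ∀ p, Pr p → Com ρ u' v' p.1 p.2) (hs : ∀ z, u' z + v' z = u z + v z)
    {p : ι × ι} (hp : Pr p) (hn : ¬ Com ρ u v p.1 p.2) :
    T ρ Pr u' + T ρ Pr v' < T ρ Pr u + T ρ Pr v := by
  unfold T
  rw [← Finset.sum_add_distrib, ← Finset.sum_add_distrib]
  apply Finset.sum_lt_sum
  · intro p _
    have h1 := hs p.1
    have h2 := hs p.2
    by_cases hp : Pr p
    · have := hc p hp
      unfold Com at this
      simp only [hp, if_true, abs_eq_max_neg]
      omega
    · simp [hp]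
  · refine ⟨p, mem_univ _, ?_⟩
    have h1 := hs p.1
    have h2 := hs p.2
    have := hc p hp
    unfold Com at this hn
    simp only [hp, if_true, abs_eq_max_neg]
    omega

/-- First level: comonotonicity inside the ranks. -/
def w0 (ρ : ι → ℤ) (f : ι → ℤ) : ℤ := T ρ (fun p => ρ p.1 = ρ p.2) f

/-- Comonotonicity between rank `q` and the higher ranks. -/
def V (ρ : ι → ℤ) (q : ℤ) (f : ι → ℤ) : ℤ := T ρ (fun p => ρ p.1 = q ∧ q < ρ p.2) f

/-- Number of zeros at rank `q`. -/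
def W1 (ρ : ι → ℤ) (q : ℤ) (f : ι → ℤ) : ℤ := ∑ z, if ρ z = q ∧ f z = 0 then 1 else 0

/-- Number of zeros at rank `q` times the total sum. -/
def W2 (ρ : ι → ℤ) (q : ℤ) (f : ι → ℤ) : ℤ := W1 ρ q f * ∑ z, f z

/-- The last level. -/
def wf (f : ι → ℤ) : ℤ := ((Fintype.card ι : ℤ) + 1) * (∑ z, f z ^ 2) - (∑ z, f z) ^ 2

/-- The levels of the lexicographic weight. -/
def lev (ρ : ι → ℤ) (R : ℕ) (i : ℕ) (f : ι → ℤ) : ℤ :=
  if i = 0 then w0 ρ f
  else if i = 3 * R + 4 then wf f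
  else if (i - 1) % 3 = 0 then V ρ ((R : ℤ) - ((i - 1) / 3 : ℕ)) f
  else if (i - 1) % 3 = 1 then W1 ρ ((R : ℤ) - ((i - 1) / 3 : ℕ)) f
  else W2 ρ ((R : ℤ) - ((i - 1) / 3 : ℕ)) f

/-- The change of a functional under a replacement of pairs. -/
def D (w : (ι → ℤ) → ℤ) (u v u' v' : ι → ℤ) : ℤ := w u' + w v' - w u - w v

/-- Lexicographic optimality of a pair. -/
def LOpt (ρ : ι → ℤ) (E : ι → ι → Prop) (R : ℕ) (u v : ι → ℤ) : Prop :=
  ∀ u' v', InA ρ E u' → InA ρ E v' → (∀ z, u' z + v' z = u z + v z) →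
    ∀ i, i < 3 * R + 5 → (∀ j, j < i → D (lev ρ R j) u v u' v' ≤ 0) →
      0 ≤ D (lev ρ R i) u v u' v'

lemma lev_zero (ρ : ι → ℤ) (R : ℕ) : lev ρ R 0 = w0 ρ := by
  funext f; simp [lev]

lemma lev_last (ρ : ι → ℤ) (R : ℕ) : lev ρ R (3 * R + 4) = wf := by
  funext f; simp [lev]

lemma lev_V (ρ : ι → ℤ) (R : ℕ) {k : ℕ} (hk : k ≤ R) :
    lev ρ R (3 * k + 1) = V ρ ((R : ℤ) - k) := by
  funext f
  have h1 : ¬ (3 * k + 1 = 3 * R + 4) := by omega
  have h2 : (3 * k + 1 - 1) % 3 = 0 := by omega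
  have h3 : (3 * k + 1 - 1) / 3 = k := by omega
  simp only [lev, h1, h2, h3, if_true, if_false]
  simp

lemma lev_W1 (ρ : ι → ℤ) (R : ℕ) {k : ℕ} (hk : k ≤ R) :
    lev ρ R (3 * k + 2) = W1 ρ ((R : ℤ) - k) := by
  funext f
  have h1 : ¬ (3 * k + 2 = 3 * R + 4) := by omega
  have h2 : (3 * k + 2 - 1) % 3 = 1 := by omega
  have h3 : (3 * k + 2 - 1) / 3 = k := by omega
  simp only [lev, h1, h2, h3, if_true, if_false]
  simp

lemma lev_W2 (ρ : ι → ℤ) (R : ℕ) {k : ℕ} (hk : k ≤ R) :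
    lev ρ R (3 * k + 3) = W2 ρ ((R : ℤ) - k) := by
  funext f
  have h1 : ¬ (3 * k + 3 = 3 * R + 4) := by omega
  have h2 : (3 * k + 3 - 1) % 3 = 2 := by omega
  have h3 : (3 * k + 3 - 1) / 3 = k := by omega
  simp only [lev, h1, h2, h3, if_true, if_false]
  simp

lemma LOpt.opt_w0 {ρ : ι → ℤ} {E : ι → ι → Prop} {R : ℕ} {u v : ι → ℤ} (h : LOpt ρ E R u v)
    {u' v' : ι → ℤ} (hu' : InA ρ E u') (hv' : InA ρ E v') (hs : ∀ z, u' z + v' z = u z + v z) :
    0 ≤ D (w0 ρ) u v u' v' := by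
  have := h u' v' hu' hv' hs 0 (by omega) (by intro j hj; omega)
  rwa [lev_zero] at this

lemma LOpt.level {ρ : ι → ℤ} {E : ι → ι → Prop} {R : ℕ} {u v : ι → ℤ} (h : LOpt ρ E R u v)
    {u' v' : ι → ℤ} (hu' : InA ρ E u') (hv' : InA ρ E v') (hs : ∀ z, u' z + v' z = u z + v z)
    {q : ℤ} (hq : 0 ≤ q) (hqR : q ≤ R) (h0 : D (w0 ρ) u v u' v' ≤ 0)
    (hhi : ∀ p, q < p → D (V ρ p) u v u' v' ≤ 0 ∧ D (W1 ρ p) u v u' v' ≤ 0 ∧
      D (W2 ρ p) u v u' v' ≤ 0) :
    0 ≤ D (V ρ q) u v u' v' ∧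
    (D (V ρ q) u v u' v' ≤ 0 → 0 ≤ D (W1 ρ q) u v u' v') ∧
    (D (V ρ q) u v u' v' ≤ 0 → D (W1 ρ q) u v u' v' ≤ 0 → 0 ≤ D (W2 ρ q) u v u' v') := by
  obtain ⟨k, hk⟩ : ∃ k : ℕ, q = (R : ℤ) - k := ⟨((R : ℤ) - q).toNat, by omega⟩
  have hkR : k ≤ R := by omega
  have low : ∀ j, j < 3 * k + 1 → D (lev ρ R j) u v u' v' ≤ 0 := by
    intro j hj
    rcases Nat.eq_zero_or_pos j with rfl | hj0
    · rwa [lev_zero]
    · obtain ⟨k', hk', hj'⟩ : ∃ k' : ℕ, k' < k ∧ (j = 3 * k' + 1 ∨ j = 3 * k' + 2 ∨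
          j = 3 * k' + 3) := ⟨(j - 1) / 3, by omega, by omega⟩
      have hk'R : k' ≤ R := by omega
      have h3 := hhi ((R : ℤ) - k') (by omega)
      rcases hj' with rfl | rfl | rfl
      · rw [lev_V ρ R hk'R]; exact h3.1
      · rw [lev_W1 ρ R hk'R]; exact h3.2.1
      · rw [lev_W2 ρ R hk'R]; exact h3.2.2
  have a1 := h u' v' hu' hv' hs (3 * k + 1) (by omega) low
  rw [lev_V ρ R hkR, ← hk] at a1
  refine ⟨a1, ?_, ?_⟩
  · intro hV
    have a2 := h u' v' hu' hv' hs (3 * k + 2) (by omega) (by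
      intro j hj
      rcases Nat.lt_or_ge j (3 * k + 1) with hj1 | hj1
      · exact low j hj1
      · have : j = 3 * k + 1 := by omega
        rw [this, lev_V ρ R hkR, ← hk]; exact hV)
    rwa [lev_W1 ρ R hkR, ← hk] at a2
  · intro hV hW
    have a3 := h u' v' hu' hv' hs (3 * k + 3) (by omega) (by
      intro j hj
      rcases Nat.lt_or_ge j (3 * k + 1) with hj1 | hj1
      · exact low j hj1
      · rcases (by omega : j = 3 * k + 1 ∨ j = 3 * k + 2) with rfl | rfl
        · rw [lev_V ρ R hkR, ← hk]; exact hV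
        · rw [lev_W1 ρ R hkR, ← hk]; exact hW)
    rwa [lev_W2 ρ R hkR, ← hk] at a3

lemma LOpt.opt_wf {ρ : ι → ℤ} {E : ι → ι → Prop} {R : ℕ} {u v : ι → ℤ} (h : LOpt ρ E R u v)
    {u' v' : ι → ℤ} (hu' : InA ρ E u') (hv' : InA ρ E v') (hs : ∀ z, u' z + v' z = u z + v z)
    (h0 : D (w0 ρ) u v u' v' ≤ 0)
    (hhi : ∀ p, D (V ρ p) u v u' v' ≤ 0 ∧ D (W1 ρ p) u v u' v' ≤ 0 ∧
      D (W2 ρ p) u v u' v' ≤ 0) :
    0 ≤ D wf u v u' v' := by
  have := h u' v' hu' hv' hs (3 * R + 4) (by omega) (by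
    intro j hj
    rcases Nat.eq_zero_or_pos j with rfl | hj0
    · rwa [lev_zero]
    · obtain ⟨k', hk', hj'⟩ : ∃ k' : ℕ, k' ≤ R ∧ (j = 3 * k' + 1 ∨ j = 3 * k' + 2 ∨
          j = 3 * k' + 3) := ⟨(j - 1) / 3, by omega, by omega⟩
      have h3 := hhi ((R : ℤ) - k')
      rcases hj' with rfl | rfl | rfl
      · rw [lev_V ρ R hk']; exact h3.1
      · rw [lev_W1 ρ R hk']; exact h3.2.1
      · rw [lev_W2 ρ R hk']; exact h3.2.2)
  rwa [lev_last] at this

/-- Step S0: an optimal pair is comonotone inside each rank. -/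
lemma com_rank {ρ : ι → ℤ} {E : ι → ι → Prop} (hE : ∀ x y, E x y → ρ y = ρ x + 1)
    {R : ℕ} {u v : ι → ℤ} (hu : InA ρ E u) (hv : InA ρ E v) (h : LOpt ρ E R u v) :
    ∀ x z, ρ x = ρ z → Com ρ u v x z := by
  intro x z hxz
  by_contra hn
  let u' : ι → ℤ := fun z => min (u z + v z) (ρ z + 1)
  let v' : ι → ℤ := fun z => max (u z + v z - (ρ z + 1)) 0
  have hu' : InA ρ E u' := by
    refine ⟨fun z => ?_, fun x y hxy hx => ?_⟩
    · have := hu.1 z; have := hv.1 z; simp only [u']; omega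
    · have := hu.1 x; have := hv.1 x; have := hu.1 y; have := hv.1 y
      have := hE x y hxy; have := hu.2 x y hxy; have := hv.2 x y hxy
      simp only [u'] at hx ⊢
      omega
  have hv' : InA ρ E v' := by
    refine ⟨fun z => ?_, fun x y hxy hx => ?_⟩
    · have := hu.1 z; have := hv.1 z; simp only [v']; omega
    · have := hu.1 x; have := hv.1 x; have := hu.1 y; have := hv.1 y
      have := hE x y hxy; have := hu.2 x y hxy; have := hv.2 x y hxy
      simp only [v'] at hx ⊢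
      omega
  have hs : ∀ z, u' z + v' z = u z + v z := by
    intro z; simp only [u', v']; omega
  have h1 := h.opt_w0 hu' hv' hs
  have h2 : T ρ (fun p => ρ p.1 = ρ p.2) u' + T ρ (fun p => ρ p.1 = ρ p.2) v' <
      T ρ (fun p => ρ p.1 = ρ p.2) u + T ρ (fun p => ρ p.1 = ρ p.2) v := by
    refine T_lt (p := (x, z)) ?_ hs hxz hn
    intro p hp
    simp only [Com, u', v']
    have : ρ p.1 = ρ p.2 := hp
    omega
  simp only [D, w0] at h1
  omega

lemma W1_congr {ρ : ι → ℤ} {q : ℤ} {f g : ι → ℤ} (h : ∀ z, ρ z = q → (f z = 0 ↔ g z = 0)) :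
    W1 ρ q f = W1 ρ q g := by
  unfold W1
  apply Finset.sum_congr rfl
  intro z _
  by_cases hz : ρ z = q
  · simp [h z hz]
  · simp [hz]

lemma sum_sum_eq {u v u' v' : ι → ℤ} (hs : ∀ z, u' z + v' z = u z + v z) :
    ∑ z, u' z + ∑ z, v' z = ∑ z, u z + ∑ z, v z := by
  rw [← Finset.sum_add_distrib, ← Finset.sum_add_distrib]
  exact Finset.sum_congr rfl (fun z _ => hs z)

/-- If all four functions have the same zeros at rank `q`, the levels `W1`, `W2` do not change. -/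
lemma W_same {ρ : ι → ℤ} {q : ℤ} {u v u' v' : ι → ℤ} (hs : ∀ z, u' z + v' z = u z + v z)
    (h : ∀ z, ρ z = q → (u' z = 0 ↔ u z = 0) ∧ (v' z = 0 ↔ u z = 0) ∧ (v z = 0 ↔ u z = 0)) :
    D (W1 ρ q) u v u' v' = 0 ∧ D (W2 ρ q) u v u' v' = 0 := by
  have e1 : W1 ρ q u' = W1 ρ q u := W1_congr (fun z hz => (h z hz).1)
  have e2 : W1 ρ q v' = W1 ρ q u := W1_congr (fun z hz => (h z hz).2.1)
  have e3 : W1 ρ q v = W1 ρ q u := W1_congr (fun z hz => (h z hz).2.2)
  have e4 := sum_sum_eq hs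
  refine ⟨by simp only [D, e1, e2, e3]; ring, ?_⟩
  simp only [D, W2, e1, e2, e3]
  linear_combination (W1 ρ q u) * e4

/-- Step S2: comonotonicity between rank `q` and higher ranks, when all elements above rank `q`
are unmixed. -/
lemma com_high {ρ : ι → ℤ} {E : ι → ι → Prop} (hE : ∀ x y, E x y → ρ y = ρ x + 1)
    (hρ0 : ∀ z, 0 ≤ ρ z) {R : ℕ} (hR : ∀ z, ρ z ≤ R) {u v : ι → ℤ} (hu : InA ρ E u)
    (hv : InA ρ E v) (h : LOpt ρ E R u v) {q : ℤ}
    (hun : ∀ z, q < ρ z → (u z = 0 ↔ v z = 0)) :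
    ∀ x z, ρ x = q → q < ρ z → Com ρ u v x z := by
  intro x z hxq hzq
  by_contra hn
  have hq : 0 ≤ q := by rw [← hxq]; exact hρ0 x
  have hqR : q ≤ R := by rw [← hxq]; exact hR x
  let u' : ι → ℤ := fun z => if ρ z ≤ q then min (u z + v z) (ρ z + 1)
    else if u z + v z ≤ 2 * (ρ z - q) then (u z + v z + 1) / 2
    else (ρ z - q) + min (u z + v z - 2 * (ρ z - q)) (q + 1)
  let v' : ι → ℤ := fun z => if ρ z ≤ q then max (u z + v z - (ρ z + 1)) 0
    else if u z + v z ≤ 2 * (ρ z - q) then (u z + v z) / 2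
    else (ρ z - q) + max (u z + v z - 2 * (ρ z - q) - (q + 1)) 0
  have hu' : InA ρ E u' := by
    refine ⟨fun z => ?_, fun x y hxy hx => ?_⟩
    · have := hu.1 z; have := hv.1 z; simp only [u']; split_ifs <;> omega
    · have := hu.1 x; have := hv.1 x; have := hu.1 y; have := hv.1 y
      have := hE x y hxy; have := hu.2 x y hxy; have := hv.2 x y hxy
      have := hun x; have := hun y
      simp only [u'] at hx ⊢
      split_ifs at hx ⊢ <;> omega
  have hv' : InA ρ E v' := by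
    refine ⟨fun z => ?_, fun x y hxy hx => ?_⟩
    · have := hu.1 z; have := hv.1 z; simp only [v']; split_ifs <;> omega
    · have := hu.1 x; have := hv.1 x; have := hu.1 y; have := hv.1 y
      have := hE x y hxy; have := hu.2 x y hxy; have := hv.2 x y hxy
      have := hun x; have := hun y
      simp only [v'] at hx ⊢
      split_ifs at hx ⊢ <;> omega
  have hs : ∀ z, u' z + v' z = u z + v z := by
    intro z; simp only [u', v']; split_ifs <;> omega
  have hc1 : ∀ p : ι × ι, ρ p.1 = ρ p.2 → Com ρ u' v' p.1 p.2 := by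
    intro p hp
    have := hu.1 p.1; have := hv.1 p.1; have := hu.1 p.2; have := hv.1 p.2
    simp only [Com, u', v']
    split_ifs <;> omega
  have hc2 : ∀ x z, q ≤ ρ x → q ≤ ρ z → Com ρ u' v' x z := by
    intro x z hx hz
    have := hu.1 x; have := hv.1 x; have := hu.1 z; have := hv.1 z
    simp only [Com, u', v']
    split_ifs <;> omega
  have hz0 : ∀ z, q < ρ z → (u' z = 0 ↔ u z = 0) ∧ (v' z = 0 ↔ u z = 0) ∧
      (v z = 0 ↔ u z = 0) := by
    intro z hz
    have := hu.1 z; have := hv.1 z; have := hun z hz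
    simp only [u', v']
    split_ifs <;> omega
  have d0 : D (w0 ρ) u v u' v' ≤ 0 := by
    have := T_le (u := u) (v := v) hc1 hs
    simp only [D, w0]; omega
  have dhi : ∀ p, q < p → D (V ρ p) u v u' v' ≤ 0 ∧ D (W1 ρ p) u v u' v' ≤ 0 ∧
      D (W2 ρ p) u v u' v' ≤ 0 := by
    intro p hp
    have a := W_same (ρ := ρ) (q := p) hs (fun z hz => hz0 z (by omega))
    refine ⟨?_, a.1.le, a.2.le⟩
    have := T_le (ρ := ρ) (Pr := fun pp => ρ pp.1 = p ∧ p < ρ pp.2) (u := u) (v := v)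
      (u' := u') (v' := v') (fun pp hpp => hc2 _ _ (by omega) (by omega)) hs
    simp only [D, V]; omega
  have h1 := (h.level hu' hv' hs hq hqR d0 dhi).1
  have h2 := T_lt (ρ := ρ) (Pr := fun pp => ρ pp.1 = q ∧ q < ρ pp.2) (u := u) (v := v)
      (u' := u') (v' := v') (fun pp hpp => hc2 _ _ (by omega) (by omega)) hs (p := (x, z))
      ⟨hxq, hzq⟩ hn
  simp only [D, V] at h1
  omega

lemma Com.symm' {ρ : ι → ℤ} {u v : ι → ℤ} {x z : ι} (h : Com ρ u v x z) : Com ρ u v z x := by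
  unfold Com at *; omega

/-- The data of a pair `u`, `v` of points which is split at rank `r`. -/
structure PairHyp (ρ : ι → ℤ) (E : ι → ι → Prop) (R : ℕ) (r : ℤ) (u v : ι → ℤ) : Prop where
  hE : ∀ x y, E x y → ρ y = ρ x + 1
  hρ0 : ∀ z, 0 ≤ ρ z
  hR : ∀ z, ρ z ≤ R
  hu : InA ρ E u
  hv : InA ρ E v
  h : LOpt ρ E R u v
  hun : ∀ z, r < ρ z → (u z = 0 ↔ v z = 0)
  hsub : ∀ z, ρ z = r → v z = 0 → u z = 0
  hy : ∃ y, ρ y = r ∧ u y = 0 ∧ 0 < v y

namespace PairHyp

variable {ρ : ι → ℤ} {E : ι → ι → Prop} {R : ℕ} {r : ℤ} {u v : ι → ℤ}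

lemma hcr (H : PairHyp ρ E R r u v) : ∀ x z, ρ x = ρ z → Com ρ u v x z :=
  com_rank H.hE H.hu H.hv H.h

lemma hch (H : PairHyp ρ E R r u v) : ∀ x z, r ≤ ρ x → r ≤ ρ z → Com ρ u v x z := by
  intro x z hx hz
  rcases lt_trichotomy (ρ x) (ρ z) with hlt | heq | hgt
  · exact com_high H.hE H.hρ0 H.hR H.hu H.hv H.h (q := ρ x)
      (fun w hw => H.hun w (by omega)) x z rfl hlt
  · exact H.hcr x z heq
  · exact (com_high H.hE H.hρ0 H.hR H.hu H.hv H.h (q := ρ z)
      (fun w hw => H.hun w (by omega)) z x rfl hgt).symm'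

lemma W1_lt (H : PairHyp ρ E R r u v) : W1 ρ r v < W1 ρ r u := by
  unfold W1
  apply Finset.sum_lt_sum
  · intro z _
    by_cases hz : ρ z = r
    · have := H.hsub z hz
      by_cases hv0 : v z = 0
      · simp [hz, hv0, this hv0]
      · simp only [hz, hv0, true_and, if_false]
        split_ifs <;> omega
    · simp [hz]
  · obtain ⟨y, hy, hu, hv⟩ := H.hy
    refine ⟨y, mem_univ _, ?_⟩
    have : ¬ v y = 0 := by omega
    simp [hy, hu, this]

/-- The exchange principle for the level `W2` at rank `r`. -/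
lemma sum_le (H : PairHyp ρ E R r u v) {u' v' : ι → ℤ} (hu' : InA ρ E u') (hv' : InA ρ E v')
    (hs : ∀ z, u' z + v' z = u z + v z)
    (hc1 : ∀ x z, ρ x = ρ z → Com ρ u' v' x z)
    (hc2 : ∀ x z, r ≤ ρ x → r ≤ ρ z → Com ρ u' v' x z)
    (hz : ∀ z, r ≤ ρ z → (u' z = 0 ↔ u z = 0) ∧ (v' z = 0 ↔ v z = 0)) :
    ∑ z, u z ≤ ∑ z, u' z := by
  have hr0 : 0 ≤ r := by obtain ⟨y, hy, _⟩ := H.hy; rw [← hy]; exact H.hρ0 y
  have hrR : r ≤ R := by obtain ⟨y, hy, _⟩ := H.hy; rw [← hy]; exact H.hR y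
  have d0 : D (w0 ρ) u v u' v' ≤ 0 := by
    have := T_le (ρ := ρ) (Pr := fun p => ρ p.1 = ρ p.2) (u := u) (v := v)
      (fun p hp => hc1 _ _ hp) hs
    simp only [D, w0]; omega
  have dV : ∀ p, r ≤ p → D (V ρ p) u v u' v' ≤ 0 := by
    intro p hp
    have := T_le (ρ := ρ) (Pr := fun pp => ρ pp.1 = p ∧ p < ρ pp.2) (u := u) (v := v)
      (u' := u') (v' := v') (fun pp hpp => hc2 _ _ (by omega) (by omega)) hs
    simp only [D, V]; omega
  have dhi : ∀ p, r < p → D (V ρ p) u v u' v' ≤ 0 ∧ D (W1 ρ p) u v u' v' ≤ 0 ∧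
      D (W2 ρ p) u v u' v' ≤ 0 := by
    intro p hp
    have a := W_same (ρ := ρ) (q := p) hs (fun z hz' => by
      have h1 := hz z (by omega)
      have h2 := H.hun z (by omega)
      exact ⟨h1.1, h1.2.trans h2.symm, h2.symm⟩)
    exact ⟨dV p hp.le, a.1.le, a.2.le⟩
  have e1 : W1 ρ r u' = W1 ρ r u := W1_congr (fun z hz' => (hz z hz'.ge).1)
  have e2 : W1 ρ r v' = W1 ρ r v := W1_congr (fun z hz' => (hz z hz'.ge).2)
  have e3 := sum_sum_eq hs
  have h1 := (H.h.level hu' hv' hs hr0 hrR d0 dhi).2.2 (dV r le_rfl)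
    (by simp only [D, e1, e2]; omega)
  have h2 : D (W2 ρ r) u v u' v' = (W1 ρ r u - W1 ρ r v) * (∑ z, u' z - ∑ z, u z) := by
    simp only [D, W2, e1, e2]
    linear_combination (W1 ρ r v) * e3
  have h3 := H.W1_lt
  rw [h2] at h1
  by_contra hcon
  have : (W1 ρ r u - W1 ρ r v) * (∑ z, u' z - ∑ z, u z) < 0 :=
    mul_neg_of_pos_of_neg (by omega) (by omega)
  omega

/-- Step 5: the pair is ordered. -/
lemma le (H : PairHyp ρ E R r u v) : ∀ z, u z ≤ v z := by
  have hu := H.hu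
  have hv := H.hv
  obtain ⟨u', hu'⟩ : ∃ u' : ι → ℤ, ∀ z, u' z = min (u z) (v z) := ⟨_, fun _ => rfl⟩
  obtain ⟨v', hv'⟩ : ∃ v' : ι → ℤ, ∀ z, v' z = max (u z) (v z) := ⟨_, fun _ => rfl⟩
  have key := H.sum_le (u' := u') (v' := v')
    (by
      refine ⟨fun z => ?_, fun x y hxy hx => ?_⟩
      · have := hu.1 z; have := hv.1 z; rw [hu']; omega
      · have := hu.2 x y hxy; have := hv.2 x y hxy
        rw [hu'] at hx ⊢; rw [hu']; omega)
    (by
      refine ⟨fun z => ?_, fun x y hxy hx => ?_⟩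
      · have := hu.1 z; have := hv.1 z; rw [hv']; omega
      · have := hu.2 x y hxy; have := hv.2 x y hxy
        rw [hv'] at hx ⊢; rw [hv']; omega)
    (by intro z; rw [hu', hv']; omega)
    (by
      intro x z hxz
      have := H.hcr x z hxz
      simp only [Com, hu', hv'] at this ⊢; omega)
    (by
      intro x z hx hz
      have := H.hch x z hx hz
      simp only [Com, hu', hv'] at this ⊢; omega)
    (by
      intro z hz
      have := hu.1 z; have := hv.1 z; have := H.hun z; have := H.hsub z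
      rw [hu', hv']; omega)
  intro z
  by_contra hcon
  have : ∑ z, u' z < ∑ z, u z := by
    apply Finset.sum_lt_sum
    · intro i _; rw [hu']; exact min_le_left _ _
    · exact ⟨z, mem_univ _, by rw [hu']; omega⟩
  omega

/-- Exchange with a set `Z`: move one unit from `u` to `v` on `Z`. -/
lemma empty_of_exchange (H : PairHyp ρ E R r u v) (Z : ι → Prop) [DecidablePred Z]
    (hA1 : ∀ z, Z z → 1 ≤ u z ∧ v z ≤ ρ z)
    (hA2 : ∀ z, Z z → r ≤ ρ z → 2 ≤ u z)
    (hB1 : ∀ x y, E x y → ¬ Z x → Z y → 0 < u x → u x + 2 ≤ u y)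
    (hB2 : ∀ x y, E x y → Z x → ¬ Z y → v x + 2 ≤ v y)
    (hC : ∀ x z, Z x → ¬ Z z → (ρ x = ρ z ∨ (r ≤ ρ x ∧ r ≤ ρ z)) →
      (u z - ρ z < u x - ρ x ∧ v z - ρ z ≤ v x - ρ x) ∨
      (u x - ρ x ≤ u z - ρ z ∧ v x - ρ x < v z - ρ z)) :
    ∀ z, ¬ Z z := by
  have hu := H.hu
  have hv := H.hv
  have hle := H.le
  obtain ⟨u', hu'⟩ : ∃ u' : ι → ℤ, ∀ z, u' z = if Z z then u z - 1 else u z :=
    ⟨_, fun _ => rfl⟩
  obtain ⟨v', hv'⟩ : ∃ v' : ι → ℤ, ∀ z, v' z = if Z z then v z + 1 else v z :=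
    ⟨_, fun _ => rfl⟩
  have key := H.sum_le (u' := u') (v' := v')
    (by
      refine ⟨fun z => ?_, fun x y hxy hx => ?_⟩
      · have h1 := hu.1 z; have h2 := hA1 z; rw [hu']
        by_cases hZ : Z z
        · have := h2 hZ; rw [if_pos hZ]; omega
        · rw [if_neg hZ]; omega
      · have h1 := hu.2 x y hxy; have h2 := hA1 x; have h3 := hA1 y; have h4 := hB1 x y hxy
        rw [hu'] at hx ⊢; rw [hu']
        by_cases hZx : Z x <;> by_cases hZy : Z y <;>
          simp only [hZx, hZy, if_true, if_false, not_true, not_false_iff, true_imp_iff,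
            false_imp_iff, imp_true_iff] at hx h2 h3 h4 ⊢ <;> omega)
    (by
      refine ⟨fun z => ?_, fun x y hxy hx => ?_⟩
      · have h1 := hv.1 z; have h2 := hA1 z; rw [hv']
        by_cases hZ : Z z
        · have := h2 hZ; rw [if_pos hZ]; omega
        · rw [if_neg hZ]; omega
      · have h1 := hv.2 x y hxy; have h2 := hA1 x; have h3 := hA1 y; have h4 := hB2 x y hxy
        have h5 := hle x
        rw [hv'] at hx ⊢; rw [hv']
        by_cases hZx : Z x <;> by_cases hZy : Z y <;>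
          simp only [hZx, hZy, if_true, if_false, not_true, not_false_iff, true_imp_iff,
            false_imp_iff, imp_true_iff] at hx h2 h3 h4 ⊢ <;> omega)
    (by intro z; rw [hu', hv']; split_ifs <;> omega)
    (by
      intro x z hxz
      have h1 := H.hcr x z hxz
      have h2 := hC x z
      have h3 := hC z x
      simp only [Com, hu', hv'] at h1 ⊢
      by_cases hZx : Z x <;> by_cases hZy : Z z <;>
        simp only [hZx, hZy, if_true, if_false, not_true, not_false_iff, true_imp_iff,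
            false_imp_iff, imp_true_iff] at h2 h3 ⊢ <;> omega)
    (by
      intro x z hx hz
      have h1 := H.hch x z hx hz
      have h2 := hC x z
      have h3 := hC z x
      simp only [Com, hu', hv'] at h1 ⊢
      by_cases hZx : Z x <;> by_cases hZy : Z z <;>
        simp only [hZx, hZy, if_true, if_false, not_true, not_false_iff, true_imp_iff,
            false_imp_iff, imp_true_iff] at h2 h3 ⊢ <;> omega)
    (by
      intro z hz
      have h1 := hu.1 z; have h2 := hv.1 z; have h3 := hA2 z; have h4 := hle z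
      rw [hu', hv']
      by_cases hZ : Z z
      · have := h3 hZ hz; rw [if_pos hZ, if_pos hZ]; omega
      · rw [if_neg hZ, if_neg hZ]; exact ⟨Iff.rfl, Iff.rfl⟩)
  intro z hz
  have : ∑ z, u' z < ∑ z, u z := by
    apply Finset.sum_lt_sum
    · intro i _; rw [hu']; split_ifs <;> omega
    · exact ⟨z, mem_univ _, by rw [hu', if_pos hz]; omega⟩
  omega

/-- Step 8: the low clip and the first high dichotomy. -/
lemma clip (H : PairHyp ρ E R r u v) :
    ∀ z, ¬ ((ρ z < r ∧ 1 ≤ u z ∧ v z ≤ ρ z) ∨ (r ≤ ρ z ∧ ρ z - r + 2 ≤ u z ∧ v z ≤ ρ z)) := by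
  classical
  have hu := H.hu
  have hv := H.hv
  have hle := H.le
  apply H.empty_of_exchange
    (fun z => (ρ z < r ∧ 1 ≤ u z ∧ v z ≤ ρ z) ∨ (r ≤ ρ z ∧ ρ z - r + 2 ≤ u z ∧ v z ≤ ρ z))
  · intro z hz; omega
  · intro z hz; omega
  · intro x y hxy hx hy hpos
    have := H.hE x y hxy; have := hu.2 x y hxy; have := hv.2 x y hxy
    have := hu.1 x; have := hv.1 x; have := hu.1 y; have := hv.1 y
    have := hle x; have := hle y
    omega
  · intro x y hxy hx hy
    have := H.hE x y hxy; have := hu.2 x y hxy; have := hv.2 x y hxy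
    have := hu.1 x; have := hv.1 x; have := hu.1 y; have := hv.1 y
    have := hle x; have := hle y
    omega
  · intro x z hx hz hr
    have h1 := hu.1 x; have h2 := hv.1 x; have h3 := hu.1 z; have h4 := hv.1 z
    rcases hr with hr | hr
    · have := H.hcr x z hr
      unfold Com at this
      omega
    · have := H.hch x z hr.1 hr.2
      unfold Com at this
      omega

/-- Step 9: the high dichotomy. -/
lemma dicho (H : PairHyp ρ E R r u v) {α β : ℤ} (hβ : β ≤ 1)
    (hR2 : ∀ z, r ≤ ρ z → α < u z - ρ z → v z - ρ z < β → 2 ≤ u z) :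
    ∀ z, ¬ (r ≤ ρ z ∧ α < u z - ρ z ∧ v z - ρ z < β) := by
  classical
  have hu := H.hu
  have hv := H.hv
  have hle := H.le
  have hclip := H.clip
  apply H.empty_of_exchange (fun z => r ≤ ρ z ∧ α < u z - ρ z ∧ v z - ρ z < β)
  · intro z hz
    have := hR2 z hz.1 hz.2.1 hz.2.2
    omega
  · intro z hz _
    exact hR2 z hz.1 hz.2.1 hz.2.2
  · intro x y hxy hx hy hpos
    have := H.hE x y hxy; have := hu.2 x y hxy; have := hv.2 x y hxy
    have := hu.1 x; have := hv.1 x; have := hu.1 y; have := hv.1 y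
    have := hle x; have := hle y
    have := hclip x
    omega
  · intro x y hxy hx hy
    have := H.hE x y hxy; have := hu.2 x y hxy; have := hv.2 x y hxy
    have := hu.1 x; have := hv.1 x; have := hu.1 y; have := hv.1 y
    have := hle x; have := hle y
    have := hR2 x hx.1 hx.2.1 hx.2.2
    omega
  · intro x z hx hz hr
    have h1 := hu.1 x; have h2 := hv.1 x; have h3 := hu.1 z; have h4 := hv.1 z
    rcases hr with hr | hr
    · have := H.hcr x z hr
      unfold Com at this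
      omega
    · have := H.hch x z hr.1 hr.2
      unfold Com at this
      omega

/-- Step 6: the value at the top mixed element is tight from below. -/
lemma tight (H : PairHyp ρ E R r u v) {y : ι} (hy : ρ y = r) (huy : u y = 0) (hvy : 0 < v y)
    (htop : ∀ z, ρ z = r → u z = 0 → v z ≤ v y) :
    ∃ y', ρ y' = r ∧ u y' = 0 ∧ v y' = v y ∧
      (v y' ≤ 1 ∨ ∃ x, E x y' ∧ 0 < v x ∧ v y' ≤ v x + 1) := by
  classical
  by_contra hcon
  have hcon' : ∀ y', ρ y' = r → u y' = 0 → v y' = v y →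
      2 ≤ v y' ∧ ∀ x, E x y' → 0 < v x → v x + 2 ≤ v y' := by
    intro y' h1 h2 h3
    by_contra h4
    apply hcon
    refine ⟨y', h1, h2, h3, ?_⟩
    by_cases h5 : v y' ≤ 1
    · exact Or.inl h5
    · right
      by_contra h6
      apply h4
      refine ⟨by omega, fun x hx hpos => ?_⟩
      by_contra h7
      exact h6 ⟨x, hx, hpos, by omega⟩
  have hu := H.hu
  have hv := H.hv
  have hr0 : 0 ≤ r := by rw [← hy]; exact H.hρ0 y
  have hrR : r ≤ R := by rw [← hy]; exact H.hR y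
  obtain ⟨Z, hZ⟩ : ∃ Z : ι → Prop, ∀ z, Z z ↔ (r ≤ ρ z ∧ ((v z - ρ z = v y - r ∧
      u z - ρ z ≤ -r) ∨ (u z - ρ z = -r ∧ v y - r ≤ v z - ρ z))) := ⟨_, fun _ => Iff.rfl⟩
  have hyr : ∀ z, ρ z = r → Z z → u z = 0 ∧ v z = v y := by
    intro z hz hZz
    have h1 := (hZ z).1 hZz
    have := hu.1 z
    have := htop z hz
    omega
  have hyr2 : ∀ z, ρ z = r → Z z → 2 ≤ v z := by
    intro z hz hZz
    have h1 := hyr z hz hZz
    exact (hcon' z hz h1.1 h1.2).1
  have hpos : ∀ z, r < ρ z → Z z → 1 ≤ u z ∧ 2 ≤ v z := by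
    intro z hz hZz
    have h1 := (hZ z).1 hZz
    have := hu.1 z
    have := H.hun z hz
    omega
  obtain ⟨u', hu'⟩ : ∃ u' : ι → ℤ, ∀ z, u' z = if Z z then u z + 1 else u z :=
    ⟨_, fun _ => rfl⟩
  obtain ⟨v', hv'⟩ : ∃ v' : ι → ℤ, ∀ z, v' z = if Z z then v z - 1 else v z :=
    ⟨_, fun _ => rfl⟩
  have hchy : ∀ z, r ≤ ρ z → Com ρ u v y z := fun z hz => H.hch y z (by omega) hz
  have hs : ∀ z, u' z + v' z = u z + v z := by
    intro z; rw [hu', hv']; split_ifs <;> omega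
  have hA1 : InA ρ E u' := by
    refine ⟨fun z => ?_, fun x z hxz hx => ?_⟩
    · have h1 := hu.1 z; have h2 := hZ z; rw [hu']
      by_cases hZz : Z z
      · have := h2.1 hZz; rw [if_pos hZz]; omega
      · rw [if_neg hZz]; omega
    · have h1 := hu.2 x z hxz; have h1' := hv.2 x z hxz; have h2 := hZ x; have h3 := hZ z
      have h4 := hu.1 x; have h5 := hu.1 z
      have h6 := H.hE x z hxz
      have h7 := hyr x; have h8 := H.hun z; have h9 := H.hun x
      have h10 := hchy z; have h11 := hchy x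
      have h12 := hpos z; have h13 := hpos x
      have h14 := hyr2 x
      unfold Com at h10 h11
      rw [hu'] at hx ⊢; rw [hu']
      by_cases hZx : Z x <;> by_cases hZz : Z z <;>
        simp only [hZx, hZz, if_true, if_false, true_iff, false_iff, true_imp_iff,
          false_imp_iff, imp_true_iff] at hx h2 h3 h7 h12 h13 h14 ⊢ <;> omega
  have hA2 : InA ρ E v' := by
    refine ⟨fun z => ?_, fun x z hxz hx => ?_⟩
    · have h1 := hv.1 z; have h2 := hpos z; have h3 := hyr2 z; have h4 := hZ z; rw [hv']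
      by_cases hZz : Z z
      · have := h4.1 hZz; rw [if_pos hZz]
        simp only [hZz, true_imp_iff] at h2 h3
        omega
      · rw [if_neg hZz]; omega
    · have h1 := hu.2 x z hxz; have h1' := hv.2 x z hxz; have h2 := hZ x; have h3 := hZ z
      have h4 := hu.1 x; have h5 := hu.1 z
      have h4' := hv.1 x; have h5' := hv.1 z
      have h6 := H.hE x z hxz
      have h7 := hyr z; have h8 := H.hun z; have h9 := H.hun x
      have h10 := hchy z; have h11 := hchy x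
      have h12 := hpos z; have h13 := hpos x
      have h14 := hyr2 x
      have h15 : ρ z = r → Z z → 0 < v x → v x + 2 ≤ v z := by
        intro a b c
        have := hyr z a b
        exact (hcon' z a this.1 this.2).2 x hxz c
      unfold Com at h10 h11
      rw [hv'] at hx ⊢; rw [hv']
      by_cases hZx : Z x <;> by_cases hZz : Z z <;>
        simp only [hZx, hZz, if_true, if_false, true_iff, false_iff, true_imp_iff,
          false_imp_iff, imp_true_iff] at hx h2 h3 h7 h12 h13 h14 h15 ⊢ <;> omega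
  have hCC : ∀ x z, r ≤ ρ x → r ≤ ρ z → Com ρ u' v' x z := by
    intro x z hx hz
    have h1 := H.hch x z hx hz
    have h10 := hchy z hz; have h11 := hchy x hx
    have h2 := hZ x; have h3 := hZ z
    simp only [Com, hu', hv'] at h1 h10 h11 ⊢
    by_cases hZx : Z x <;> by_cases hZz : Z z <;>
      simp only [hZx, hZz, if_true, if_false, true_iff, false_iff] at h2 h3 ⊢ <;> omega
  have hC1 : ∀ x z, ρ x = ρ z → Com ρ u' v' x z := by
    intro x z hxz
    by_cases hx : r ≤ ρ x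
    · exact hCC x z hx (by omega)
    · have h1 := H.hcr x z hxz
      have h2 := hZ x; have h3 := hZ z
      simp only [Com, hu', hv'] at h1 ⊢
      have hZx : ¬ Z x := fun h => hx ((hZ x).1 h).1
      have hZz : ¬ Z z := fun h => hx (by have := ((hZ z).1 h).1; omega)
      simp only [hZx, hZz, if_false]; omega
  have d0 : D (w0 ρ) u v u' v' ≤ 0 := by
    have := T_le (ρ := ρ) (Pr := fun p => ρ p.1 = ρ p.2) (u := u) (v := v)
      (fun p hp => hC1 _ _ hp) hs
    simp only [D, w0]; omega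
  have dV : ∀ p, r ≤ p → D (V ρ p) u v u' v' ≤ 0 := by
    intro p hp
    have := T_le (ρ := ρ) (Pr := fun pp => ρ pp.1 = p ∧ p < ρ pp.2) (u := u) (v := v)
      (u' := u') (v' := v') (fun pp hpp => hCC _ _ (by omega) (by omega)) hs
    simp only [D, V]; omega
  have dhi : ∀ p, r < p → D (V ρ p) u v u' v' ≤ 0 ∧ D (W1 ρ p) u v u' v' ≤ 0 ∧
      D (W2 ρ p) u v u' v' ≤ 0 := by
    intro p hp
    have a := W_same (ρ := ρ) (q := p) hs (fun z hz' => by
      have h2 := H.hun z (by omega)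
      have h3 := hpos z (by omega)
      rw [hu', hv']
      by_cases hZz : Z z
      · have := h3 hZz
        rw [if_pos hZz, if_pos hZz]; omega
      · rw [if_neg hZz, if_neg hZz]; exact ⟨Iff.rfl, h2.symm, h2.symm⟩)
    exact ⟨dV p hp.le, a.1.le, a.2.le⟩
  have e1 : W1 ρ r v' = W1 ρ r v := W1_congr (fun z hz' => by
    have h3 := hyr2 z hz'
    rw [hv']
    by_cases hZz : Z z
    · have := h3 hZz
      rw [if_pos hZz]; omega
    · rw [if_neg hZz])
  have e2 : W1 ρ r u' < W1 ρ r u := by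
    unfold W1
    apply Finset.sum_lt_sum
    · intro z _
      rw [hu']
      have h1 := hu.1 z
      by_cases hZz : Z z
      · have : ¬ (u z + 1 = 0) := by omega
        simp only [hZz, if_true, this, and_false, if_false]
        split_ifs <;> omega
      · simp [hZz]
    · refine ⟨y, mem_univ _, ?_⟩
      have hZy : Z y := (hZ y).2 (by omega)
      simp [hu', hZy, huy, hy]
  have := (H.h.level hA1 hA2 hs hr0 hrR d0 dhi).2.1 (dV r le_rfl)
  simp only [D, e1] at this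
  omega

end PairHyp

end Pool.Agent.Helper489.LHCore
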