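import Pool.Agent.Helper489.LHCore

namespace Pool.Agent.Helper489.LHCore

open Finset

set_option linter.unusedVariables false
set_option linter.unusedSectionVars false
set_option linter.unusedSimpArgs false

variable {ι : Type*} [Fintype ι]

lemma quad_aux (e b : ι → ℤ) (hb : ∀ z, e z ≤ b z ∧ b z ≤ e z + 1)
    (h : ((Fintype.card ι : ℤ) + 1) * (∑ z, e z * b z) - (∑ z, e z) * (∑ z, b z) ≤ 0) :
    (∀ z, e z = 0) ∨ (∀ z, b z = 0) := by
  have hm : Monovary e b := by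
    intro i j hij
    have := hb i; have := hb j
    omega
  have h1 : (∑ z, e z) * (∑ z, b z) ≤ (Fintype.card ι : ℤ) * ∑ z, e z * b z :=
    hm.sum_mul_sum_le_card_mul_sum
  have h2 : ∀ z, 0 ≤ e z * b z := by
    intro z
    have := hb z
    rcases lt_trichotomy (e z) 0 with h | h | h
    · exact mul_nonneg_of_nonpos_of_nonpos h.le (by omega)
    · simp [h]
    · exact mul_nonneg h.le (by omega)
  have h3 : 0 ≤ ∑ z, e z * b z := Finset.sum_nonneg (fun z _ => h2 z)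
  have h4 : ∑ z, e z * b z = 0 := by nlinarith
  have h5 : ∀ z, e z * b z = 0 := by
    intro z
    exact (Finset.sum_eq_zero_iff_of_nonneg (fun z _ => h2 z)).1 h4 z (mem_univ z)
  have h6 : ∀ z, e z ≤ 0 ∧ 0 ≤ b z := by
    intro z
    have := hb z
    rcases mul_eq_zero.1 (h5 z) with h | h <;> omega
  have h7 : (∑ z, e z) * (∑ z, b z) = 0 := by
    have a1 : ∑ z, e z ≤ 0 := Finset.sum_nonpos (fun z _ => (h6 z).1)
    have a2 : 0 ≤ ∑ z, b z := Finset.sum_nonneg (fun z _ => (h6 z).2)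
    have a3 : (∑ z, e z) * (∑ z, b z) ≤ 0 := mul_nonpos_of_nonpos_of_nonneg a1 a2
    rw [h4] at h
    linarith
  rcases mul_eq_zero.1 h7 with h | h
  · left
    intro z
    have := (Finset.sum_eq_zero_iff_of_nonpos (fun z _ => (h6 z).1)).1 h z (mem_univ z)
    exact this
  · right
    intro z
    exact (Finset.sum_eq_zero_iff_of_nonneg (fun z _ => (h6 z).2)).1 h z (mem_univ z)

lemma wf_diff (u' v' e : ι → ℤ) :
    wf (fun z => u' z - e z) + wf (fun z => v' z + e z) - wf u' - wf v' =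
    2 * (((Fintype.card ι : ℤ) + 1) * (∑ z, e z * (e z + (v' z - u' z))) -
      (∑ z, e z) * (∑ z, (e z + (v' z - u' z)))) := by
  have h1 : ∀ z, (u' z - e z) ^ 2 + (v' z + e z) ^ 2 = u' z ^ 2 + v' z ^ 2 +
      2 * (e z * (e z + (v' z - u' z))) := by intro z; ring
  have h2 : ∑ z, (u' z - e z) ^ 2 + ∑ z, (v' z + e z) ^ 2 = ∑ z, u' z ^ 2 + ∑ z, v' z ^ 2 +
      2 * ∑ z, (e z * (e z + (v' z - u' z))) := by
    rw [← Finset.sum_add_distrib, ← Finset.sum_add_distrib, Finset.mul_sum,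
      ← Finset.sum_add_distrib]
    exact Finset.sum_congr rfl (fun z _ => h1 z)
  have h3 : ∑ z, (u' z - e z) = ∑ z, u' z - ∑ z, e z := Finset.sum_sub_distrib _ _
  have h4 : ∑ z, (v' z + e z) = ∑ z, v' z + ∑ z, e z := Finset.sum_add_distrib
  have h5 : ∑ z, (e z + (v' z - u' z)) = ∑ z, e z + (∑ z, v' z - ∑ z, u' z) := by
    rw [Finset.sum_add_distrib, Finset.sum_sub_distrib]
  unfold wf
  rw [h3, h4, h5]
  linear_combination ((Fintype.card ι : ℤ) + 1) * h2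

/-- Step 2: an optimal pair with equal supports differs by a 0/1 vector. -/
lemma same_support {ρ : ι → ℤ} {E : ι → ι → Prop} (hE : ∀ x y, E x y → ρ y = ρ x + 1)
    {R : ℕ} {u v : ι → ℤ} (hu : InA ρ E u)
    (hv : InA ρ E v) (h : LOpt ρ E R u v) (hun : ∀ z, u z = 0 ↔ v z = 0) :
    (∀ z, u z ≤ v z ∧ v z ≤ u z + 1) ∨ (∀ z, v z ≤ u z ∧ u z ≤ v z + 1) := by
  obtain ⟨u', hu'⟩ : ∃ u' : ι → ℤ, ∀ z, u' z = (u z + v z) / 2 := ⟨_, fun _ => rfl⟩
  obtain ⟨v', hv'⟩ : ∃ v' : ι → ℤ, ∀ z, v' z = (u z + v z + 1) / 2 := ⟨_, fun _ => rfl⟩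
  have hA1 : InA ρ E u' := by
    refine ⟨fun z => ?_, fun x y hxy hx => ?_⟩
    · have := hu.1 z; have := hv.1 z; rw [hu']; omega
    · have := hu.2 x y hxy; have := hv.2 x y hxy
      have := hu.1 x; have := hv.1 x
      have := hun x
      rw [hu'] at hx ⊢; rw [hu']; omega
  have hA2 : InA ρ E v' := by
    refine ⟨fun z => ?_, fun x y hxy hx => ?_⟩
    · have := hu.1 z; have := hv.1 z; rw [hv']; omega
    · have := hu.2 x y hxy; have := hv.2 x y hxy
      have := hu.1 x; have := hv.1 x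
      have := hun x
      rw [hv'] at hx ⊢; rw [hv']; omega
  have hs : ∀ z, u' z + v' z = u z + v z := by intro z; rw [hu', hv']; omega
  have hC : ∀ x z, Com ρ u' v' x z := by
    intro x z
    simp only [Com, hu', hv']; omega
  have d0 : D (w0 ρ) u v u' v' ≤ 0 := by
    have := T_le (ρ := ρ) (Pr := fun p => ρ p.1 = ρ p.2) (u := u) (v := v)
      (fun p hp => hC _ _) hs
    simp only [D, w0]; omega
  have dhi : ∀ p, D (V ρ p) u v u' v' ≤ 0 ∧ D (W1 ρ p) u v u' v' ≤ 0 ∧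
      D (W2 ρ p) u v u' v' ≤ 0 := by
    intro p
    have a := W_same (ρ := ρ) (q := p) hs (fun z _ => by
      have := hun z
      have := hu.1 z; have := hv.1 z
      rw [hu', hv']; omega)
    refine ⟨?_, a.1.le, a.2.le⟩
    have := T_le (ρ := ρ) (Pr := fun pp => ρ pp.1 = p ∧ p < ρ pp.2) (u := u) (v := v)
      (u' := u') (v' := v') (fun pp hpp => hC _ _) hs
    simp only [D, V]; omega
  have h1 := h.opt_wf hA1 hA2 hs d0 dhi
  have e1 : u = fun z => u' z - (v z - v' z) := by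
    funext z; have := hs z; omega
  have e2 : v = fun z => v' z + (v z - v' z) := by
    funext z; omega
  have h2 := wf_diff u' v' (fun z => v z - v' z)
  have h3 := quad_aux (fun z => v z - v' z) (fun z => v z - v' z + (v' z - u' z))
    (by intro z; simp only [hu', hv']; omega)
    (by
      simp only [D] at h1
      rw [← e1, ← e2] at h2
      linarith)
  rcases h3 with h3 | h3
  · left
    intro z
    have := h3 z
    simp only [hu', hv'] at this
    omega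
  · right
    intro z
    have := h3 z
    simp only [hu', hv'] at this
    omega

/-- Integral affine functionals. -/
def IsAff (F : (ι → ℤ) → ℤ) : Prop := ∃ (a : ι → ℤ) (c : ℤ), ∀ f, F f = ∑ z, a z * f z + c

lemma IsAff.const (c : ℤ) : IsAff (fun _ : ι → ℤ => c) := ⟨0, c, by simp⟩

lemma IsAff.coord (z : ι) : IsAff (fun f : ι → ℤ => f z) := by
  classical
  exact ⟨fun i => if i = z then 1 else 0, 0, by simp⟩

lemma IsAff.add {F G : (ι → ℤ) → ℤ} (hF : IsAff F) (hG : IsAff G) :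
    IsAff (fun f => F f + G f) := by
  obtain ⟨a, c, ha⟩ := hF
  obtain ⟨b, d, hb⟩ := hG
  refine ⟨fun z => a z + b z, c + d, fun f => ?_⟩
  beta_reduce
  rw [ha, hb]
  simp only [add_mul, Finset.sum_add_distrib]
  ring

lemma IsAff.mul {F : (ι → ℤ) → ℤ} (k : ℤ) (hF : IsAff F) : IsAff (fun f => k * F f) := by
  obtain ⟨a, c, ha⟩ := hF
  refine ⟨fun z => k * a z, k * c, fun f => ?_⟩
  beta_reduce
  rw [ha, mul_add, Finset.mul_sum]
  simp only [mul_assoc]

lemma IsAff.sub {F G : (ι → ℤ) → ℤ} (hF : IsAff F) (hG : IsAff G) :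
    IsAff (fun f => F f - G f) := by
  have := hF.add (hG.mul (-1))
  simpa [sub_eq_add_neg] using this

lemma IsAff.sum {F : ι → (ι → ℤ) → ℤ} (hF : ∀ z, IsAff (F z)) :
    IsAff (fun f => ∑ z, F z f) := by
  classical
  have : ∀ s : Finset ι, IsAff (fun f => ∑ z ∈ s, F z f) := by
    intro s
    induction s using Finset.induction_on with
    | empty => simpa using IsAff.const (ι := ι) 0
    | insert a s ha ih =>
      simp only [Finset.sum_insert ha]
      exact (hF a).add ih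
  exact this univ

/-- Every integer-valued function on `C` is the restriction of an integral affine functional. -/
def Uni (C : Finset (ι → ℤ)) : Prop :=
  ∀ φ : (ι → ℤ) → ℤ, ∃ L : (ι → ℤ) → ℤ, IsAff L ∧ ∀ f ∈ C, L f = φ f

/-- The glueing lemma. -/
lemma glue {C₀ C₁ C : Finset (ι → ℤ)} {h : (ι → ℤ) → ℤ} (hh : IsAff h)
    (h0 : ∀ f ∈ C₀, h f = 0) (h1 : ∀ f ∈ C₁, h f = 1)
    (hE : ∀ z : ι, ∃ (E : (ι → ℤ) → ℤ) (k : ℤ) (E' : (ι → ℤ) → ℤ) (k' : ℤ),
      IsAff E ∧ IsAff E' ∧ (∀ f ∈ C₀, E f = f z) ∧ (∀ f ∈ C₁, E f = k) ∧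
      (∀ f ∈ C₁, E' f = f z) ∧ (∀ f ∈ C₀, E' f = k'))
    (U0 : Uni C₀) (U1 : Uni C₁) (hC : ∀ f ∈ C, f ∈ C₀ ∨ f ∈ C₁) : Uni C := by
  choose E k E' k' hEa hEa' hE0 hE1 hE1' hE0' using hE
  intro φ
  obtain ⟨L₀, ⟨a₀, c₀, hL₀⟩, hφ₀⟩ := U0 φ
  obtain ⟨L₁, ⟨a₁, c₁, hL₁⟩, hφ₁⟩ := U1 φ
  obtain ⟨M₀, hM₀⟩ : ∃ M₀ : (ι → ℤ) → ℤ, ∀ f, M₀ f = ∑ z, a₀ z * E z f + c₀ :=
    ⟨_, fun _ => rfl⟩
  obtain ⟨M₁, hM₁⟩ : ∃ M₁ : (ι → ℤ) → ℤ, ∀ f, M₁ f = ∑ z, a₁ z * E' z f + c₁ :=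
    ⟨_, fun _ => rfl⟩
  have aM₀ : IsAff M₀ := by
    have : M₀ = fun f => ∑ z, a₀ z * E z f + c₀ := funext hM₀
    rw [this]
    exact (IsAff.sum (fun z => (hEa z).mul (a₀ z))).add (IsAff.const c₀)
  have aM₁ : IsAff M₁ := by
    have : M₁ = fun f => ∑ z, a₁ z * E' z f + c₁ := funext hM₁
    rw [this]
    exact (IsAff.sum (fun z => (hEa' z).mul (a₁ z))).add (IsAff.const c₁)
  have b0 : ∀ f ∈ C₀, M₀ f = φ f := by
    intro f hf
    rw [hM₀, ← hφ₀ f hf, hL₀]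
    congr 1
    exact Finset.sum_congr rfl (fun z _ => by rw [hE0 z f hf])
  have b1 : ∀ f ∈ C₁, M₀ f = ∑ z, a₀ z * k z + c₀ := by
    intro f hf
    rw [hM₀]
    congr 1
    exact Finset.sum_congr rfl (fun z _ => by rw [hE1 z f hf])
  have b1' : ∀ f ∈ C₁, M₁ f = φ f := by
    intro f hf
    rw [hM₁, ← hφ₁ f hf, hL₁]
    congr 1
    exact Finset.sum_congr rfl (fun z _ => by rw [hE1' z f hf])
  have b0' : ∀ f ∈ C₀, M₁ f = ∑ z, a₁ z * k' z + c₁ := by
    intro f hf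
    rw [hM₁]
    congr 1
    exact Finset.sum_congr rfl (fun z _ => by rw [hE0' z f hf])
  set K₀ := ∑ z, a₀ z * k z + c₀ with hK₀
  set K₁ := ∑ z, a₁ z * k' z + c₁ with hK₁
  refine ⟨fun f => (M₀ f + M₁ f) + ((-K₁) + (K₁ - K₀) * h f),
    (aM₀.add aM₁).add ((IsAff.const (-K₁)).add (hh.mul (K₁ - K₀))), ?_⟩
  intro f hf
  rcases hC f hf with hf | hf
  · simp only [b0 f hf, b0' f hf, h0 f hf]; ring
  · simp only [b1 f hf, b1' f hf, h1 f hf]; ring

/-- In a comonotone family, the order of the sums is the common order. -/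
lemma order_of_sum {ρ : ι → ℤ} {C : Finset (ι → ℤ)} {x z : ι}
    (hc : ∀ u ∈ C, ∀ v ∈ C, Com ρ u v x z)
    (hS : ∑ f ∈ C, (f x - ρ x) ≤ ∑ f ∈ C, (f z - ρ z)) :
    ∀ f ∈ C, f x - ρ x ≤ f z - ρ z := by
  intro f hf
  by_contra hcon
  have : ∑ f ∈ C, (f z - ρ z) < ∑ f ∈ C, (f x - ρ x) := by
    apply Finset.sum_lt_sum
    · intro g hg
      have := hc f hf g hg
      unfold Com at this
      omega
    · exact ⟨f, hf, by omega⟩
  omega

end Pool.Agent.Helper489.LHCore
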