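import Pool.Agent.Helper489.LHCore2

namespace Pool.Agent.Helper489.LHCore

open Finset

set_option linter.unusedVariables false
set_option linter.unusedSectionVars false
set_option linter.unusedSimpArgs false

variable {ι : Type*} [Fintype ι]

/-- Everything we need about a family `C` split at rank `r`. -/
structure Split (ρ : ι → ℤ) (E : ι → ι → Prop) (R : ℕ) (r : ℤ) (y : ι)
    (C C₀ C₁ : Finset (ι → ℤ)) : Prop where
  hE : ∀ x y, E x y → ρ y = ρ x + 1
  hρ0 : ∀ z, 0 ≤ ρ z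
  hR : ∀ z, ρ z ≤ R
  hA : ∀ f ∈ C, InA ρ E f
  hL : ∀ f ∈ C, ∀ g ∈ C, LOpt ρ E R f g
  hun : ∀ z, r < ρ z → ∀ f ∈ C, ∀ g ∈ C, (f z = 0 ↔ g z = 0)
  hyr : ρ y = r
  h0 : ∀ f, f ∈ C₀ ↔ f ∈ C ∧ f y = 0
  h1 : ∀ f, f ∈ C₁ ↔ f ∈ C ∧ f y ≠ 0
  hn0 : C₀.Nonempty
  hn1 : C₁.Nonempty
  hmx : ∀ z, ρ z = r → (∃ f ∈ C, f z = 0) → (∃ g ∈ C, g z ≠ 0) → ∀ f ∈ C, f z ≤ f y

namespace Split

variable {ρ : ι → ℤ} {E : ι → ι → Prop} {R : ℕ} {r : ℤ} {y : ι} {C C₀ C₁ : Finset (ι → ℤ)}

lemma comR (H : Split ρ E R r y C C₀ C₁) {x z : ι} (hxz : ρ x = ρ z) :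
    ∀ u ∈ C, ∀ v ∈ C, Com ρ u v x z :=
  fun u hu v hv => com_rank H.hE (H.hA u hu) (H.hA v hv) (H.hL u hu v hv) x z hxz

lemma comH (H : Split ρ E R r y C C₀ C₁) {x z : ι} (hx : r ≤ ρ x) (hz : r ≤ ρ z) :
    ∀ u ∈ C, ∀ v ∈ C, Com ρ u v x z := by
  intro u hu v hv
  rcases lt_trichotomy (ρ x) (ρ z) with hlt | heq | hgt
  · exact com_high H.hE H.hρ0 H.hR (H.hA u hu) (H.hA v hv) (H.hL u hu v hv) (q := ρ x)
      (fun w hw => H.hun w (by omega) u hu v hv) x z rfl hlt
  · exact H.comR heq u hu v hv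
  · exact (com_high H.hE H.hρ0 H.hR (H.hA u hu) (H.hA v hv) (H.hL u hu v hv) (q := ρ z)
      (fun w hw => H.hun w (by omega) u hu v hv) z x rfl hgt).symm'

lemma sub0 (H : Split ρ E R r y C C₀ C₁) : ∀ f ∈ C₀, f ∈ C := fun f hf => ((H.h0 f).1 hf).1
lemma sub1 (H : Split ρ E R r y C C₀ C₁) : ∀ f ∈ C₁, f ∈ C := fun f hf => ((H.h1 f).1 hf).1

lemma pos1 (H : Split ρ E R r y C C₀ C₁) : ∀ f ∈ C₁, 0 < f y := by
  intro f hf
  have h1 := (H.h1 f).1 hf
  have := (H.hA f h1.1).1 y
  omega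

lemma zero0 (H : Split ρ E R r y C C₀ C₁) : ∀ f ∈ C₀, f y = 0 := fun f hf => ((H.h0 f).1 hf).2

/-- At rank `r`, zero somewhere on `C₀` means zero on all of `C₀`. -/
lemma zero_rank (H : Split ρ E R r y C C₀ C₁) {z : ι} (hz : ρ z = r)
    (hf : ∃ f ∈ C, f z = 0) : ∀ u ∈ C₀, u z = 0 := by
  intro u hu
  have hu' := H.sub0 u hu
  by_cases hg : ∃ g ∈ C, g z ≠ 0
  · have h1 := H.hmx z hz hf hg u hu'
    have h2 := H.zero0 u hu
    have h3 := (H.hA u hu').1 z
    omega
  · by_contra hcon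
    exact hg ⟨u, hu', hcon⟩

lemma pair (H : Split ρ E R r y C C₀ C₁) {u v : ι → ℤ} (hu : u ∈ C₀) (hv : v ∈ C₁) :
    PairHyp ρ E R r u v where
  hE := H.hE
  hρ0 := H.hρ0
  hR := H.hR
  hu := H.hA u (H.sub0 u hu)
  hv := H.hA v (H.sub1 v hv)
  h := H.hL u (H.sub0 u hu) v (H.sub1 v hv)
  hun := fun z hz => H.hun z hz u (H.sub0 u hu) v (H.sub1 v hv)
  hsub := fun z hz hvz => H.zero_rank hz ⟨v, H.sub1 v hv, hvz⟩ u hu
  hy := ⟨y, H.hyr, H.zero0 u hu, H.pos1 v hv⟩

/-- Trichotomy for the elements of rank at least `r` on `C₀`. -/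
lemma dich0 (H : Split ρ E R r y C C₀ C₁) {z : ι} (hz : r ≤ ρ z) :
    (∀ u ∈ C₀, u z = 0) ∨ (∀ u ∈ C₀, 1 ≤ u z) := by
  by_cases h : ∃ u ∈ C₀, u z = 0
  · left
    obtain ⟨u, hu, huz⟩ := h
    rcases hz.lt_or_eq with hz | hz
    · intro w hw
      exact (H.hun z hz u (H.sub0 u hu) w (H.sub0 w hw)).1 huz
    · exact H.zero_rank hz.symm ⟨u, H.sub0 u hu, huz⟩
  · right
    intro u hu
    have h1 := (H.hA u (H.sub0 u hu)).1 z
    have h2 : u z ≠ 0 := fun h2 => h ⟨u, hu, h2⟩
    omega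

/-- The functional separating `C₀` and `C₁`. -/
lemma exists_h (H : Split ρ E R r y C C₀ C₁) :
    ∃ h : (ι → ℤ) → ℤ, IsAff h ∧ (∀ f ∈ C₀, h f = 0) ∧ (∀ f ∈ C₁, h f = 1) := by
  classical
  obtain ⟨u₀, hu₀⟩ := H.hn0
  -- the tight elements
  have key : ∀ v ∈ C₁, ∃ y', ρ y' = r ∧ (∀ u ∈ C₀, u y' = 0) ∧ v y' = v y ∧
      (v y' ≤ 1 ∨ ∃ x, E x y' ∧ 0 < v x ∧ v y' ≤ v x + 1) := by
    intro v hv
    have P := H.pair hu₀ hv
    obtain ⟨y', h1, h2, h3, h4⟩ := P.tight H.hyr (H.zero0 u₀ hu₀) (H.pos1 v hv) (by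
      intro z hz huz
      by_cases hg : ∃ g ∈ C, g z ≠ 0
      · exact H.hmx z hz ⟨u₀, H.sub0 u₀ hu₀, huz⟩ hg v (H.sub1 v hv)
      · have : v z = 0 := by
          by_contra hcon
          exact hg ⟨v, H.sub1 v hv, hcon⟩
        have := H.pos1 v hv
        omega)
    exact ⟨y', h1, H.zero_rank h1 ⟨u₀, H.sub0 u₀ hu₀, h2⟩, h3, h4⟩
  -- elements of rank r which vanish on C₀ are below y on C₁
  have below : ∀ z, ρ z = r → (∀ u ∈ C₀, u z = 0) → ∀ v ∈ C₁, v z ≤ v y := by
    intro z hz huz v hv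
    by_cases hg : ∃ g ∈ C, g z ≠ 0
    · exact H.hmx z hz ⟨u₀, H.sub0 u₀ hu₀, huz u₀ hu₀⟩ hg v (H.sub1 v hv)
    · have : v z = 0 := by
        by_contra hcon
        exact hg ⟨v, H.sub1 v hv, hcon⟩
      have := H.pos1 v hv
      omega
  let X : Finset ι := univ.filter (fun x => ∃ y', E x y' ∧ ρ y' = r ∧ ∀ u ∈ C₀, u y' = 0)
  have hX : ∀ x, x ∈ X ↔ ∃ y', E x y' ∧ ρ y' = r ∧ ∀ u ∈ C₀, u y' = 0 := by
    intro x; simp [X]
  rcases X.eq_empty_or_nonempty with hXe | hXn
  · refine ⟨fun f => f y, IsAff.coord y, H.zero0, ?_⟩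
    intro v hv
    obtain ⟨y', h1, h2, h3, h4⟩ := key v hv
    have := H.pos1 v hv
    rcases h4 with h4 | ⟨x, hx, _⟩
    · show v y = 1
      omega
    · exfalso
      have : x ∈ X := (hX x).2 ⟨y', hx, h1, h2⟩
      rw [hXe] at this
      simp at this
  · obtain ⟨x₀, hx₀, hmax⟩ := X.exists_max_image (fun x => ∑ f ∈ C, (f x - ρ x)) hXn
    obtain ⟨y₀, hy₀, hy₀r, hy₀z⟩ := (hX x₀).1 hx₀
    refine ⟨fun f => f y - f x₀, (IsAff.coord y).sub (IsAff.coord x₀), ?_, ?_⟩
    · intro u hu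
      have h1 := (H.hA u (H.sub0 u hu)).2 x₀ y₀ hy₀
      have h2 := (H.hA u (H.sub0 u hu)).1 x₀
      have h3 := hy₀z u hu
      have h4 := H.zero0 u hu
      show u y - u x₀ = 0
      omega
    · intro v hv
      have hvA := H.hA v (H.sub1 v hv)
      have hpos := H.pos1 v hv
      have hx₀r := H.hE x₀ y₀ hy₀
      obtain ⟨y', h1, h2, h3, h4⟩ := key v hv
      have h5 : ∀ x ∈ X, v x ≤ v x₀ := by
        intro x hx
        obtain ⟨y₁, hy₁, hy₁r, _⟩ := (hX x).1 hx
        have e1 := H.hE x y₁ hy₁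
        have hr : ρ x = ρ x₀ := by omega
        have := order_of_sum (ρ := ρ) (H.comR hr) (hmax x hx) v (H.sub1 v hv)
        omega
      have h6 := hvA.2 x₀ y₀ hy₀
      have h7 := below y₀ hy₀r hy₀z v hv
      have h8 := hvA.1 x₀
      show v y - v x₀ = 1
      rcases h4 with h4 | ⟨x, hx, hx0, hx1⟩
      · omega
      · have := h5 x ((hX x).2 ⟨y', hx, h1, h2⟩)
        omega

/-- The recursion for the extension functionals. -/
lemma exists_ext_high (H : Split ρ E R r y C C₀ C₁) : ∀ k : ℕ, ∀ z : ι, r ≤ ρ z →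
    (∀ u ∈ C₀, 1 - (k : ℤ) ≤ u z - ρ z) →
    ∃ (E : (ι → ℤ) → ℤ) (k : ℤ) (E' : (ι → ℤ) → ℤ) (k' : ℤ),
      IsAff E ∧ IsAff E' ∧ (∀ f ∈ C₀, E f = f z) ∧ (∀ f ∈ C₁, E f = k) ∧
      (∀ f ∈ C₁, E' f = f z) ∧ (∀ f ∈ C₀, E' f = k') := by
  classical
  intro k
  induction k with
  | zero =>
    intro z hz hk
    refine ⟨fun _ => ρ z + 1, ρ z + 1, fun f => f z, ρ z + 1, IsAff.const _, IsAff.coord z,
      ?_, fun _ _ => rfl, fun _ _ => rfl, ?_⟩
    · intro f hf
      have h1 := hk f hf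
      have h2 := (H.hA f (H.sub0 f hf)).1 z
      show ρ z + 1 = f z
      push_cast at h1
      omega
    · intro f hf
      have h1 := hk f hf
      have h2 := (H.hA f (H.sub0 f hf)).1 z
      show f z = ρ z + 1
      push_cast at h1
      omega
  | succ k ih =>
    intro z hz hk
    obtain ⟨um, hum, hmin⟩ := C₀.exists_min_image (fun u => u z) H.hn0
    by_cases hconst : ∀ u ∈ C₀, u z = um z
    · exact ⟨fun _ => um z, um z, fun f => f z, um z, IsAff.const _, IsAff.coord z,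
        fun f hf => (hconst f hf).symm, fun _ _ => rfl, fun _ _ => rfl, hconst⟩
    · obtain ⟨u₁, hu₁, hne⟩ : ∃ u₁ ∈ C₀, u₁ z ≠ um z := by
        by_contra hcon
        apply hconst
        intro u hu
        by_contra h
        exact hcon ⟨u, hu, h⟩
      have hgt : um z < u₁ z := by
        have := hmin u₁ hu₁
        omega
      obtain ⟨LB, hLB⟩ : ∃ LB : ι → ℤ, ∀ p, LB p =
          if (∀ u ∈ C₀, u p = 0) then - ρ p else 1 - ρ p := ⟨_, fun _ => rfl⟩
      have F1 : ∀ p, r ≤ ρ p → ∀ u ∈ C₀, LB p ≤ u p - ρ p ∧ (LB p < u p - ρ p → 2 ≤ u p) := by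
        intro p hp u hu
        rw [hLB]
        by_cases h : ∀ u ∈ C₀, u p = 0
        · rw [if_pos h]
          have := h u hu
          omega
        · rw [if_neg h]
          have := (H.dich0 hp).resolve_left h u hu
          omega
      let Pw : Finset ι := univ.filter (fun p => r ≤ ρ p ∧ um z - ρ z < LB p)
      have hPw : ∀ p, p ∈ Pw ↔ r ≤ ρ p ∧ um z - ρ z < LB p := by
        intro p; simp [Pw]
      rcases Pw.eq_empty_or_nonempty with hPe | hPn
      · -- `z` is constant on `C₁`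
        have hc : ∀ v ∈ C₁, v z = ρ z + 1 := by
          intro v hv
          have P := H.pair hu₁ hv
          have := P.dicho (α := um z - ρ z) (β := 1) le_rfl (by
            intro p hp h1 h2
            have h3 : ¬ (um z - ρ z < LB p) := by
              intro h3
              have : p ∈ Pw := (hPw p).2 ⟨hp, h3⟩
              rw [hPe] at this
              simp at this
            exact (F1 p hp u₁ hu₁).2 (by omega)) z
          have h2 := P.hv.1 z
          omega
        exact ⟨fun f => f z, ρ z + 1, fun _ => ρ z + 1, ρ z + 1, IsAff.coord z, IsAff.const _,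
          fun _ _ => rfl, hc, fun f hf => (hc f hf).symm, fun _ _ => rfl⟩
      · obtain ⟨w, hw, hwmin⟩ := Pw.exists_min_image (fun p => ∑ f ∈ C, (f p - ρ p)) hPn
        obtain ⟨hwr, hwLB⟩ := (hPw w).1 hw
        have hc : ∀ v ∈ C₁, v z - ρ z = v w - ρ w := by
          intro v hv
          have P := H.pair hu₁ hv
          have h0 := P.hv.1 w
          have h1 := P.dicho (α := um z - ρ z) (β := v w - ρ w) (by omega) (by
            intro p hp h1 h2
            have h3 : ¬ (um z - ρ z < LB p) := by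
              intro h3
              have hp' : p ∈ Pw := (hPw p).2 ⟨hp, h3⟩
              have := order_of_sum (ρ := ρ) (H.comH hwr hp) (hwmin p hp') v (H.sub1 v hv)
              omega
            exact (F1 p hp u₁ hu₁).2 (by omega)) z
          have h2 := H.comH hz hwr um (H.sub0 um hum) v (H.sub1 v hv)
          have h3 := (F1 w hwr um hum).1
          unfold Com at h2
          omega
        obtain ⟨E₁, k₁, E₂, k₂, a1, a2, b1, b2, b3, b4⟩ := ih w hwr (by
          intro u hu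
          have h1 := (F1 w hwr u hu).1
          have h2 := hk um hum
          push_cast at h2
          omega)
        refine ⟨fun f => (f z - f w) + E₁ f, (ρ z - ρ w) + k₁, fun f => E₂ f + (ρ z - ρ w),
          k₂ + (ρ z - ρ w), ((IsAff.coord z).sub (IsAff.coord w)).add a1,
          a2.add (IsAff.const _), ?_, ?_, ?_, ?_⟩
        · intro f hf
          simp only [b1 f hf]; ring
        · intro f hf
          have := hc f hf
          simp only [b2 f hf]; omega
        · intro f hf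
          have := hc f hf
          simp only [b3 f hf]; omega
        · intro f hf
          simp only [b4 f hf]

/-- Extension functionals for every coordinate. -/
lemma exists_ext (H : Split ρ E R r y C C₀ C₁) (z : ι) :
    ∃ (E : (ι → ℤ) → ℤ) (k : ℤ) (E' : (ι → ℤ) → ℤ) (k' : ℤ),
      IsAff E ∧ IsAff E' ∧ (∀ f ∈ C₀, E f = f z) ∧ (∀ f ∈ C₁, E f = k) ∧
      (∀ f ∈ C₁, E' f = f z) ∧ (∀ f ∈ C₀, E' f = k') := by
  by_cases hz : r ≤ ρ z
  · obtain ⟨u₀, hu₀⟩ := H.hn0
    refine H.exists_ext_high (ρ z + 1).toNat z hz ?_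
    intro u hu
    have h1 := (H.hA u (H.sub0 u hu)).1 z
    have h2 := H.hρ0 z
    omega
  · by_cases h0 : ∀ u ∈ C₀, u z = 0
    · exact ⟨fun _ => 0, 0, fun f => f z, 0, IsAff.const _, IsAff.coord z,
        fun f hf => (h0 f hf).symm, fun _ _ => rfl, fun _ _ => rfl, h0⟩
    · obtain ⟨u₁, hu₁, hne⟩ : ∃ u₁ ∈ C₀, u₁ z ≠ 0 := by
        by_contra hcon
        apply h0
        intro u hu
        by_contra h
        exact hcon ⟨u, hu, h⟩
      have hc : ∀ v ∈ C₁, v z = ρ z + 1 := by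
        intro v hv
        have P := H.pair hu₁ hv
        have h1 := P.clip z
        have h2 := P.hv.1 z
        have h3 := P.hu.1 z
        omega
      exact ⟨fun f => f z, ρ z + 1, fun _ => ρ z + 1, ρ z + 1, IsAff.coord z, IsAff.const _,
          fun _ _ => rfl, hc, fun f hf => (hc f hf).symm, fun _ _ => rfl⟩

end Split

/-- The core theorem: a pairwise optimal family is unimodular. -/
theorem core {ρ : ι → ℤ} {E : ι → ι → Prop} (hE : ∀ x y, E x y → ρ y = ρ x + 1)
    (hρ0 : ∀ z, 0 ≤ ρ z) {R : ℕ} (hR : ∀ z, ρ z ≤ R) :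
    ∀ C : Finset (ι → ℤ), (∀ f ∈ C, InA ρ E f) → (∀ f ∈ C, ∀ g ∈ C, LOpt ρ E R f g) →
      Uni C := by
  classical
  intro C
  induction C using Finset.strongInduction with
  | H C ih =>
  intro hA hL
  by_cases hmix : ∃ z, (∃ f ∈ C, f z = 0) ∧ (∃ g ∈ C, g z ≠ 0)
  · -- the mixed case
    let Mx : Finset ι := univ.filter (fun z => (∃ f ∈ C, f z = 0) ∧ (∃ g ∈ C, g z ≠ 0))
    have hMx : ∀ z, z ∈ Mx ↔ (∃ f ∈ C, f z = 0) ∧ (∃ g ∈ C, g z ≠ 0) := by
      intro z; simp [Mx]
    have hMxn : Mx.Nonempty := by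
      obtain ⟨z, hz⟩ := hmix
      exact ⟨z, (hMx z).2 hz⟩
    obtain ⟨z₀, hz₀, hz₀max⟩ := Mx.exists_max_image ρ hMxn
    have hun : ∀ z, ρ z₀ < ρ z → ∀ f ∈ C, ∀ g ∈ C, (f z = 0 ↔ g z = 0) := by
      intro z hz f hf g hg
      have hz' : z ∉ Mx := fun h => by have := hz₀max z h; omega
      rw [hMx] at hz'
      constructor
      · intro h
        by_contra hcon
        exact hz' ⟨⟨f, hf, h⟩, ⟨g, hg, hcon⟩⟩
      · intro h
        by_contra hcon
        exact hz' ⟨⟨g, hg, h⟩, ⟨f, hf, hcon⟩⟩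
    let Mr : Finset ι := Mx.filter (fun z => ρ z = ρ z₀)
    have hMr : ∀ z, z ∈ Mr ↔ z ∈ Mx ∧ ρ z = ρ z₀ := by
      intro z; simp [Mr]
    obtain ⟨y, hy, hymax⟩ := Mr.exists_max_image (fun x => ∑ f ∈ C, (f x - ρ x))
      ⟨z₀, (hMr z₀).2 ⟨hz₀, rfl⟩⟩
    have hyr := ((hMr y).1 hy).2
    have hyM := (hMx y).1 ((hMr y).1 hy).1
    have H : Split ρ E R (ρ z₀) y C (C.filter (fun f => f y = 0))
        (C.filter (fun f => f y ≠ 0)) := by
      refine ⟨hE, hρ0, hR, hA, hL, hun, hyr, by simp, by simp, ?_, ?_, ?_⟩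
      · obtain ⟨f, hf, hf0⟩ := hyM.1
        exact ⟨f, by simp [hf, hf0]⟩
      · obtain ⟨f, hf, hf0⟩ := hyM.2
        exact ⟨f, by simp [hf, hf0]⟩
      · intro z hz h1 h2 f hf
        have hzM : z ∈ Mr := (hMr z).2 ⟨(hMx z).2 ⟨h1, h2⟩, hz⟩
        have := order_of_sum (ρ := ρ) (C := C) (x := z) (z := y)
          (fun u hu v hv => com_rank hE (hA u hu) (hA v hv) (hL u hu v hv) z y (by omega))
          (hymax z hzM) f hf
        omega
    obtain ⟨h, hh, hh0, hh1⟩ := H.exists_h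
    refine glue hh hh0 hh1 (fun z => H.exists_ext z) ?_ ?_ ?_
    · refine ih _ ?_ (fun f hf => hA f (H.sub0 f hf))
        (fun f hf g hg => hL f (H.sub0 f hf) g (H.sub0 g hg))
      obtain ⟨g, hg, hg0⟩ := hyM.2
      rw [Finset.filter_ssubset]
      exact ⟨g, hg, hg0⟩
    · refine ih _ ?_ (fun f hf => hA f (H.sub1 f hf))
        (fun f hf g hg => hL f (H.sub1 f hf) g (H.sub1 g hg))
      obtain ⟨g, hg, hg0⟩ := hyM.1
      rw [Finset.filter_ssubset]
      exact ⟨g, hg, fun h => h hg0⟩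
    · intro f hf
      by_cases hf0 : f y = 0
      · left; simp [hf, hf0]
      · right; simp [hf, hf0]
  · -- the unmixed case
    have hss : ∀ f ∈ C, ∀ g ∈ C, (∀ z, f z ≤ g z ∧ g z ≤ f z + 1) ∨
        (∀ z, g z ≤ f z ∧ f z ≤ g z + 1) := by
      intro f hf g hg
      refine same_support hE (hA f hf) (hA g hg) (hL f hf g hg) ?_
      intro z
      constructor
      · intro h
        by_contra hcon
        exact hmix ⟨z, ⟨f, hf, h⟩, ⟨g, hg, hcon⟩⟩
      · intro h
        by_contra hcon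
        exact hmix ⟨z, ⟨g, hg, h⟩, ⟨f, hf, hcon⟩⟩
    by_cases hsub : ∃ u ∈ C, ∃ v ∈ C, ∃ z, u z < v z
    · obtain ⟨u, hu, v, hv, z, huv⟩ := hsub
      have hv1 : v z = u z + 1 := by
        rcases hss u hu v hv with h | h
        · have := h z; omega
        · have := h z; omega
      have hval : ∀ f ∈ C, f z = u z ∨ f z = v z := by
        intro f hf
        have h1 : (f z ≤ u z + 1 ∧ u z ≤ f z + 1) := by
          rcases hss u hu f hf with h | h <;> have := h z <;> omega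
        have h2 : (f z ≤ v z + 1 ∧ v z ≤ f z + 1) := by
          rcases hss v hv f hf with h | h <;> have := h z <;> omega
        omega
      have hord : ∀ f ∈ C, f z = u z → ∀ g ∈ C, g z = v z → ∀ w, f w ≤ g w ∧ g w ≤ f w + 1 := by
        intro f hf hfz g hg hgz
        rcases hss f hf g hg with h | h
        · exact h
        · exfalso
          have := h z
          omega
      refine glue (C₀ := C.filter (fun f => f z = u z)) (C₁ := C.filter (fun f => f z = v z))
        (h := fun f => f z - u z) ((IsAff.coord z).sub (IsAff.const _)) ?_ ?_ ?_ ?_ ?_ ?_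
      · intro f hf
        have := (Finset.mem_filter.1 hf).2
        show f z - u z = 0
        omega
      · intro f hf
        have := (Finset.mem_filter.1 hf).2
        show f z - u z = 1
        omega
      · intro w
        by_cases hc : ∀ f ∈ C.filter (fun f => f z = u z), f w = u w
        · exact ⟨fun _ => u w, u w, fun f => f w, u w, IsAff.const _, IsAff.coord w,
            fun f hf => (hc f hf).symm, fun _ _ => rfl, fun _ _ => rfl, hc⟩
        · obtain ⟨f₁, hf₁, hne⟩ : ∃ f₁ ∈ C.filter (fun f => f z = u z), f₁ w ≠ u w := by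
            by_contra hcon
            apply hc
            intro f hf
            by_contra h
            exact hcon ⟨f, hf, h⟩
          obtain ⟨hf₁C, hf₁z⟩ := Finset.mem_filter.1 hf₁
          have hc1 : ∀ g ∈ C.filter (fun f => f z = v z), g w = max (u w) (f₁ w) := by
            intro g hg
            obtain ⟨hgC, hgz⟩ := Finset.mem_filter.1 hg
            have h1 := hord u hu rfl g hgC hgz w
            have h2 := hord f₁ hf₁C hf₁z g hgC hgz w
            omega
          exact ⟨fun f => f w, max (u w) (f₁ w), fun _ => max (u w) (f₁ w), max (u w) (f₁ w),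
            IsAff.coord w, IsAff.const _, fun _ _ => rfl, hc1, fun f hf => (hc1 f hf).symm,
            fun _ _ => rfl⟩
      · refine ih _ ?_ (fun f hf => hA f (Finset.mem_filter.1 hf).1)
          (fun f hf g hg => hL f (Finset.mem_filter.1 hf).1 g (Finset.mem_filter.1 hg).1)
        rw [Finset.filter_ssubset]
        exact ⟨v, hv, by omega⟩
      · refine ih _ ?_ (fun f hf => hA f (Finset.mem_filter.1 hf).1)
          (fun f hf g hg => hL f (Finset.mem_filter.1 hf).1 g (Finset.mem_filter.1 hg).1)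
        rw [Finset.filter_ssubset]
        exact ⟨u, hu, by omega⟩
      · intro f hf
        rcases hval f hf with h | h
        · left; simp [hf, h]
        · right; simp [hf, h]
    · -- at most one element
      intro φ
      rcases C.eq_empty_or_nonempty with hCe | ⟨c, hc⟩
      · exact ⟨fun _ => 0, IsAff.const _, by simp [hCe]⟩
      · refine ⟨fun _ => φ c, IsAff.const _, ?_⟩
        intro f hf
        have : f = c := by
          funext z
          by_contra hne
          rcases lt_or_gt_of_ne hne with h | h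
          · exact hsub ⟨f, hf, c, hc, z, h⟩
          · exact hsub ⟨c, hc, f, hf, z, h⟩
        rw [this]

end Pool.Agent.Helper489.LHCore
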