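import Pool.Agent.Helper489.LHCore3

namespace Pool.Agent.Helper489.LHCore

open Finset

set_option linter.unusedVariables false
set_option linter.unusedSectionVars false
set_option linter.unusedSimpArgs false

variable {ι : Type*} [Fintype ι]

/-- The finite set of lattice points. -/
lemma exists_finset (ρ : ι → ℤ) (E : ι → ι → Prop) :
    ∃ A : Finset (ι → ℤ), ∀ f, f ∈ A ↔ InA ρ E f := by
  classical
  refine ⟨(Fintype.piFinset (fun z => Finset.Icc 0 (ρ z + 1))).filter (fun f => InA ρ E f), ?_⟩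
  intro f
  rw [Finset.mem_filter, Fintype.mem_piFinset]
  constructor
  · exact fun h => h.2
  · intro h
    refine ⟨fun z => ?_, h⟩
    rw [Finset.mem_Icc]
    exact h.1 z

/-- The combined weight with base `B` of the first `k` levels. -/
def Om (ρ : ι → ℤ) (R : ℕ) (B : ℤ) : ℕ → (ι → ℤ) → ℤ
  | 0, _ => 0
  | k + 1, f => Om ρ R B k f * B + lev ρ R k f

lemma D_Om_succ (ρ : ι → ℤ) (R : ℕ) (B : ℤ) (k : ℕ) (u v u' v' : ι → ℤ) :
    D (Om ρ R B (k + 1)) u v u' v' = D (Om ρ R B k) u v u' v' * B + D (lev ρ R k) u v u' v' := by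
  simp only [D, Om]; ring

lemma D_Om_nonpos {ρ : ι → ℤ} {R : ℕ} {B : ℤ} (hB : 0 ≤ B) {u v u' v' : ι → ℤ} :
    ∀ k, (∀ j, j < k → D (lev ρ R j) u v u' v' ≤ 0) → D (Om ρ R B k) u v u' v' ≤ 0 := by
  intro k
  induction k with
  | zero => intro _; simp [D, Om]
  | succ k ih =>
    intro h
    rw [D_Om_succ]
    have h1 := ih (fun j hj => h j (by omega))
    have h2 := h k (by omega)
    nlinarith

lemma D_Om_neg {ρ : ι → ℤ} {R : ℕ} {B : ℤ} (hB : 0 ≤ B) {u v u' v' : ι → ℤ} {i : ℕ}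
    (hi : ∀ j, j < i → D (lev ρ R j) u v u' v' ≤ 0) (hi' : D (lev ρ R i) u v u' v' < 0) :
    ∀ k, i < k → (∀ j, j < k → D (lev ρ R j) u v u' v' < B) →
      D (Om ρ R B k) u v u' v' < 0 := by
  intro k
  induction k with
  | zero => intro h; omega
  | succ k ih =>
    intro hk hb
    rw [D_Om_succ]
    rcases Nat.lt_or_ge i k with h | h
    · have h1 := ih h (fun j hj => hb j (by omega))
      have h2 := hb k (by omega)
      nlinarith
    · have : k = i := by omega
      subst this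
      have h1 := D_Om_nonpos (R := R) hB k hi
      nlinarith

/-- The weight function realising the lexicographic order. -/
theorem exists_weight {ρ : ι → ℤ} {E : ι → ι → Prop} (R : ℕ) :
    ∃ ω : (ι → ℤ) → ℤ, ∀ u v, InA ρ E u → InA ρ E v →
      (∀ u' v', InA ρ E u' → InA ρ E v' → (∀ z, u' z + v' z = u z + v z) →
        ω u + ω v ≤ ω u' + ω v') → LOpt ρ E R u v := by
  classical
  obtain ⟨A, hA⟩ := exists_finset ρ E
  let M : ℤ := ∑ j ∈ Finset.range (3 * R + 5), ∑ f ∈ A, |lev ρ R j f|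
  have hM : ∀ j, j < 3 * R + 5 → ∀ f, InA ρ E f → |lev ρ R j f| ≤ M := by
    intro j hj f hf
    have h1 : |lev ρ R j f| ≤ ∑ f ∈ A, |lev ρ R j f| :=
      Finset.single_le_sum (f := fun f => |lev ρ R j f|) (fun _ _ => abs_nonneg _) ((hA f).2 hf)
    have h2 : ∑ f ∈ A, |lev ρ R j f| ≤ M :=
      Finset.single_le_sum (f := fun j => ∑ f ∈ A, |lev ρ R j f|)
        (fun _ _ => Finset.sum_nonneg (fun _ _ => abs_nonneg _)) (Finset.mem_range.2 hj)
    exact h1.trans h2
  have hM0 : 0 ≤ M := Finset.sum_nonneg (fun _ _ => Finset.sum_nonneg (fun _ _ => abs_nonneg _))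
  refine ⟨Om ρ R (4 * M + 1) (3 * R + 5), ?_⟩
  intro u v hu hv hopt u' v' hu' hv' hs i hi hlow
  by_contra hcon
  have h1 := D_Om_neg (ρ := ρ) (R := R) (B := 4 * M + 1) (by omega) hlow (by omega)
    (3 * R + 5) hi (by
      intro j hj
      have a1 := abs_le.1 (hM j hj u hu)
      have a2 := abs_le.1 (hM j hj v hv)
      have a3 := abs_le.1 (hM j hj u' hu')
      have a4 := abs_le.1 (hM j hj v' hv')
      simp only [D]
      omega)
  have h2 := hopt u' v' hu' hv' hs
  simp only [D] at h1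
  omega

/-- The main combinatorial statement: there is a weight such that every pairwise optimal family
is unimodular. -/
theorem exists_weight_core {ρ : ι → ℤ} {E : ι → ι → Prop} (hE : ∀ x y, E x y → ρ y = ρ x + 1)
    (hρ0 : ∀ z, 0 ≤ ρ z) :
    ∃ ω : (ι → ℤ) → ℤ, ∀ C : Finset (ι → ℤ), (∀ f ∈ C, InA ρ E f) →
      (∀ u ∈ C, ∀ v ∈ C, ∀ u' v', InA ρ E u' → InA ρ E v' → (∀ z, u' z + v' z = u z + v z) →
        ω u + ω v ≤ ω u' + ω v') → Uni C := by
  classical
  obtain ⟨R, hR⟩ : ∃ R : ℕ, ∀ z, ρ z ≤ R := by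
    refine ⟨∑ z, (ρ z).toNat, fun z => ?_⟩
    have h1 : (ρ z).toNat ≤ ∑ z, (ρ z).toNat :=
      Finset.single_le_sum (f := fun z => (ρ z).toNat) (fun _ _ => Nat.zero_le _) (mem_univ z)
    have h2 := hρ0 z
    omega
  obtain ⟨ω, hω⟩ := exists_weight (ρ := ρ) (E := E) R
  refine ⟨ω, fun C hC hopt => ?_⟩
  exact core hE hρ0 hR C hC (fun f hf g hg => hω f g (hC f hf) (hC g hg) (hopt f hf g hg))

end Pool.Agent.Helper489.LHCore
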