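import Mathlib

/-!
A criterion for regular unimodular triangulations: lower faces of a lifted configuration.
-/

namespace Pool.Agent.Helper489.RUT

open Finset Geometry Topology

set_option linter.unusedVariables false
set_option linter.unusedSectionVars false
set_option linter.unusedSimpArgs false

variable {n : ℕ}

/-- Affine functionals on `ℝ^n`, given by their coefficients. -/
def ev (φ : (Fin n → ℝ) × ℝ) (x : Fin n → ℝ) : ℝ := ∑ i, φ.1 i * x i + φ.2

lemma ev_add (φ ψ : (Fin n → ℝ) × ℝ) (x : Fin n → ℝ) : ev (φ + ψ) x = ev φ x + ev ψ x := by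
  simp only [ev, Prod.fst_add, Prod.snd_add, Pi.add_apply, add_mul, Finset.sum_add_distrib]
  ring

lemma ev_smul (c : ℝ) (φ : (Fin n → ℝ) × ℝ) (x : Fin n → ℝ) : ev (c • φ) x = c * ev φ x := by
  simp only [ev, Prod.smul_fst, Prod.smul_snd, Pi.smul_apply, smul_eq_mul, mul_add,
    Finset.mul_sum, mul_assoc]

lemma ev_sub (φ ψ : (Fin n → ℝ) × ℝ) (x : Fin n → ℝ) : ev (φ - ψ) x = ev φ x - ev ψ x := by
  have : φ - ψ = φ + (-1 : ℝ) • ψ := by rw [neg_one_smul, sub_eq_add_neg]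
  rw [this, ev_add, ev_smul]; ring

lemma ev_sum {α : Type*} (s : Finset α) (φ : α → (Fin n → ℝ) × ℝ) (x : Fin n → ℝ) :
    ev (∑ a ∈ s, φ a) x = ∑ a ∈ s, ev (φ a) x := by
  classical
  induction s using Finset.induction_on with
  | empty => simp [ev]
  | insert a s ha ih => rw [Finset.sum_insert ha, Finset.sum_insert ha, ev_add, ih]

/-- Evaluation commutes with affine combinations. -/
lemma ev_comb {α : Type*} (s : Finset α) (w : α → ℝ) (p : α → (Fin n → ℝ)) (φ : (Fin n → ℝ) × ℝ) :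
    ∑ a ∈ s, w a * ev φ (p a) = ∑ i, φ.1 i * (∑ a ∈ s, w a • p a) i + φ.2 * ∑ a ∈ s, w a := by
  simp only [ev, mul_add, Finset.sum_add_distrib, Finset.sum_apply, Pi.smul_apply, smul_eq_mul]
  congr 1
  · simp only [Finset.mul_sum]
    rw [Finset.sum_comm]
    refine Finset.sum_congr rfl (fun i _ => Finset.sum_congr rfl (fun a _ => by ring))
  · rw [Finset.mul_sum]
    exact Finset.sum_congr rfl (fun a _ => by ring)

lemma ev_comb_one {α : Type*} (s : Finset α) (w : α → ℝ) (p : α → (Fin n → ℝ))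
    (φ : (Fin n → ℝ) × ℝ) (h : ∑ a ∈ s, w a = 1) :
    ev φ (∑ a ∈ s, w a • p a) = ∑ a ∈ s, w a * ev φ (p a) := by
  rw [ev_comb, h, mul_one]; rfl

/-- `σ` is a lower face of the configuration `A` lifted by `ω`. -/
def Low (A : Finset (Fin n → ℝ)) (ω : (Fin n → ℝ) → ℝ) (σ : Finset (Fin n → ℝ)) : Prop :=
  σ ⊆ A ∧ ∃ φ : (Fin n → ℝ) × ℝ, (∀ v ∈ σ, ev φ v = ω v) ∧ ∀ w ∈ A, w ∉ σ → ev φ w < ω w

/-- Dual functionals for the vertices of `σ`. -/
def Dual (σ : Finset (Fin n → ℝ)) : Prop :=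
  ∀ v ∈ σ, ∃ φ : (Fin n → ℝ) × ℝ, ev φ v = 1 ∧ ∀ w ∈ σ, w ≠ v → ev φ w = 0

lemma exists_eps {α : Type*} (s : Finset α) (g l : α → ℝ) (hg : ∀ a ∈ s, 0 < g a) :
    ∃ ε > (0 : ℝ), ∀ a ∈ s, ε * l a < g a := by
  have h : ∀ᶠ ε : ℝ in 𝓝[>] 0, ∀ a ∈ s, ε * l a < g a := by
    rw [Filter.eventually_all_finset]
    intro a ha
    have ht : Filter.Tendsto (fun ε : ℝ => ε * l a) (𝓝[>] 0) (𝓝 (0 * l a)) := by
      apply Filter.Tendsto.mono_left _ nhdsWithin_le_nhds
      exact (continuous_id.mul continuous_const).tendsto 0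
    rw [zero_mul] at ht
    exact ht.eventually_lt_const (hg a ha)
  have h2 : ∀ᶠ ε : ℝ in 𝓝[>] 0, 0 < ε := self_mem_nhdsWithin
  obtain ⟨ε, h3, h4⟩ := (h2.and h).exists
  exact ⟨ε, h3, h4⟩

lemma affineIndependent_of_dual {σ : Finset (Fin n → ℝ)} (h : Dual σ) :
    AffineIndependent ℝ ((↑) : σ → (Fin n → ℝ)) := by
  classical
  rw [affineIndependent_iff]
  intro s w hw0 hws e he
  obtain ⟨φ, h1, h2⟩ := h e.1 e.2
  have h3 := ev_comb s w (fun a : σ => (a : Fin n → ℝ)) φ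
  rw [hws, hw0] at h3
  simp only [Pi.zero_apply, mul_zero, Finset.sum_const_zero, add_zero] at h3
  rw [Finset.sum_eq_single e] at h3
  · rwa [h1, mul_one] at h3
  · intro b _ hb
    rw [h2 b.1 b.2 (fun h => hb (Subtype.ext h)), mul_zero]
  · intro h; exact absurd he h

lemma low_subset {A : Finset (Fin n → ℝ)} {ω : (Fin n → ℝ) → ℝ} {σ τ : Finset (Fin n → ℝ)}
    (hσ : Low A ω σ) (hd : Dual σ) (hτ : τ ⊆ σ) : Low A ω τ := by
  classical
  obtain ⟨hA, φ, h1, h2⟩ := hσ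
  choose! ψ hψ1 hψ2 using hd
  obtain ⟨ε, hε, hε2⟩ := exists_eps (A \ σ) (fun w => ω w - ev φ w)
    (fun w => - ev (∑ v ∈ σ \ τ, ψ v) w) (by
      intro a ha
      have := h2 a (Finset.mem_sdiff.1 ha).1 (Finset.mem_sdiff.1 ha).2
      linarith)
  refine ⟨hτ.trans hA, φ - ε • (∑ v ∈ σ \ τ, ψ v), ?_, ?_⟩
  · intro v hv
    rw [ev_sub, ev_smul, h1 v (hτ hv), ev_sum, Finset.sum_eq_zero]
    · simp
    · intro w hw
      have hw' := Finset.mem_sdiff.1 hw
      exact hψ2 w hw'.1 v (hτ hv) (fun h => hw'.2 (h ▸ hv))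
  · intro w hw hwτ
    rw [ev_sub, ev_smul]
    by_cases hwσ : w ∈ σ
    · rw [h1 w hwσ, ev_sum, Finset.sum_eq_single w]
      · rw [hψ1 w hwσ]; linarith
      · intro b hb hbw
        exact hψ2 b (Finset.mem_sdiff.1 hb).1 w hwσ (fun h => hbw h.symm)
      · intro h
        exact absurd (Finset.mem_sdiff.2 ⟨hwσ, hwτ⟩) h
    · have := hε2 w (Finset.mem_sdiff.2 ⟨hw, hwσ⟩)
      linarith

lemma low_inter {A : Finset (Fin n → ℝ)} {ω : (Fin n → ℝ) → ℝ} {σ τ : Finset (Fin n → ℝ)}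
    (hσ : Low A ω σ) (hτ : Low A ω τ) :
    convexHull ℝ (σ : Set (Fin n → ℝ)) ∩ convexHull ℝ (τ : Set (Fin n → ℝ)) ⊆
      convexHull ℝ ((σ : Set (Fin n → ℝ)) ∩ (τ : Set (Fin n → ℝ))) := by
  classical
  obtain ⟨hA, φ, h1, h2⟩ := hσ
  obtain ⟨hA', ψ, h1', h2'⟩ := hτ
  rintro p ⟨hp, hp'⟩
  rw [Finset.mem_convexHull'] at hp hp'
  obtain ⟨a, ha0, ha1, hap⟩ := hp
  obtain ⟨b, hb0, hb1, hbp⟩ := hp'
  have le1 : ∀ w ∈ A, ev φ w ≤ ω w := by
    intro w hw
    by_cases h : w ∈ σ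
    · exact (h1 w h).le
    · exact (h2 w hw h).le
  have le2 : ∀ w ∈ A, ev ψ w ≤ ω w := by
    intro w hw
    by_cases h : w ∈ τ
    · exact (h1' w h).le
    · exact (h2' w hw h).le
  have e1 : ev φ p = ∑ v ∈ σ, a v * ω v := by
    rw [← hap, ev_comb_one _ _ _ _ ha1]
    exact Finset.sum_congr rfl (fun v hv => by rw [h1 v hv])
  have e2 : ev ψ p = ∑ v ∈ τ, b v * ω v := by
    rw [← hbp, ev_comb_one _ _ _ _ hb1]
    exact Finset.sum_congr rfl (fun v hv => by rw [h1' v hv])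
  have e3 : ev φ p = ∑ v ∈ τ, b v * ev φ v := by
    rw [← hbp, ev_comb_one _ _ _ _ hb1]
  have e4 : ev ψ p = ∑ v ∈ σ, a v * ev ψ v := by
    rw [← hap, ev_comb_one _ _ _ _ ha1]
  have l1 : ev ψ p ≤ ev φ p := by
    rw [e4, e1]
    exact Finset.sum_le_sum (fun v hv => mul_le_mul_of_nonneg_left (le2 v (hA hv)) (ha0 v hv))
  have l2 : ∀ v ∈ τ, 0 ≤ b v * (ω v - ev φ v) := fun v hv =>
    mul_nonneg (hb0 v hv) (by have := le1 v (hA' hv); linarith)
  have l3 : ∑ v ∈ τ, b v * (ω v - ev φ v) = 0 := by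
    have l4 : ∑ v ∈ τ, b v * (ω v - ev φ v) = ev ψ p - ev φ p := by
      rw [e2, e3, ← Finset.sum_sub_distrib]
      exact Finset.sum_congr rfl (fun v _ => by ring)
    have := Finset.sum_nonneg l2
    linarith
  have l5 : ∀ v ∈ τ, v ∉ σ → b v = 0 := by
    intro v hv hvσ
    have := (Finset.sum_eq_zero_iff_of_nonneg l2).1 l3 v hv
    rcases mul_eq_zero.1 this with h | h
    · exact h
    · have := h2 v (hA' hv) hvσ
      linarith
  rw [← Finset.coe_inter, Finset.mem_convexHull']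
  refine ⟨b, fun v hv => hb0 v (Finset.mem_inter.1 hv).2, ?_, ?_⟩
  · rw [← hb1]
    apply Finset.sum_subset Finset.inter_subset_right
    intro v hv hv'
    exact l5 v hv (fun h => hv' (Finset.mem_inter.2 ⟨h, hv⟩))
  · rw [← hbp]
    apply Finset.sum_subset Finset.inter_subset_right
    intro v hv hv'
    rw [l5 v hv (fun h => hv' (Finset.mem_inter.2 ⟨h, hv⟩)), zero_smul]

/-- The evaluation map at the points of `A`. -/
def evMap (A : Finset (Fin n → ℝ)) : ((Fin n → ℝ) × ℝ) →ₗ[ℝ] (A → ℝ) where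
  toFun φ a := ev φ a
  map_add' φ ψ := by funext a; exact ev_add φ ψ a
  map_smul' c φ := by funext a; exact ev_smul c φ a

lemma continuous_ev (x : Fin n → ℝ) : Continuous (fun φ : (Fin n → ℝ) × ℝ => ev φ x) := by
  unfold ev
  fun_prop

/-- Points with all barycentric coordinates positive are covered. -/
lemma cover_pos {A : Finset (Fin n → ℝ)} {ω : (Fin n → ℝ) → ℝ}
    (hsep : ∀ φ : (Fin n → ℝ) × ℝ, (∀ a ∈ A, ev φ a = 0) → φ = 0)
    {l : (Fin n → ℝ) → ℝ} (hl : ∀ a ∈ A, 0 < l a) (hl1 : ∑ a ∈ A, l a = 1) :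
    ∃ σ, Low A ω σ ∧ (∑ a ∈ A, l a • a) ∈ convexHull ℝ (σ : Set (Fin n → ℝ)) := by
  classical
  set q := ∑ a ∈ A, l a • a with hq
  have hevq : ∀ φ, ev φ q = ∑ a ∈ A, l a * ev φ a := fun φ => ev_comb_one A l id φ hl1
  -- a feasible functional
  let c₀ : ℝ := - ∑ a ∈ A, |ω a|
  let φ₀ : (Fin n → ℝ) × ℝ := (0, c₀)
  have hφ₀ : ∀ x, ev φ₀ x = c₀ := by intro x; simp [ev, φ₀]
  have hfeas : ∀ a ∈ A, ev φ₀ a ≤ ω a := by
    intro a ha
    rw [hφ₀]
    have h1 : |ω a| ≤ ∑ a ∈ A, |ω a| :=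
      Finset.single_le_sum (f := fun a => |ω a|) (fun _ _ => abs_nonneg _) ha
    have h2 := neg_abs_le (ω a)
    simp only [c₀]
    linarith
  let S : Set ((Fin n → ℝ) × ℝ) := {φ | (∀ a ∈ A, ev φ a ≤ ω a) ∧ c₀ ≤ ev φ q}
  have hSne : S.Nonempty := ⟨φ₀, hfeas, (hφ₀ q).ge⟩
  have hSclosed : IsClosed S := by
    have h1 : IsClosed {φ : (Fin n → ℝ) × ℝ | ∀ a ∈ A, ev φ a ≤ ω a} := by
      have : {φ : (Fin n → ℝ) × ℝ | ∀ a ∈ A, ev φ a ≤ ω a} =
          ⋂ a ∈ A, {φ : (Fin n → ℝ) × ℝ | ev φ a ≤ ω a} := by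
        ext φ; simp
      rw [this]
      exact isClosed_biInter (fun a _ => isClosed_le (continuous_ev a) continuous_const)
    exact h1.inter (isClosed_le continuous_const (continuous_ev q))
  have hker : LinearMap.ker (evMap A) = ⊥ := by
    rw [LinearMap.ker_eq_bot']
    intro φ hφ
    apply hsep
    intro a ha
    exact congrFun hφ ⟨a, ha⟩
  have hScomp : IsCompact S := by
    let M : ℝ := ∑ a ∈ A, l a * ω a - c₀
    have hbox : IsCompact (Set.pi Set.univ (fun a : A => Set.Icc (ω a - M / l a) (ω a))) :=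
      isCompact_univ_pi (fun a => isCompact_Icc)
    have hpre := (LinearMap.isClosedEmbedding_of_injective hker).isCompact_preimage hbox
    refine hpre.of_isClosed_subset hSclosed ?_
    rintro φ ⟨h1, h2⟩
    rw [Set.mem_preimage, Set.mem_univ_pi]
    rintro ⟨a, ha⟩
    refine ⟨?_, h1 a ha⟩
    show ω a - M / l a ≤ ev φ a
    have h3 : l a * (ω a - ev φ a) ≤ ∑ a ∈ A, l a * (ω a - ev φ a) :=
      Finset.single_le_sum (f := fun a => l a * (ω a - ev φ a))
        (fun b hb => mul_nonneg (hl b hb).le (by have := h1 b hb; linarith)) ha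
    have h4 : ∑ a ∈ A, l a * (ω a - ev φ a) = ∑ a ∈ A, l a * ω a - ev φ q := by
      rw [hevq, ← Finset.sum_sub_distrib]
      exact Finset.sum_congr rfl (fun b _ => by ring)
    have h5 : l a * (ω a - ev φ a) ≤ M := by
      rw [h4] at h3
      simp only [M]
      linarith
    have h6 : ω a - ev φ a ≤ M / l a := by
      rw [le_div_iff₀ (hl a ha)]
      linarith
    linarith
  obtain ⟨φ, hφS, hφmax⟩ := hScomp.exists_isMaxOn hSne (continuous_ev q).continuousOn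
  have hmax : ∀ ψ ∈ S, ev ψ q ≤ ev φ q := fun ψ hψ => hφmax hψ
  refine ⟨A.filter (fun a => ev φ a = ω a), ⟨Finset.filter_subset _ _, φ, ?_, ?_⟩, ?_⟩
  · intro v hv
    exact (Finset.mem_filter.1 hv).2
  · intro w hw hw'
    have h1 := hφS.1 w hw
    have h2 : ev φ w ≠ ω w := fun h => hw' (Finset.mem_filter.2 ⟨hw, h⟩)
    exact lt_of_le_of_ne h1 h2
  · by_contra hcon
    obtain ⟨f, u, hfu, huq⟩ := geometric_hahn_banach_closed_point (convex_convexHull ℝ _)
      ((Finset.finite_toSet (A.filter (fun a => ev φ a = ω a))).isClosed_convexHull (𝕜 := ℝ)) hcon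
    let ψ : (Fin n → ℝ) × ℝ := (fun i => f (Pi.single i 1), -u)
    have hψ : ∀ x, ev ψ x = f x - u := by
      intro x
      have h1 : f x = ∑ i, x i * f (Pi.single i 1) := by
        have h0 : x = ∑ i, x i • (Pi.single i (1 : ℝ) : Fin n → ℝ) := by
          funext j
          simp [Finset.sum_apply, Pi.single_apply]
        conv_lhs => rw [h0]
        rw [map_sum]
        exact Finset.sum_congr rfl (fun i _ => by rw [map_smul, smul_eq_mul])
      simp only [ev, ψ]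
      rw [h1, sub_eq_add_neg]
      congr 1
      exact Finset.sum_congr rfl (fun i _ => by ring)
    obtain ⟨ε, hε, hε2⟩ := exists_eps (A.filter (fun a => ¬ ev φ a = ω a))
      (fun a => ω a - ev φ a) (fun a => f a - u) (by
        intro a ha
        obtain ⟨h1, h2⟩ := Finset.mem_filter.1 ha
        have := lt_of_le_of_ne (hφS.1 a h1) h2
        linarith)
    have hnew : φ + ε • ψ ∈ S := by
      constructor
      · intro a ha
        rw [ev_add, ev_smul, hψ]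
        by_cases h : ev φ a = ω a
        · have h1 := hfu a (subset_convexHull ℝ _ (by
            rw [Finset.mem_coe, Finset.mem_filter]; exact ⟨ha, h⟩))
          have h2 : ε * (f a - u) ≤ 0 := mul_nonpos_of_nonneg_of_nonpos hε.le (by linarith)
          linarith
        · have := hε2 a (Finset.mem_filter.2 ⟨ha, h⟩)
          linarith
      · rw [ev_add, ev_smul, hψ]
        have h1 := hφS.2
        have h2 : 0 < ε * (f q - u) := mul_pos hε (by linarith)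
        linarith
    have h1 := hmax _ hnew
    rw [ev_add, ev_smul, hψ] at h1
    have h2 : 0 < ε * (f q - u) := mul_pos hε (by linarith)
    linarith

/-- The lower faces cover the convex hull. -/
lemma cover {A : Finset (Fin n → ℝ)} {ω : (Fin n → ℝ) → ℝ}
    (hsep : ∀ φ : (Fin n → ℝ) × ℝ, (∀ a ∈ A, ev φ a = 0) → φ = 0)
    {p : Fin n → ℝ} (hp : p ∈ convexHull ℝ (A : Set (Fin n → ℝ))) :
    ∃ σ, Low A ω σ ∧ p ∈ convexHull ℝ (σ : Set (Fin n → ℝ)) := by
  classical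
  have hAne : A.Nonempty := by
    rw [← Finset.coe_nonempty]
    exact convexHull_nonempty_iff.1 ⟨p, hp⟩
  rw [Finset.mem_convexHull'] at hp
  obtain ⟨w, hw0, hw1, hwp⟩ := hp
  have hcard : (0 : ℝ) < A.card := by exact_mod_cast hAne.card_pos
  let U : Set (Fin n → ℝ) := ⋃ σ ∈ {σ | Low A ω σ}, convexHull ℝ (σ : Set (Fin n → ℝ))
  have hfin : {σ | Low A ω σ}.Finite :=
    (A.powerset.finite_toSet).subset (fun σ hσ => by
      rw [Finset.mem_coe, Finset.mem_powerset]; exact hσ.1)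
  have hUc : IsClosed U := hfin.isClosed_biUnion
    (fun σ _ => σ.finite_toSet.isClosed_convexHull (𝕜 := ℝ))
  let g : ℝ → (Fin n → ℝ) := fun t => ∑ a ∈ A, ((1 - t) * w a + t * (1 / A.card)) • a
  have hg0 : g 0 = p := by
    simp only [g]
    rw [← hwp]
    exact Finset.sum_congr rfl (fun a _ => by simp)
  have hgc : Continuous g := by
    simp only [g]
    fun_prop
  have hgU : ∀ᶠ t : ℝ in 𝓝[>] 0, g t ∈ U := by
    have h1 : ∀ᶠ t : ℝ in 𝓝[>] 0, 0 < t := self_mem_nhdsWithin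
    have h2 : ∀ᶠ t : ℝ in 𝓝[>] 0, t < 1 :=
      (eventually_lt_nhds (zero_lt_one' ℝ)).filter_mono nhdsWithin_le_nhds
    filter_upwards [h1, h2] with t ht0 ht1
    obtain ⟨σ, hσ, hmem⟩ := cover_pos (ω := ω) hsep
      (l := fun a => (1 - t) * w a + t * (1 / A.card)) (by
        intro a ha
        have h3 : 0 ≤ (1 - t) * w a := mul_nonneg (by linarith) (hw0 a ha)
        have h4 : 0 < t * (1 / A.card) := by positivity
        linarith) (by
        rw [Finset.sum_add_distrib, ← Finset.mul_sum, hw1, Finset.sum_const, nsmul_eq_mul]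
        field_simp
        ring)
    exact Set.mem_biUnion (show σ ∈ {σ | Low A ω σ} from hσ) hmem
  have hlim : Filter.Tendsto g (𝓝[>] 0) (𝓝 p) := by
    rw [← hg0]
    exact (hgc.tendsto 0).mono_left nhdsWithin_le_nhds
  have hpU : p ∈ U := hUc.mem_of_tendsto hlim hgU
  obtain ⟨σ, hσ, hmem⟩ := Set.mem_iUnion₂.1 hpU
  exact ⟨σ, hσ, hmem⟩

lemma card_le_of_dual {σ : Finset (Fin n → ℝ)} (h : Dual σ) : σ.card ≤ n + 1 := by
  have h1 := (affineIndependent_of_dual h).card_le_finrank_succ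
  rw [Fintype.card_coe] at h1
  have h2 : Module.finrank ℝ (vectorSpan ℝ (Set.range ((↑) : σ → (Fin n → ℝ)))) ≤
      Module.finrank ℝ (Fin n → ℝ) := Submodule.finrank_le _
  rw [Module.finrank_fin_fun] at h2
  omega

/-- A lower face with at most `n` vertices is not maximal. -/
lemma exists_larger {A : Finset (Fin n → ℝ)} {ω : (Fin n → ℝ) → ℝ}
    (hsep : ∀ φ : (Fin n → ℝ) × ℝ, (∀ a ∈ A, ev φ a = 0) → φ = 0)
    {σ : Finset (Fin n → ℝ)} (hσ : Low A ω σ) (hcard : σ.card ≤ n) :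
    ∃ τ, Low A ω τ ∧ σ ⊂ τ := by
  classical
  obtain ⟨hA, φ, h1, h2⟩ := hσ
  have le1 : ∀ w ∈ A, ev φ w ≤ ω w := by
    intro w hw
    by_cases h : w ∈ σ
    · exact (h1 w h).le
    · exact (h2 w hw h).le
  have hker : LinearMap.ker (evMap σ) ≠ ⊥ := by
    apply LinearMap.ker_ne_bot_of_finrank_lt
    simp only [Module.finrank_prod, Module.finrank_fin_fun, Module.finrank_self,
      Module.finrank_fintype_fun_eq_card, Fintype.card_coe, Fintype.card_fin]
    omega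
  obtain ⟨ψ₀, hψ₀k, hψ₀⟩ := Submodule.exists_mem_ne_zero_of_ne_bot hker
  have hψ₀z : ∀ v ∈ σ, ev ψ₀ v = 0 := fun v hv => congrFun (LinearMap.mem_ker.1 hψ₀k) ⟨v, hv⟩
  have hex : ∃ a ∈ A, ev ψ₀ a ≠ 0 := by
    by_contra hcon
    apply hψ₀
    apply hsep
    intro a ha
    by_contra h
    exact hcon ⟨a, ha, h⟩
  obtain ⟨ψ, hψz, a₀, ha₀, hpos₀⟩ : ∃ ψ : (Fin n → ℝ) × ℝ, (∀ v ∈ σ, ev ψ v = 0) ∧
      ∃ a ∈ A, 0 < ev ψ a := by
    obtain ⟨a, ha, hne⟩ := hex
    rcases lt_or_gt_of_ne hne with h | h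
    · refine ⟨(-1 : ℝ) • ψ₀, fun v hv => by rw [ev_smul, hψ₀z v hv, mul_zero], a, ha, ?_⟩
      rw [ev_smul]; linarith
    · exact ⟨ψ₀, hψ₀z, a, ha, h⟩
  obtain ⟨b, hb, hbmin⟩ := (A.filter (fun a => 0 < ev ψ a)).exists_min_image
    (fun a => (ω a - ev φ a) / ev ψ a) ⟨a₀, Finset.mem_filter.2 ⟨ha₀, hpos₀⟩⟩
  obtain ⟨hbA, hbpos⟩ := Finset.mem_filter.1 hb
  set t := (ω b - ev φ b) / ev ψ b with ht
  have hbσ : b ∉ σ := fun h => by rw [hψz b h] at hbpos; exact lt_irrefl _ hbpos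
  have ht0 : 0 ≤ t := div_nonneg (by have := le1 b hbA; linarith) hbpos.le
  have le2 : ∀ a ∈ A, ev (φ + t • ψ) a ≤ ω a := by
    intro a ha
    rw [ev_add, ev_smul]
    by_cases hpos : 0 < ev ψ a
    · have h3 := hbmin a (Finset.mem_filter.2 ⟨ha, hpos⟩)
      rw [le_div_iff₀ hpos] at h3
      linarith
    · have h3 : t * ev ψ a ≤ 0 := mul_nonpos_of_nonneg_of_nonpos ht0 (not_lt.1 hpos)
      have := le1 a ha
      linarith
  refine ⟨A.filter (fun a => ev (φ + t • ψ) a = ω a), ⟨Finset.filter_subset _ _,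
    φ + t • ψ, fun v hv => (Finset.mem_filter.1 hv).2, ?_⟩, ?_⟩
  · intro w hw hw'
    exact lt_of_le_of_ne (le2 w hw) (fun h => hw' (Finset.mem_filter.2 ⟨hw, h⟩))
  · rw [Finset.ssubset_iff_of_subset]
    · refine ⟨b, Finset.mem_filter.2 ⟨hbA, ?_⟩, hbσ⟩
      rw [ev_add, ev_smul, ht, div_mul_cancel₀ _ hbpos.ne']
      ring
    · intro v hv
      refine Finset.mem_filter.2 ⟨hA hv, ?_⟩
      rw [ev_add, ev_smul, hψz v hv, h1 v hv]
      ring

/-- The triangulation by lower faces. -/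
theorem exists_complex (A : Finset (Fin n → ℝ)) (ω : (Fin n → ℝ) → ℝ)
    (hsep : ∀ φ : (Fin n → ℝ) × ℝ, (∀ a ∈ A, ev φ a = 0) → φ = 0)
    (hd : ∀ σ, Low A ω σ → Dual σ) :
    ∃ K : SimplicialComplex ℝ (Fin n → ℝ),
      (∀ σ, σ ∈ K.faces ↔ σ.Nonempty ∧ Low A ω σ) ∧
      K.space = convexHull ℝ (A : Set (Fin n → ℝ)) ∧
      ∀ σ ∈ K.facets, σ.card = n + 1 := by
  classical
  let K : SimplicialComplex ℝ (Fin n → ℝ) :=
    { faces := {σ | σ.Nonempty ∧ Low A ω σ}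
      isRelLowerSet_faces := by
        intro σ hσ
        refine ⟨hσ.1, ?_⟩
        intro τ hτ hne
        exact ⟨hne, low_subset hσ.2 (hd σ hσ.2) hτ⟩
      indep := fun {σ} hσ => affineIndependent_of_dual (hd σ hσ.2)
      inter_subset_convexHull := fun {σ τ} hσ hτ => low_inter hσ.2 hτ.2 }
  have hK : ∀ σ, σ ∈ K.faces ↔ σ.Nonempty ∧ Low A ω σ := fun σ => Iff.rfl
  refine ⟨K, hK, ?_, ?_⟩
  · apply Set.Subset.antisymm
    · intro x hx
      obtain ⟨σ, hσ, hx⟩ := SimplicialComplex.mem_space_iff.1 hx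
      exact convexHull_mono (Finset.coe_subset.2 ((hK σ).1 hσ).2.1) hx
    · intro x hx
      obtain ⟨σ, hσ, hx⟩ := cover (ω := ω) hsep hx
      refine SimplicialComplex.mem_space_iff.2 ⟨σ, (hK σ).2 ⟨?_, hσ⟩, hx⟩
      rw [← Finset.coe_nonempty]
      exact convexHull_nonempty_iff.1 ⟨x, hx⟩
  · intro σ hσ
    have h1 := (hK σ).1 hσ.1
    have h2 := card_le_of_dual (hd σ h1.2)
    by_contra hcon
    obtain ⟨τ, hτ, hστ⟩ := exists_larger hsep h1.2 (by omega)
    have h3 : σ = τ := hσ.2 ((hK τ).2 ⟨h1.1.mono hστ.1, hτ⟩) hστ.1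
    exact hστ.2 h3.ge

end Pool.Agent.Helper489.RUT
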