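import Pool.Agent.Helper489.SepDefs

set_option autoImplicit false

namespace Pool.Agent.Helper489.Sep


/-- TARGET: the edges in terms of vertices and linear functionals. -/
theorem adj_iff {d : ℕ} (P : Poly d) (u v : P.V) : P.graph.Adj u v ↔ u ≠ v ∧
    ∃ f : (Fin d → ℝ) →ₗ[ℝ] ℝ, f u = f v ∧ ∀ w ∈ P.V, w ≠ (u : Fin d → ℝ) → w ≠ (v : Fin d → ℝ) →
      f w < f u := by
  classical
  have hu : (u : Fin d → ℝ) ∈ convexHull ℝ (P.V : Set (Fin d → ℝ)) := subset_convexHull _ _ u.2
  have hv : (v : Fin d → ℝ) ∈ convexHull ℝ (P.V : Set (Fin d → ℝ)) := subset_convexHull _ _ v.2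
  constructor
  · rintro ⟨hne, hexp⟩
    refine ⟨hne, ?_⟩
    obtain ⟨l, hl⟩ := hexp ⟨(u : Fin d → ℝ), left_mem_segment _ _ _⟩
    have hu' : (u : Fin d → ℝ) ∈ segment ℝ (u : Fin d → ℝ) (v : Fin d → ℝ) := left_mem_segment _ _ _
    have hv' : (v : Fin d → ℝ) ∈ segment ℝ (u : Fin d → ℝ) (v : Fin d → ℝ) := right_mem_segment _ _ _
    rw [hl] at hu' hv'
    have huv : l (u : Fin d → ℝ) = l (v : Fin d → ℝ) := le_antisymm (hv'.2 _ hu) (hu'.2 _ hv)
    refine ⟨(l : (Fin d → ℝ) →ₗ[ℝ] ℝ), huv, ?_⟩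
    intro w hw hwu hwv
    by_contra hcon
    rw [not_lt] at hcon
    have hwm : w ∈ segment ℝ (u : Fin d → ℝ) (v : Fin d → ℝ) := by
      rw [hl]
      refine ⟨subset_convexHull _ _ hw, fun y hy => ?_⟩
      exact (hu'.2 y hy).trans hcon
    apply P.conv w hw
    rw [← convexHull_pair] at hwm
    refine convexHull_mono ?_ hwm
    rintro x (rfl | rfl)
    · exact ⟨u.2, fun h => hwu h.symm⟩
    · exact ⟨v.2, fun h => hwv h.symm⟩
  · rintro ⟨hne, f, hfuv, hf⟩
    refine ⟨hne, ?_⟩
    intro _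
    refine ⟨LinearMap.toContinuousLinearMap f, ?_⟩
    have hle : ∀ y ∈ convexHull ℝ (P.V : Set (Fin d → ℝ)), f y ≤ f u := by
      have hsub : convexHull ℝ (P.V : Set (Fin d → ℝ)) ⊆ {y | f y ≤ f u} := by
        apply convexHull_min
        · intro w hw
          by_cases h1 : w = (u : Fin d → ℝ)
          · show f w ≤ f u
            rw [h1]
          · by_cases h2 : w = (v : Fin d → ℝ)
            · show f w ≤ f u
              rw [h2, hfuv]
            · exact (hf w hw h1 h2).le
        · exact convex_halfSpace_le f.isLinear _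
      exact hsub
    ext x
    constructor
    · intro hx
      have hxc : x ∈ convexHull ℝ (P.V : Set (Fin d → ℝ)) :=
        (convex_convexHull ℝ _).segment_subset hu hv hx
      refine ⟨hxc, ?_⟩
      intro y hy
      have hfx : f x = f u := by
        obtain ⟨a, b, ha, hb, hab, rfl⟩ := hx
        rw [map_add, map_smul, map_smul, ← hfuv, ← add_smul, hab, one_smul]
      show f y ≤ f x
      rw [hfx]
      exact hle y hy
    · rintro ⟨hx, hmax⟩
      have hfx : f x = f u := le_antisymm (hle x hx) (hmax _ hu)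
      rw [Finset.mem_convexHull'] at hx
      obtain ⟨w, hw0, hw1, hwx⟩ := hx
      have hsum : ∑ y ∈ P.V, w y * (f u - f y) = 0 := by
        have e1 : ∑ y ∈ P.V, w y * (f u - f y) = (∑ y ∈ P.V, w y) * f u - ∑ y ∈ P.V, w y * f y := by
          rw [Finset.sum_mul, ← Finset.sum_sub_distrib]
          exact Finset.sum_congr rfl fun y _ => by ring
        have e2 : f x = ∑ y ∈ P.V, w y * f y := by
          rw [← hwx, map_sum]
          exact Finset.sum_congr rfl fun y _ => by rw [map_smul, smul_eq_mul]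
        rw [e1, hw1, ← e2, hfx]; ring
      have hzero : ∀ y ∈ P.V, w y * (f u - f y) = 0 := by
        refine (Finset.sum_eq_zero_iff_of_nonneg ?_).1 hsum
        intro y hy
        exact mul_nonneg (hw0 y hy) (sub_nonneg.2 (hle y (subset_convexHull _ _ hy)))
      have hw2 : ∀ y ∈ P.V, y ≠ (u : Fin d → ℝ) → y ≠ (v : Fin d → ℝ) → w y = 0 := by
        intro y hy h1 h2
        rcases mul_eq_zero.1 (hzero y hy) with h | h
        · exact h
        · exact absurd (hf y hy h1 h2) (by linarith)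
      have huv : (u : Fin d → ℝ) ≠ (v : Fin d → ℝ) := fun h => hne (Subtype.ext h)
      have hsub : ({(u : Fin d → ℝ), (v : Fin d → ℝ)} : Finset (Fin d → ℝ)) ⊆ P.V := by
        intro y hy
        rw [Finset.mem_insert, Finset.mem_singleton] at hy
        rcases hy with rfl | rfl
        · exact u.2
        · exact v.2
      have hnot : ∀ y ∈ P.V, y ∉ ({(u : Fin d → ℝ), (v : Fin d → ℝ)} : Finset (Fin d → ℝ)) → w y = 0 := by
        intro y hy hyn
        rw [Finset.mem_insert, Finset.mem_singleton, not_or] at hyn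
        exact hw2 y hy hyn.1 hyn.2
      have s1 : ∑ y ∈ P.V, w y = w u + w v := by
        rw [← Finset.sum_subset hsub hnot, Finset.sum_pair huv]
      have s2 : ∑ y ∈ P.V, w y • y = w u • (u : Fin d → ℝ) + w v • (v : Fin d → ℝ) := by
        rw [← Finset.sum_subset hsub, Finset.sum_pair huv]
        intro y hy hyn
        rw [hnot y hy hyn, zero_smul]
      rw [s1] at hw1
      rw [s2] at hwx
      exact ⟨w u, w v, hw0 _ u.2, hw0 _ v.2, hw1, hwx⟩

end Pool.Agent.Helper489.Sep
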