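import Pool.Agent.Helper489.SepUp

set_option autoImplicit false

namespace Pool.Agent.Helper489.Sep


/-- `x` and `y` are joined outside `S` -/
def RS {d : ℕ} (P : Poly d) (S : Finset P.V) (x y : P.V) : Prop :=
  ∃ w : P.graph.Walk x y, ∀ z ∈ w.support, z ∉ S

theorem RS.refl {d : ℕ} {P : Poly d} {S : Finset P.V} {x : P.V} (hx : x ∉ S) : RS P S x x :=
  ⟨SimpleGraph.Walk.nil, by intro z hz; simp at hz; subst hz; exact hx⟩

theorem RS.symm {d : ℕ} {P : Poly d} {S : Finset P.V} {x y : P.V} (h : RS P S x y) :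
    RS P S y x := by
  obtain ⟨w, hw⟩ := h
  exact ⟨w.reverse, by intro z hz; rw [SimpleGraph.Walk.support_reverse, List.mem_reverse] at hz; exact hw z hz⟩

theorem RS.trans {d : ℕ} {P : Poly d} {S : Finset P.V} {x y z : P.V} (h : RS P S x y)
    (h' : RS P S y z) : RS P S x z := by
  obtain ⟨w, hw⟩ := h
  obtain ⟨w', hw'⟩ := h'
  refine ⟨w.append w', fun u hu => ?_⟩
  rcases (SimpleGraph.Walk.mem_support_append_iff w w').1 hu with h | h
  · exact hw u h
  · exact hw' u h

theorem RS.cons {d : ℕ} {P : Poly d} {S : Finset P.V} {x y z : P.V} (hx : x ∉ S)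
    (h : P.graph.Adj x y) (h' : RS P S y z) : RS P S x z := by
  obtain ⟨w, hw⟩ := h'
  refine ⟨SimpleGraph.Walk.cons h w, fun u hu => ?_⟩
  rw [SimpleGraph.Walk.support_cons, List.mem_cons] at hu
  rcases hu with rfl | hu
  · exact hx
  · exact hw u hu

/-- going up to the maximiser of an injective functional -/
theorem RS_up {d : ℕ} (P : Poly d) (S : Finset P.V) (F : (Fin d → ℝ) →ₗ[ℝ] ℝ)
    (hinj : ∀ v w : P.V, F v = F w → v = w) (t : P.V) (ht : ∀ w : P.V, F w ≤ F t) :
    ∀ (n : ℕ) (y : P.V), (Finset.univ.filter (fun w : P.V => F y < F w)).card ≤ n →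
      (∀ s ∈ S, F s < F y) → RS P S y t := by
  intro n
  induction n with
  | zero =>
    intro y hy hS
    have hyt : y = t := by
      apply hinj
      apply le_antisymm (ht y)
      by_contra hlt
      push Not at hlt
      have h1 : t ∈ Finset.univ.filter (fun w : P.V => F y < F w) := by
        simp only [Finset.mem_filter, Finset.mem_univ, true_and]; exact hlt
      have h2 := Finset.card_pos.2 ⟨t, h1⟩
      omega
    subst hyt
    exact RS.refl (fun h => lt_irrefl _ (hS _ h))
  | succ n ih =>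
    intro y hy hS
    have hyS : y ∉ S := fun h => lt_irrefl _ (hS _ h)
    by_cases hyt : y = t
    · subst hyt; exact RS.refl hyS
    · have hlt : F y < F t := lt_of_le_of_ne (ht y) (fun h => hyt (hinj _ _ h))
      obtain ⟨u, hadj, hu⟩ := exists_up P F y ⟨t, t.2, hlt⟩
      refine RS.cons hyS hadj (ih u ?_ (fun s hs => (hS s hs).trans hu))
      have h1 : Finset.univ.filter (fun w : P.V => F u < F w) ⊂
          Finset.univ.filter (fun w : P.V => F y < F w) := by
        rw [Finset.ssubset_iff_of_subset]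
        · exact ⟨u, by simpa using hu, by simp⟩
        · intro w hw
          simp only [Finset.mem_filter, Finset.mem_univ, true_and] at hw ⊢
          exact hu.trans hw
      have h2 := Finset.card_lt_card h1
      omega

/-- perturbation to an injective functional -/
theorem exists_perturb {d : ℕ} (P : Poly d) (f : (Fin d → ℝ) →ₗ[ℝ] ℝ) :
    ∃ F : (Fin d → ℝ) →ₗ[ℝ] ℝ, (∀ v w : P.V, F v = F w → v = w) ∧
      ∀ v w : P.V, f v < f w → F v < F w := by
  classical
  obtain ⟨g, hg⟩ := exists_generic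
    ((Finset.univ.filter (fun p : P.V × P.V => p.1 ≠ p.2)).image
      (fun p => (p.1 : Fin d → ℝ) - (p.2 : Fin d → ℝ))) (by
    intro w hw
    simp only [Finset.mem_image, Finset.mem_filter, Finset.mem_univ, true_and] at hw
    obtain ⟨p, hp, rfl⟩ := hw
    intro h
    exact hp (Subtype.ext (sub_eq_zero.1 h)))
  have hg' : ∀ v w : P.V, v ≠ w → g v ≠ g w := by
    intro v w hvw h
    refine hg ((v : Fin d → ℝ) - (w : Fin d → ℝ)) ?_ ?_
    · simp only [Finset.mem_image, Finset.mem_filter, Finset.mem_univ, true_and]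
      exact ⟨(v, w), hvw, rfl⟩
    · rw [map_sub, h, sub_self]
  have hev : ∀ᶠ e : ℝ in nhdsWithin 0 (Set.Ioi 0), ∀ v w : P.V, f v < f w →
      e * (g v - g w) < f w - f v := by
    rw [Filter.eventually_all]
    intro v
    rw [Filter.eventually_all]
    intro w
    by_cases h : f v < f w
    · have h1 : Filter.Tendsto (fun e : ℝ => e * (g v - g w)) (nhds 0) (nhds 0) := by
        have : Continuous (fun e : ℝ => e * (g v - g w)) := by fun_prop
        simpa using this.tendsto 0
      have h2 : ∀ᶠ e : ℝ in nhds 0, e * (g v - g w) < f w - f v :=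
        h1.eventually (gt_mem_nhds (by linarith))
      filter_upwards [nhdsWithin_le_nhds h2] with e he _ using he
    · filter_upwards with e h' using absurd h' h
  obtain ⟨e, he, he0⟩ := (hev.and self_mem_nhdsWithin).exists
  have he0' : (0 : ℝ) < e := he0
  refine ⟨f + e • g, ?_, ?_⟩
  · intro v w h
    by_contra hvw
    simp only [LinearMap.add_apply, LinearMap.smul_apply, smul_eq_mul] at h
    rcases lt_trichotomy (f v) (f w) with h1 | h1 | h1
    · have := he v w h1
      nlinarith
    · rw [h1] at h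
      have h2 : e * g v = e * g w := by linarith
      exact hg' v w hvw (mul_left_cancel₀ he0'.ne' h2)
    · have := he w v h1
      nlinarith
  · intro v w h
    have := he v w h
    simp only [LinearMap.add_apply, LinearMap.smul_apply, smul_eq_mul]
    nlinarith

/-- all vertices above the level are joined to one vertex -/
theorem RS_top {d : ℕ} (P : Poly d) (S : Finset P.V) (f : (Fin d → ℝ) →ₗ[ℝ] ℝ) (c : ℝ)
    (hS : ∀ s ∈ S, f s = c) (hex : ∃ v : P.V, c < f v) :
    ∃ t : P.V, ∀ y : P.V, y ∉ S → c ≤ f y → RS P S y t := by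
  classical
  obtain ⟨F, hinj, hF⟩ := exists_perturb P f
  obtain ⟨v₀, hv₀⟩ := hex
  obtain ⟨t, _, ht⟩ := Finset.exists_max_image (Finset.univ : Finset P.V) (fun w => F w)
    ⟨v₀, Finset.mem_univ _⟩
  have key : ∀ y : P.V, c < f y → RS P S y t := by
    intro y hy
    refine RS_up P S F hinj t (fun w => ht w (Finset.mem_univ _)) _ y le_rfl (fun s hs => ?_)
    exact hF s y (by rw [hS s hs]; exact hy)
  refine ⟨t, fun y hyS hy => ?_⟩
  rcases hy.lt_or_eq with h | h
  · exact key y h
  · obtain ⟨u, hadj, hu⟩ := exists_up P f y ⟨v₀, v₀.2, by rw [← h]; exact hv₀⟩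
    exact RS.cons hyS hadj (key u (by rw [h]; exact hu))

/-- TARGET (Balinski): fewer than `d` vertices do not disconnect the graph. -/
theorem balinski {d : ℕ} (P : Poly d) (S : Finset P.V) (hS : S.card < d) (a b : P.V)
    (ha : a ∉ S) (hb : b ∉ S) : ∃ w : P.graph.Walk a b, ∀ x ∈ w.support, x ∉ S := by
  classical
  change RS P S a b
  let T : Finset P.V := insert a S
  have hT : T.card ≤ d := by
    have := Finset.card_insert_of_notMem ha
    simp only [T]
    omega
  let L : (Module.Dual ℝ (Fin d → ℝ) × ℝ) →ₗ[ℝ] (T → ℝ) :=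
    LinearMap.pi (fun s => (LinearMap.applyₗ (R := ℝ) (M₂ := ℝ) ((s : P.V) : Fin d → ℝ)).comp
      (LinearMap.fst ℝ (Module.Dual ℝ (Fin d → ℝ)) ℝ) -
        LinearMap.snd ℝ (Module.Dual ℝ (Fin d → ℝ)) ℝ)
  have hL : ∀ p s, L p s = p.1 ((s : P.V) : Fin d → ℝ) - p.2 := fun p s => rfl
  have hker : LinearMap.ker L ≠ ⊥ := by
    apply LinearMap.ker_ne_bot_of_finrank_lt
    rw [Module.finrank_prod, Subspace.dual_finrank_eq, Module.finrank_fin_fun,
      Module.finrank_self, Module.finrank_fintype_fun_eq_card, Fintype.card_coe]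
    omega
  obtain ⟨p, hp, hp0⟩ := (Submodule.ne_bot_iff _).1 hker
  have hpT : ∀ s ∈ T, p.1 ((s : P.V) : Fin d → ℝ) = p.2 := by
    intro s hs
    have h1 : L p ⟨s, hs⟩ = 0 := by
      rw [LinearMap.mem_ker.1 hp]; rfl
    rw [hL] at h1
    exact sub_eq_zero.1 h1
  have hpS : ∀ s ∈ S, p.1 ((s : P.V) : Fin d → ℝ) = p.2 := fun s hs =>
    hpT s (Finset.mem_insert_of_mem hs)
  have hpa : p.1 ((a : P.V) : Fin d → ℝ) = p.2 := hpT a (Finset.mem_insert_self _ _)
  have hnc : ∃ v : P.V, p.1 (v : Fin d → ℝ) ≠ p.2 := by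
    by_contra hcon
    push Not at hcon
    have h1 : p.1.toAffineMap = AffineMap.const ℝ (Fin d → ℝ) p.2 := by
      apply AffineMap.ext_on P.full
      intro v hv
      exact hcon ⟨v, hv⟩
    have h2 : ∀ x, p.1 x = p.2 := fun x => by
      have := congrArg (fun F : (Fin d → ℝ) →ᵃ[ℝ] ℝ => F x) h1
      simpa using this
    have h3 : p.2 = 0 := by rw [← h2 0, map_zero]
    apply hp0
    apply Prod.ext
    · apply LinearMap.ext
      intro x
      rw [h2 x, h3]; rfl
    · exact h3
  have hcase : (∃ v : P.V, p.2 < p.1 v) ∨ ∃ v : P.V, p.1 v < p.2 := by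
    obtain ⟨v, hv⟩ := hnc
    rcases lt_or_gt_of_ne hv with h | h
    · exact Or.inr ⟨v, h⟩
    · exact Or.inl ⟨v, h⟩
  have up : (∃ v : P.V, p.2 < p.1 v) → ∃ t : P.V, ∀ y : P.V, y ∉ S → p.2 ≤ p.1 y → RS P S y t :=
    fun h => RS_top P S p.1 p.2 hpS h
  have down : (∃ v : P.V, p.1 v < p.2) → ∃ t : P.V, ∀ y : P.V, y ∉ S → p.1 y ≤ p.2 → RS P S y t := by
    rintro ⟨v, hv⟩
    obtain ⟨t, ht⟩ := RS_top P S (-p.1) (-p.2)
      (fun s hs => by rw [LinearMap.neg_apply, hpS s hs]) ⟨v, by rw [LinearMap.neg_apply]; linarith⟩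
    exact ⟨t, fun y hy h => ht y hy (by rw [LinearMap.neg_apply]; linarith)⟩
  by_cases hu : ∃ v : P.V, p.2 < p.1 v
  · obtain ⟨t, ht⟩ := up hu
    have hat := ht a ha hpa.ge
    by_cases hd : ∃ v : P.V, p.1 v < p.2
    · obtain ⟨t', ht'⟩ := down hd
      have hat' := ht' a ha hpa.le
      rcases le_total p.2 (p.1 b) with h | h
      · exact hat.trans (ht b hb h).symm
      · exact hat'.trans (ht' b hb h).symm
    · push Not at hd
      exact hat.trans (ht b hb (hd b)).symm
  · obtain ⟨t', ht'⟩ := down (hcase.resolve_left hu)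
    push Not at hu
    exact (ht' a ha hpa.le).trans (ht' b hb (hu b)).symm

end Pool.Agent.Helper489.Sep
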