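import Pool.Agent.Helper489.SepDefs

/-!
Certificates for simple polytopes with a bipartite graph.
-/

set_option autoImplicit false

namespace Pool.Agent.Helper489.Sep

/-- Certificate of a simple polytope with a two-coloured graph: at every vertex `v` there are `d`
affine functionals `a v i` (nonnegative on all vertices, zero at `v`) and `d` neighbours, such that
`a v i` vanishes at the `j`-th neighbour for `j ≠ i` and is positive at the `i`-th one. -/
structure Cert (d : ℕ) where
  ι : Type
  fin : Fintype ι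
  dec : DecidableEq ι
  p : ι → (Fin d → ℝ)
  a : ι → Fin d → ((Fin d → ℝ) →ᵃ[ℝ] ℝ)
  nbr : ι → Fin d → ι
  col : ι → Bool
  inj : Function.Injective p
  a_self : ∀ v i, a v i (p v) = 0
  a_ne : ∀ v i j, i ≠ j → a v i (p (nbr v j)) = 0
  a_pos : ∀ v i, 0 < a v i (p (nbr v i))
  a_nonneg : ∀ v i w, 0 ≤ a v i (p w)
  sym : ∀ v i, ∃ j, nbr (nbr v i) j = v
  col_nbr : ∀ v i, col (nbr v i) = !(col v)

attribute [instance] Cert.fin Cert.dec

namespace Cert

variable {d : ℕ} (C : Cert d)

theorem nbr_ne (v : C.ι) (i : Fin d) : C.nbr v i ≠ v := by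
  intro h
  have h1 := C.a_pos v i
  rw [h, C.a_self] at h1
  exact lt_irrefl _ h1

theorem nbr_inj (v : C.ι) : Function.Injective (C.nbr v) := by
  intro i j h
  by_contra hij
  have h1 := C.a_pos v i
  rw [h, C.a_ne v i j hij] at h1
  exact lt_irrefl _ h1

theorem lin (v : C.ι) (i : Fin d) (x : Fin d → ℝ) : (C.a v i).linear (x - C.p v) = C.a v i x := by
  have h := (C.a v i).linearMap_vsub x (C.p v)
  rw [C.a_self] at h
  simpa using h

theorem linInd (v : C.ι) : LinearIndependent ℝ (fun j => C.p (C.nbr v j) - C.p v) := by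
  rw [Fintype.linearIndependent_iff]
  intro g hg i
  have h1 := congrArg (C.a v i).linear hg
  rw [map_sum, map_zero] at h1
  simp only [map_smul, C.lin, smul_eq_mul] at h1
  rw [Finset.sum_eq_single i] at h1
  · rcases mul_eq_zero.1 h1 with h2 | h2
    · exact h2
    · exact absurd h2 (C.a_pos v i).ne'
  · intro j _ hj
    rw [C.a_ne v i j (Ne.symm hj), mul_zero]
  · intro h; exact absurd (Finset.mem_univ i) h

/-- every point in terms of the functionals at `v` -/
theorem repr (v : C.ι) (x : Fin d → ℝ) :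
    x = C.p v + ∑ j, (C.a v j x / C.a v j (C.p (C.nbr v j))) • (C.p (C.nbr v j) - C.p v) := by
  classical
  have hcard : Fintype.card (Fin d) = Module.finrank ℝ (Fin d → ℝ) := by simp
  let b := basisOfLinearIndependentOfCardEqFinrank' _ (C.linInd v) hcard
  have hb : ∀ j, b j = C.p (C.nbr v j) - C.p v := fun j => by
    simp [b]
  have h1 : x - C.p v = ∑ j, b.repr (x - C.p v) j • (C.p (C.nbr v j) - C.p v) := by
    conv_lhs => rw [← b.sum_repr (x - C.p v)]
    simp only [hb]
  have h2 : ∀ i, b.repr (x - C.p v) i = C.a v i x / C.a v i (C.p (C.nbr v i)) := by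
    intro i
    have h3 := congrArg (C.a v i).linear h1
    rw [map_sum] at h3
    simp only [map_smul, C.lin, smul_eq_mul] at h3
    rw [Finset.sum_eq_single i] at h3
    · rw [h3]
      field_simp [(C.a_pos v i).ne']
    · intro j _ hj
      rw [C.a_ne v i j (Ne.symm hj), mul_zero]
    · intro h; exact absurd (Finset.mem_univ i) h
  rw [← sub_eq_iff_eq_add']
  conv_lhs => rw [h1]
  refine Finset.sum_congr rfl fun j _ => ?_
  rw [h2]

theorem eq_of_zero (v w : C.ι) (h : ∀ i, C.a v i (C.p w) = 0) : w = v := by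
  apply C.inj
  have h1 := C.repr v (C.p w)
  simp only [h, zero_div, zero_smul, Finset.sum_const_zero, add_zero] at h1
  exact h1

/-- the sum of the functionals at `v` -/
noncomputable def tot (v : C.ι) : (Fin d → ℝ) →ᵃ[ℝ] ℝ := ∑ i, C.a v i

theorem tot_apply (v : C.ι) (x : Fin d → ℝ) : C.tot v x = ∑ i, C.a v i x := by
  unfold tot
  induction (Finset.univ : Finset (Fin d)) using Finset.induction_on with
  | empty => simp
  | insert i s hi ih => rw [Finset.sum_insert hi, Finset.sum_insert hi, ← ih]; rfl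

theorem tot_pos (v w : C.ι) (h : w ≠ v) : 0 < C.tot v (C.p w) := by
  rw [tot_apply]
  by_contra hcon
  apply h
  apply C.eq_of_zero
  have h1 : ∑ i, C.a v i (C.p w) = 0 :=
    le_antisymm (not_lt.1 hcon) (Finset.sum_nonneg fun i _ => C.a_nonneg v i w)
  intro i
  exact (Finset.sum_eq_zero_iff_of_nonneg (fun i _ => C.a_nonneg v i w)).1 h1 i (Finset.mem_univ i)

theorem conv_pos (v : C.ι) : C.p v ∉ convexHull ℝ (Set.range C.p \ {C.p v}) := by
  intro h
  have h1 : Set.range C.p \ {C.p v} ⊆ (C.tot v) ⁻¹' (Set.Ioi 0) := by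
    rintro _ ⟨⟨w, rfl⟩, hw⟩
    exact C.tot_pos v w fun h2 => hw (by rw [h2]; rfl)
  have h2 := convexHull_min h1 ((convex_Ioi (0:ℝ)).affine_preimage (C.tot v)) h
  have h3 : C.tot v (C.p v) = 0 := by
    rw [tot_apply]; exact Finset.sum_eq_zero fun i _ => C.a_self v i
  have h4 : (0:ℝ) < C.tot v (C.p v) := h2
  rw [h3] at h4
  exact lt_irrefl _ h4

theorem span_top (v : C.ι) : affineSpan ℝ (Set.range C.p) = ⊤ := by
  have hne : (Set.range C.p).Nonempty := ⟨_, v, rfl⟩
  rw [AffineSubspace.affineSpan_eq_top_iff_vectorSpan_eq_top_of_nonempty ℝ _ _ hne]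
  rw [eq_top_iff]
  intro x _
  have h1 := C.repr v (x + C.p v)
  have h2 : x = ∑ j, (C.a v j (x + C.p v) / C.a v j (C.p (C.nbr v j))) •
      (C.p (C.nbr v j) - C.p v) := by
    have h3 : x = (x + C.p v) - C.p v := by abel
    rw [h3]
    conv_lhs => rw [h1]
    rw [add_sub_cancel_left]
    simp
  rw [h2]
  refine Submodule.sum_mem _ fun j _ => Submodule.smul_mem _ _ ?_
  exact vsub_mem_vectorSpan ℝ ⟨_, rfl⟩ ⟨_, rfl⟩

/-- the polytope of a certificate -/
noncomputable def poly (v : C.ι) : Poly d where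
  V := Finset.univ.image C.p
  conv := by
    intro x hx
    obtain ⟨w, -, rfl⟩ := Finset.mem_image.1 hx
    have h1 : ((Finset.univ.image C.p : Finset (Fin d → ℝ)) : Set (Fin d → ℝ)) = Set.range C.p := by
      ext; simp
    rw [h1]
    exact C.conv_pos w
  full := by
    have h1 : ((Finset.univ.image C.p : Finset (Fin d → ℝ)) : Set (Fin d → ℝ)) = Set.range C.p := by
      ext; simp
    rw [h1]
    exact C.span_top v

end Cert

end Pool.Agent.Helper489.Sep
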