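import Pool.Agent.Helper489.SepCert
import Pool.Agent.Helper489.SepAdj

set_option autoImplicit false

namespace Pool.Agent.Helper489.Sep

namespace Cert

variable {d : ℕ} (C : Cert d)

/-- the vertices of the polytope -/
noncomputable def vtx (v0 v : C.ι) : (C.poly v0).V :=
  ⟨C.p v, Finset.mem_image.2 ⟨v, Finset.mem_univ v, rfl⟩⟩

theorem vtx_inj (v0 : C.ι) : Function.Injective (C.vtx v0) := by
  intro v w h
  exact C.inj (congrArg Subtype.val h)

theorem vtx_surj (v0 : C.ι) : Function.Surjective (C.vtx v0) := by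
  rintro ⟨x, hx⟩
  obtain ⟨w, -, rfl⟩ := Finset.mem_image.1 hx
  exact ⟨w, rfl⟩

/-- a vertex is not strictly between two others, in functional form -/
theorem not_between (x y z : C.ι) (hx : z ≠ x) (hy : z ≠ y) (t : ℝ) (h0 : 0 ≤ t) (h1 : t ≤ 1)
    (h : C.p z = C.p x + t • (C.p y - C.p x)) : False := by
  have e1 : C.tot z (C.p z) = (1 - t) * C.tot z (C.p x) + t * C.tot z (C.p y) := by
    have e2 : C.p z = AffineMap.lineMap (C.p x) (C.p y) t := by
      rw [AffineMap.lineMap_apply_module', add_comm]; exact h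
    rw [e2, AffineMap.apply_lineMap, AffineMap.lineMap_apply_module']
    simp only [smul_eq_mul]
    ring
  have e3 : C.tot z (C.p z) = 0 := by
    rw [tot_apply]; exact Finset.sum_eq_zero fun i _ => C.a_self z i
  have e4 := C.tot_pos z x (Ne.symm hx)
  have e5 := C.tot_pos z y (Ne.symm hy)
  rw [e3] at e1
  rcases eq_or_lt_of_le h0 with h2 | h2
  · rw [← h2] at e1; simp at e1; linarith
  · have := mul_pos h2 e5
    have := mul_nonneg (sub_nonneg.2 h1) e4.le
    linarith

theorem adj (v0 v w : C.ι) :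
    (C.poly v0).graph.Adj (C.vtx v0 v) (C.vtx v0 w) ↔ ∃ i, w = C.nbr v i := by
  rw [adj_iff]
  constructor
  · rintro ⟨hne, f, hf, hlt⟩
    have hvw : w ≠ v := fun h => hne (by rw [h])
    have hf' : f (C.p v) = f (C.p w) := hf
    have hlt' : ∀ z, z ≠ v → z ≠ w → f (C.p z) < f (C.p v) := by
      intro z hz1 hz2
      exact hlt (C.p z) (Finset.mem_image.2 ⟨z, Finset.mem_univ z, rfl⟩)
        (fun h => hz1 (C.inj h)) (fun h => hz2 (C.inj h))
    by_contra hcon
    push Not at hcon
    have h1 : ∀ j, f (C.p (C.nbr v j)) < f (C.p v) := fun j =>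
      hlt' _ (C.nbr_ne v j) (Ne.symm (hcon j))
    have h2 := congrArg f (C.repr v (C.p w))
    rw [map_add, map_sum] at h2
    simp only [map_smul, map_sub, smul_eq_mul] at h2
    rw [← hf'] at h2
    have h3 : ∑ j, C.a v j (C.p w) / C.a v j (C.p (C.nbr v j)) *
        (f (C.p v) - f (C.p (C.nbr v j))) = 0 := by
      have h4 : ∑ j, C.a v j (C.p w) / C.a v j (C.p (C.nbr v j)) *
        (f (C.p v) - f (C.p (C.nbr v j))) = - ∑ j, C.a v j (C.p w) / C.a v j (C.p (C.nbr v j)) *
        (f (C.p (C.nbr v j)) - f (C.p v)) := by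
        rw [← Finset.sum_neg_distrib]
        refine Finset.sum_congr rfl fun j _ => by ring
      rw [h4]; linarith
    have h5 : ∀ j ∈ (Finset.univ : Finset (Fin d)),
        0 ≤ C.a v j (C.p w) / C.a v j (C.p (C.nbr v j)) *
        (f (C.p v) - f (C.p (C.nbr v j))) := fun j _ =>
      mul_nonneg (div_nonneg (C.a_nonneg v j w) (C.a_pos v j).le) (sub_nonneg.2 (h1 j).le)
    have h6 := (Finset.sum_eq_zero_iff_of_nonneg h5).1 h3
    apply hvw
    apply C.eq_of_zero
    intro j
    have h7 := h6 j (Finset.mem_univ j)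
    rcases mul_eq_zero.1 h7 with h8 | h8
    · rcases div_eq_zero_iff.1 h8 with h9 | h9
      · exact h9
      · exact absurd h9 (C.a_pos v j).ne'
    · have := h1 j
      linarith
  · rintro ⟨i, rfl⟩
    refine ⟨fun h => C.nbr_ne v i (C.vtx_inj v0 h).symm, ?_⟩
    refine ⟨- ∑ j ∈ Finset.univ.erase i, (C.a v j).linear, ?_, ?_⟩
    · show (- ∑ j ∈ Finset.univ.erase i, (C.a v j).linear) (C.p v) =
        (- ∑ j ∈ Finset.univ.erase i, (C.a v j).linear) (C.p (C.nbr v i))
      rw [eq_comm, ← sub_eq_zero, ← map_sub, LinearMap.neg_apply, LinearMap.sum_apply, neg_eq_zero]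
      refine Finset.sum_eq_zero fun j hj => ?_
      rw [C.lin]
      exact C.a_ne v j i (Finset.ne_of_mem_erase hj)
    · intro x hx hxv hxw
      obtain ⟨z, -, rfl⟩ := Finset.mem_image.1 hx
      have hzv : z ≠ v := fun h => hxv (by rw [h]; rfl)
      have hzw : z ≠ C.nbr v i := fun h => hxw (by rw [h]; rfl)
      show (- ∑ j ∈ Finset.univ.erase i, (C.a v j).linear) (C.p z) <
        (- ∑ j ∈ Finset.univ.erase i, (C.a v j).linear) (C.p v)
      rw [← sub_neg, ← map_sub, LinearMap.neg_apply, LinearMap.sum_apply, neg_lt_zero]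
      simp only [C.lin]
      refine lt_of_le_of_ne (Finset.sum_nonneg fun j _ => C.a_nonneg v j z) ?_
      intro h0
      have h1 := (Finset.sum_eq_zero_iff_of_nonneg (fun j _ => C.a_nonneg v j z)).1 h0.symm
      -- so `z` is on the line through `v` and its neighbour
      have h2 := C.repr v (C.p z)
      rw [Finset.sum_eq_single i] at h2
      · set t := C.a v i (C.p z) / C.a v i (C.p (C.nbr v i)) with ht
        have ht0 : 0 ≤ t := div_nonneg (C.a_nonneg v i z) (C.a_pos v i).le
        by_cases ht1 : t ≤ 1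
        · exact C.not_between v (C.nbr v i) z hzv hzw t ht0 ht1 h2
        · have ht2 : 0 < t := by linarith [not_le.1 ht1]
          refine C.not_between v z (C.nbr v i) (C.nbr_ne v i) (Ne.symm hzw) t⁻¹
            (inv_nonneg.2 ht0) (inv_le_one_of_one_le₀ (not_le.1 ht1).le) ?_
          rw [h2, add_sub_cancel_left, smul_smul, inv_mul_cancel₀ ht2.ne', one_smul]
          abel
      · intro j _ hj
        rw [h1 j (Finset.mem_erase.2 ⟨hj, Finset.mem_univ j⟩), zero_div, zero_smul]
      · intro h; exact absurd (Finset.mem_univ i) h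

theorem simple (v0 : C.ι) : (C.poly v0).Simple := by
  intro x
  obtain ⟨v, rfl⟩ := C.vtx_surj v0 x
  have h1 : (C.poly v0).graph.neighborSet (C.vtx v0 v) =
      Set.range (fun i => C.vtx v0 (C.nbr v i)) := by
    ext y
    obtain ⟨w, rfl⟩ := C.vtx_surj v0 y
    rw [SimpleGraph.mem_neighborSet, C.adj]
    constructor
    · rintro ⟨i, rfl⟩; exact ⟨i, rfl⟩
    · rintro ⟨i, hi⟩; exact ⟨i, (C.vtx_inj v0 hi).symm⟩
  have h2 : Function.Injective (fun i => C.vtx v0 (C.nbr v i)) :=
    (C.vtx_inj v0).comp (C.nbr_inj v)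
  rw [h1, ← Set.image_univ, Set.ncard_image_of_injective _ h2, Set.ncard_univ,
    Nat.card_eq_fintype_card, Fintype.card_fin]

end Cert

end Pool.Agent.Helper489.Sep
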