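import Pool.Agent.Helper489.SepCert

set_option autoImplicit false

namespace Pool.Agent.Helper489.Sep

namespace Cert

/-- the point -/
noncomputable def point : Cert 0 where
  ι := Unit
  fin := inferInstance
  dec := inferInstance
  p := fun _ => 0
  a := fun _ i => i.elim0
  nbr := fun _ i => i.elim0
  col := fun _ => true
  inj := fun _ _ _ => rfl
  a_self := fun _ i => i.elim0
  a_ne := fun _ i => i.elim0
  a_pos := fun _ i => i.elim0
  a_nonneg := fun _ i => i.elim0
  sym := fun _ i => i.elim0
  col_nbr := fun _ i => i.elim0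

variable {d : ℕ} (C : Cert d)

/-- forget the last coordinate -/
noncomputable def ini (d : ℕ) : (Fin (d + 1) → ℝ) →ᵃ[ℝ] (Fin d → ℝ) :=
  (LinearMap.funLeft ℝ ℝ Fin.castSucc).toAffineMap

theorem ini_snoc (x : Fin d → ℝ) (t : ℝ) : ini d (Fin.snoc (α := fun _ => ℝ) x t) = x := by
  funext i
  show Fin.snoc (α := fun _ => ℝ) x t (Fin.castSucc i) = x i
  rw [Fin.snoc_castSucc]

/-- the last coordinate -/
noncomputable def las (d : ℕ) : (Fin (d + 1) → ℝ) →ᵃ[ℝ] ℝ :=
  (LinearMap.proj (Fin.last d)).toAffineMap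

theorem las_snoc (x : Fin d → ℝ) (t : ℝ) : las d (Fin.snoc (α := fun _ => ℝ) x t) = t := by
  show Fin.snoc (α := fun _ => ℝ) x t (Fin.last d) = t
  rw [Fin.snoc_last]

/-- the prism over a certificate -/
noncomputable def prism : Cert (d + 1) where
  ι := C.ι × Bool
  fin := inferInstance
  dec := inferInstance
  p := fun v => Fin.snoc (α := fun _ => ℝ) (C.p v.1) (if v.2 then 1 else 0)
  a := fun v => Fin.snoc (α := fun _ => (Fin (d + 1) → ℝ) →ᵃ[ℝ] ℝ)
    (fun i => (C.a v.1 i).comp (ini d))
    (if v.2 then AffineMap.const ℝ _ 1 - las d else las d)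
  nbr := fun v => Fin.snoc (α := fun _ => C.ι × Bool) (fun i => (C.nbr v.1 i, v.2)) (v.1, !v.2)
  col := fun v => xor (C.col v.1) v.2
  inj := by
    rintro ⟨v, b⟩ ⟨w, c⟩ h
    have h1 := congrArg (ini d) h
    have h2 := congrArg (las d) h
    simp only [ini_snoc, las_snoc] at h1 h2
    have h3 := C.inj h1
    subst h3
    cases b <;> cases c <;> simp_all
  a_self := by
    rintro ⟨v, b⟩ i
    refine Fin.lastCases ?_ (fun i => ?_) i
    · simp only [Fin.snoc_last]
      cases b <;> simp [las_snoc]
    · simp only [Fin.snoc_castSucc, AffineMap.comp_apply, ini_snoc, C.a_self]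
  a_ne := by
    rintro ⟨v, b⟩ i j
    refine Fin.lastCases ?_ (fun i => ?_) i
    · refine Fin.lastCases ?_ (fun j => ?_) j
      · intro h; exact absurd rfl h
      · intro _
        simp only [Fin.snoc_last, Fin.snoc_castSucc]
        cases b <;> simp [las_snoc]
    · refine Fin.lastCases ?_ (fun j => ?_) j
      · intro _
        simp only [Fin.snoc_last, Fin.snoc_castSucc, AffineMap.comp_apply, ini_snoc, C.a_self]
      · intro h
        simp only [Fin.snoc_castSucc, AffineMap.comp_apply, ini_snoc]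
        exact C.a_ne v i j fun h2 => h (by rw [h2])
  a_pos := by
    rintro ⟨v, b⟩ i
    refine Fin.lastCases ?_ (fun i => ?_) i
    · simp only [Fin.snoc_last]
      cases b <;> simp [las_snoc]
    · simp only [Fin.snoc_castSucc, AffineMap.comp_apply, ini_snoc]
      exact C.a_pos v i
  a_nonneg := by
    rintro ⟨v, b⟩ i ⟨w, c⟩
    refine Fin.lastCases ?_ (fun i => ?_) i
    · simp only [Fin.snoc_last]
      cases b <;> cases c <;> simp [las_snoc]
    · simp only [Fin.snoc_castSucc, AffineMap.comp_apply, ini_snoc]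
      exact C.a_nonneg v i w
  sym := by
    rintro ⟨v, b⟩ i
    refine Fin.lastCases ?_ (fun i => ?_) i
    · refine ⟨Fin.last d, ?_⟩
      simp only [Fin.snoc_last, Bool.not_not]
    · obtain ⟨j, hj⟩ := C.sym v i
      refine ⟨Fin.castSucc j, ?_⟩
      simp only [Fin.snoc_castSucc, hj]
  col_nbr := by
    rintro ⟨v, b⟩ i
    refine Fin.lastCases ?_ (fun i => ?_) i
    · simp only [Fin.snoc_last]
      cases C.col v <;> cases b <;> rfl
    · simp only [Fin.snoc_castSucc, C.col_nbr]
      cases C.col v <;> cases b <;> rfl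

theorem card_prism : Fintype.card C.prism.ι = 2 * Fintype.card C.ι := by
  show Fintype.card (C.ι × Bool) = _
  rw [Fintype.card_prod, Fintype.card_bool, mul_comm]

end Cert

end Pool.Agent.Helper489.Sep
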