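import Pool.Agent.Helper489.SepCert3

set_option autoImplicit false

namespace Pool.Agent.Helper489.Sep

namespace Cert

variable {d : ℕ} (C : Cert d) (v0 : C.ι)

/-- normalised slack functionals at `v0` -/
noncomputable def sl (i : Fin d) : (Fin d → ℝ) →ᵃ[ℝ] ℝ :=
  (C.a v0 i (C.p (C.nbr v0 i)))⁻¹ • C.a v0 i

theorem sl_apply (i : Fin d) (x : Fin d → ℝ) :
    C.sl v0 i x = (C.a v0 i (C.p (C.nbr v0 i)))⁻¹ * C.a v0 i x := rfl

theorem sl_self (i : Fin d) : C.sl v0 i (C.p v0) = 0 := by
  rw [sl_apply, C.a_self, mul_zero]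

theorem sl_nbr (i j : Fin d) : C.sl v0 i (C.p (C.nbr v0 j)) = if i = j then 1 else 0 := by
  rw [sl_apply]
  by_cases h : i = j
  · subst h
    rw [if_pos rfl, inv_mul_cancel₀ (C.a_pos v0 i).ne']
  · rw [if_neg h, C.a_ne v0 i j h, mul_zero]

theorem sl_nonneg (i : Fin d) (w : C.ι) : 0 ≤ C.sl v0 i (C.p w) := by
  rw [sl_apply]
  exact mul_nonneg (inv_nonneg.2 (C.a_pos v0 i).le) (C.a_nonneg v0 i w)

/-- sum of the normalised slacks -/
noncomputable def ss : (Fin d → ℝ) →ᵃ[ℝ] ℝ := ∑ i, C.sl v0 i

theorem sum_affine_apply {n : ℕ} (F : Fin n → ((Fin d → ℝ) →ᵃ[ℝ] ℝ)) (x : Fin d → ℝ) :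
    (∑ i, F i) x = ∑ i, F i x := by
  induction (Finset.univ : Finset (Fin n)) using Finset.induction_on with
  | empty => simp
  | insert i s hi ih => rw [Finset.sum_insert hi, Finset.sum_insert hi, ← ih]; rfl

theorem ss_apply (x : Fin d → ℝ) : C.ss v0 x = ∑ i, C.sl v0 i x := sum_affine_apply _ _

theorem ss_pos (w : C.ι) (h : w ≠ v0) : 0 < C.ss v0 (C.p w) := by
  rw [ss_apply]
  by_contra hcon
  apply h
  apply C.eq_of_zero
  have h1 : ∑ i, C.sl v0 i (C.p w) = 0 :=
    le_antisymm (not_lt.1 hcon) (Finset.sum_nonneg fun i _ => C.sl_nonneg v0 i w)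
  intro i
  have h2 := (Finset.sum_eq_zero_iff_of_nonneg (fun i _ => C.sl_nonneg v0 i w)).1 h1 i
    (Finset.mem_univ i)
  rw [sl_apply] at h2
  rcases mul_eq_zero.1 h2 with h3 | h3
  · exact absurd h3 (inv_ne_zero (C.a_pos v0 i).ne')
  · exact h3

theorem sl_le_ss (i : Fin d) (w : C.ι) : C.sl v0 i (C.p w) ≤ C.ss v0 (C.p w) := by
  rw [ss_apply]
  exact Finset.single_le_sum (f := fun i => C.sl v0 i (C.p w))
    (fun j _ => C.sl_nonneg v0 j w) (Finset.mem_univ i)

theorem ss_nbr (j : Fin d) : C.ss v0 (C.p (C.nbr v0 j)) = 1 := by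
  rw [ss_apply]
  simp only [sl_nbr]
  simp

/-- the new facet functionals -/
noncomputable def bb (ε : ℝ) (i : Fin d) : (Fin d → ℝ) →ᵃ[ℝ] ℝ :=
  (2 : ℝ) • C.ss v0 - C.sl v0 i - AffineMap.const ℝ _ ε

theorem bb_apply (ε : ℝ) (i : Fin d) (x : Fin d → ℝ) :
    C.bb v0 ε i x = 2 * C.ss v0 x - C.sl v0 i x - ε := rfl

/-- the parameters of the new vertices -/
noncomputable def tk (ε : ℝ) (k : ℕ) : ℝ := ε / (2 * k - 1)

theorem tk_pos {ε : ℝ} (hε : 0 < ε) {k : ℕ} (hk : 1 ≤ k) : 0 < tk ε k := by
  have : (1 : ℝ) ≤ k := by exact_mod_cast hk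
  exact div_pos hε (by linarith)

theorem tk_mul (ε : ℝ) {k : ℕ} (hk : 1 ≤ k) : tk ε k * (2 * k - 1) = ε := by
  have : (1 : ℝ) ≤ k := by exact_mod_cast hk
  exact div_mul_cancel₀ _ (by linarith)

/-- the new vertices -/
noncomputable def qq (ε : ℝ) (T : Finset (Fin d)) : Fin d → ℝ :=
  C.p v0 + tk ε T.card • ∑ j ∈ T, (C.p (C.nbr v0 j) - C.p v0)

theorem aff_qq (ε : ℝ) (T : Finset (Fin d)) (F : (Fin d → ℝ) →ᵃ[ℝ] ℝ) :
    F (C.qq v0 ε T) = F (C.p v0) + tk ε T.card *
      ∑ j ∈ T, (F (C.p (C.nbr v0 j)) - F (C.p v0)) := by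
  unfold qq
  rw [add_comm (C.p v0), ← vadd_eq_add, F.map_vadd, vadd_eq_add, map_smul, map_sum, smul_eq_mul,
    add_comm]
  congr 2
  refine Finset.sum_congr rfl fun j _ => ?_
  have := F.linearMap_vsub (C.p (C.nbr v0 j)) (C.p v0)
  simpa using this

theorem sl_qq (ε : ℝ) (T : Finset (Fin d)) (i : Fin d) :
    C.sl v0 i (C.qq v0 ε T) = if i ∈ T then tk ε T.card else 0 := by
  rw [aff_qq, sl_self, zero_add]
  simp only [sl_nbr, sub_zero]
  rw [Finset.sum_ite_eq]
  split_ifs <;> simp

theorem ss_qq (ε : ℝ) (T : Finset (Fin d)) :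
    C.ss v0 (C.qq v0 ε T) = T.card * tk ε T.card := by
  rw [ss_apply]
  simp only [sl_qq]
  rw [Finset.sum_ite_mem, Finset.univ_inter, Finset.sum_const, nsmul_eq_mul]

theorem bb_qq (ε : ℝ) (T : Finset (Fin d)) (hT : T.Nonempty) (i : Fin d) :
    C.bb v0 ε i (C.qq v0 ε T) = if i ∈ T then 0 else tk ε T.card := by
  have h1 := tk_mul ε (Finset.card_pos.2 hT)
  rw [bb_apply, ss_qq, sl_qq]
  split_ifs <;> linarith

theorem bb_pos (ε : ℝ) (i : Fin d) (w : C.ι) (h : ε < C.ss v0 (C.p w)) :
    0 < C.bb v0 ε i (C.p w) := by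
  rw [bb_apply]
  have := C.sl_le_ss v0 i w
  linarith

theorem qq_singleton (ε : ℝ) (k : Fin d) (F : (Fin d → ℝ) →ᵃ[ℝ] ℝ) :
    F (C.qq v0 ε {k}) = (1 - ε) * F (C.p v0) + ε * F (C.p (C.nbr v0 k)) := by
  rw [aff_qq, Finset.sum_singleton, Finset.card_singleton]
  have : tk ε 1 = ε := by unfold tk; norm_num
  rw [this]
  ring

theorem aff_qq_nonneg {ε : ℝ} (hε : 0 < ε) (hε1 : ε < 1) (T : Finset (Fin d)) (hT : T.Nonempty)
    (F : (Fin d → ℝ) →ᵃ[ℝ] ℝ) (hF : ∀ w, 0 ≤ F (C.p w)) : 0 ≤ F (C.qq v0 ε T) := by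
  rw [aff_qq, Finset.sum_sub_distrib, Finset.sum_const, nsmul_eq_mul]
  have h1 : (1 : ℝ) ≤ T.card := by exact_mod_cast Finset.card_pos.2 hT
  have h2 := tk_mul ε (Finset.card_pos.2 hT)
  have h3 := tk_pos hε (Finset.card_pos.2 hT)
  have h4 : tk ε T.card * T.card ≤ 1 := by nlinarith
  have h5 : 0 ≤ ∑ j ∈ T, F (C.p (C.nbr v0 j)) := Finset.sum_nonneg fun j _ => hF _
  have h6 := hF v0
  nlinarith [mul_nonneg h3.le h5, mul_nonneg (sub_nonneg.2 h4) h6]

/-- index of `v0` seen from a neighbour `w` -/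
noncomputable def idx (w : C.ι) (i : Fin d) : Fin d := Classical.choose (C.sym w i)

theorem idx_spec (w : C.ι) (i : Fin d) : C.nbr (C.nbr w i) (C.idx w i) = w :=
  Classical.choose_spec (C.sym w i)

/-- cutting a vertex by a cube tip -/
noncomputable def tip (ε : ℝ) (hε : 0 < ε) (hS : ∀ w, w ≠ v0 → ε < C.ss v0 (C.p w)) : Cert d where
  ι := {w : C.ι // w ≠ v0} ⊕ {T : Finset (Fin d) // T.Nonempty}
  fin := inferInstance
  dec := inferInstance
  p := fun v => match v with
    | Sum.inl w => C.p w.1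
    | Sum.inr T => C.qq v0 ε T.1
  a := fun v i => match v with
    | Sum.inl w => C.a w.1 i
    | Sum.inr T => if i ∈ T.1 then C.bb v0 ε i else C.sl v0 i
  nbr := fun v i => match v with
    | Sum.inl w => if h : C.nbr w.1 i = v0 then
        Sum.inr ⟨{C.idx w.1 i}, Finset.singleton_nonempty _⟩ else Sum.inl ⟨C.nbr w.1 i, h⟩
    | Sum.inr T => if i ∈ T.1 then
        (if h : (T.1.erase i).Nonempty then Sum.inr ⟨T.1.erase i, h⟩
          else Sum.inl ⟨C.nbr v0 i, C.nbr_ne v0 i⟩)
        else Sum.inr ⟨insert i T.1, Finset.insert_nonempty _ _⟩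
  col := fun v => match v with
    | Sum.inl w => C.col w.1
    | Sum.inr T => if Even T.1.card then !(C.col v0) else C.col v0
  inj := by
    have key : ∀ (w : {w : C.ι // w ≠ v0}) (T : {T : Finset (Fin d) // T.Nonempty}),
        C.p w.1 ≠ C.qq v0 ε T.1 := by
      rintro ⟨w, hw⟩ ⟨T, hT⟩ h
      obtain ⟨i, hi⟩ := hT
      have h1 := C.bb_pos v0 ε i w (hS w hw)
      have h2 := C.bb_qq v0 ε T ⟨i, hi⟩ i
      rw [if_pos hi] at h2
      have h3 : C.p w = C.qq v0 ε T := h
      rw [h3, h2] at h1
      exact lt_irrefl _ h1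
    rintro (w | T) (w' | T') h
    · exact congrArg Sum.inl (Subtype.ext (C.inj h))
    · exact absurd h (key w T')
    · exact absurd h.symm (key w' T)
    · have h' : C.qq v0 ε T.1 = C.qq v0 ε T'.1 := h
      congr 1
      apply Subtype.ext
      ext i
      have h1 := C.sl_qq v0 ε T.1 i
      have h2 := C.sl_qq v0 ε T'.1 i
      rw [h', h2] at h1
      have t1 := tk_pos hε (Finset.card_pos.2 T.2)
      have t2 := tk_pos hε (Finset.card_pos.2 T'.2)
      constructor
      · intro hi
        by_contra hi'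
        rw [if_pos hi, if_neg hi'] at h1
        exact t1.ne h1
      · intro hi
        by_contra hi'
        rw [if_neg hi', if_pos hi] at h1
        exact t2.ne h1.symm
  a_self := by
    rintro (w | T) i
    · exact C.a_self w.1 i
    · show (if i ∈ T.1 then C.bb v0 ε i else C.sl v0 i) (C.qq v0 ε T.1) = 0
      split_ifs with h
      · rw [C.bb_qq v0 ε T.1 T.2, if_pos h]
      · rw [C.sl_qq, if_neg h]
  a_ne := by
    rintro (w | T) i j hij
    · by_cases h : C.nbr w.1 j = v0
      · simp only [dif_pos h]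
        rw [qq_singleton]
        have h1 : C.nbr v0 (C.idx w.1 j) = w.1 := by
          have := C.idx_spec w.1 j
          rwa [h] at this
        have h2 : C.a w.1 i (C.p v0) = 0 := by
          have h3 := C.a_ne w.1 i j hij
          rwa [h] at h3
        rw [h1, C.a_self, h2]; ring
      · simp only [dif_neg h]
        exact C.a_ne w.1 i j hij
    · by_cases hi : i ∈ T.1
      · by_cases hj : j ∈ T.1
        · have h : (T.1.erase j).Nonempty := ⟨i, Finset.mem_erase.2 ⟨hij, hi⟩⟩
          simp only [if_pos hi, if_pos hj, dif_pos h]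
          rw [C.bb_qq v0 ε _ h, if_pos (Finset.mem_erase.2 ⟨hij, hi⟩)]
        · simp only [if_pos hi, if_neg hj]
          rw [C.bb_qq v0 ε _ (Finset.insert_nonempty _ _), if_pos (Finset.mem_insert_of_mem hi)]
      · by_cases hj : j ∈ T.1
        · by_cases h : (T.1.erase j).Nonempty
          · simp only [if_neg hi, if_pos hj, dif_pos h]
            rw [C.sl_qq, if_neg fun h2 => hi (Finset.mem_of_mem_erase h2)]
          · simp only [if_neg hi, if_pos hj, dif_neg h]
            rw [C.sl_nbr, if_neg hij]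
        · simp only [if_neg hi, if_neg hj]
          rw [C.sl_qq, if_neg]
          rw [Finset.mem_insert]
          rintro (h2 | h2)
          · exact hij h2
          · exact hi h2
  a_pos := by
    rintro (w | T) i
    · by_cases h : C.nbr w.1 i = v0
      · simp only [dif_pos h]
        rw [qq_singleton]
        have h1 : C.nbr v0 (C.idx w.1 i) = w.1 := by
          have := C.idx_spec w.1 i
          rwa [h] at this
        have h2 : 0 < C.a w.1 i (C.p v0) := by
          have h3 := C.a_pos w.1 i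
          rwa [h] at h3
        have h3 : ε < 1 := by
          have := hS _ (C.nbr_ne v0 i)
          rwa [C.ss_nbr] at this
        rw [h1, C.a_self, mul_zero, add_zero]
        exact mul_pos (by linarith) h2
      · simp only [dif_neg h]
        exact C.a_pos w.1 i
    · by_cases hi : i ∈ T.1
      · by_cases h : (T.1.erase i).Nonempty
        · simp only [if_pos hi, dif_pos h]
          rw [C.bb_qq v0 ε _ h, if_neg (Finset.notMem_erase i _)]
          exact tk_pos hε (Finset.card_pos.2 h)
        · simp only [if_pos hi, dif_neg h]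
          exact C.bb_pos v0 ε i _ (hS _ (C.nbr_ne v0 i))
      · simp only [if_neg hi]
        rw [C.sl_qq, if_pos (Finset.mem_insert_self i _)]
        exact tk_pos hε (Finset.card_pos.2 (Finset.insert_nonempty _ _))
  a_nonneg := by
    rintro (w | T) i (w' | T')
    · exact C.a_nonneg w.1 i w'.1
    · obtain ⟨j, hj⟩ := T'.2
      have h3 : ε < 1 := by
        have := hS _ (C.nbr_ne v0 j)
        rwa [C.ss_nbr] at this
      exact C.aff_qq_nonneg v0 hε h3 T'.1 T'.2 _ fun w'' => C.a_nonneg w.1 i w''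
    · by_cases hi : i ∈ T.1
      · simp only [if_pos hi]
        exact (C.bb_pos v0 ε i _ (hS _ w'.2)).le
      · simp only [if_neg hi]
        exact C.sl_nonneg v0 i _
    · by_cases hi : i ∈ T.1
      · simp only [if_pos hi]
        rw [C.bb_qq v0 ε _ T'.2]
        split_ifs
        · exact le_rfl
        · exact (tk_pos hε (Finset.card_pos.2 T'.2)).le
      · simp only [if_neg hi]
        rw [C.sl_qq]
        split_ifs
        · exact (tk_pos hε (Finset.card_pos.2 T'.2)).le
        · exact le_rfl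
  sym := by
    rintro (w | T) i
    · by_cases h : C.nbr w.1 i = v0
      · have h1 : C.nbr v0 (C.idx w.1 i) = w.1 := by
          have := C.idx_spec w.1 i
          rwa [h] at this
        refine ⟨C.idx w.1 i, ?_⟩
        have h2 : ¬ (({C.idx w.1 i} : Finset (Fin d)).erase (C.idx w.1 i)).Nonempty := by
          rw [Finset.erase_singleton]; simp
        simp only [dif_pos h, if_pos (Finset.mem_singleton_self _), dif_neg h2]
        exact congrArg Sum.inl (Subtype.ext h1)
      · obtain ⟨j, hj⟩ := C.sym w.1 i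
        refine ⟨j, ?_⟩
        have h2 : ¬ C.nbr (C.nbr w.1 i) j = v0 := by rw [hj]; exact w.2
        simp only [dif_neg h, dif_neg h2]
        exact congrArg Sum.inl (Subtype.ext hj)
    · by_cases hi : i ∈ T.1
      · by_cases h : (T.1.erase i).Nonempty
        · refine ⟨i, ?_⟩
          simp only [if_pos hi, dif_pos h, if_neg (Finset.notMem_erase i _)]
          exact congrArg Sum.inr (Subtype.ext (Finset.insert_erase hi))
        · obtain ⟨j, hj⟩ := C.sym v0 i
          refine ⟨j, ?_⟩
          simp only [if_pos hi, dif_neg h, dif_pos hj]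
          have h1 : C.idx (C.nbr v0 i) j = i := by
            apply C.nbr_inj v0
            have := C.idx_spec (C.nbr v0 i) j
            rwa [hj] at this
          refine congrArg Sum.inr (Subtype.ext ?_)
          show ({C.idx (C.nbr v0 i) j} : Finset (Fin d)) = T.1
          rw [h1]
          rw [Finset.not_nonempty_iff_eq_empty] at h
          rw [← Finset.insert_erase hi, h]
          rfl
      · refine ⟨i, ?_⟩
        have h2 : ((insert i T.1).erase i).Nonempty := by
          rw [Finset.erase_insert hi]; exact T.2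
        simp only [if_neg hi, if_pos (Finset.mem_insert_self i _), dif_pos h2]
        exact congrArg Sum.inr (Subtype.ext (Finset.erase_insert hi))
  col_nbr := by
    rintro (w | T) i
    · by_cases h : C.nbr w.1 i = v0
      · simp only [dif_pos h]
        rw [Finset.card_singleton, if_neg (by decide)]
        have h3 := C.col_nbr w.1 i
        rwa [h] at h3
      · simp only [dif_neg h]
        exact C.col_nbr w.1 i
    · by_cases hi : i ∈ T.1
      · by_cases h : (T.1.erase i).Nonempty
        · simp only [if_pos hi, dif_pos h]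
          have h1 := Finset.card_erase_add_one hi
          rw [← h1]
          by_cases h2 : Even (T.1.erase i).card
          · have h3 : ¬ Even ((T.1.erase i).card + 1) := by
              rw [Nat.even_add_one]; exact fun h4 => h4 h2
            rw [if_pos h2, if_neg h3]
          · have h3 : Even ((T.1.erase i).card + 1) := by
              rw [Nat.even_add_one]; exact h2
            rw [if_neg h2, if_pos h3, Bool.not_not]
        · simp only [if_pos hi, dif_neg h]
          rw [Finset.not_nonempty_iff_eq_empty] at h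
          have h1 := Finset.card_erase_add_one hi
          rw [h, Finset.card_empty] at h1
          rw [← h1, if_neg (by decide)]
          exact C.col_nbr v0 i
      · simp only [if_neg hi]
        rw [Finset.card_insert_of_notMem hi]
        by_cases h2 : Even T.1.card
        · have h3 : ¬ Even (T.1.card + 1) := by
            rw [Nat.even_add_one]; exact fun h4 => h4 h2
          rw [if_pos h2, if_neg h3, Bool.not_not]
        · have h3 : Even (T.1.card + 1) := by
            rw [Nat.even_add_one]; exact h2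
          rw [if_neg h2, if_pos h3]

theorem card_tip (ε : ℝ) (hε : 0 < ε) (hS : ∀ w, w ≠ v0 → ε < C.ss v0 (C.p w)) :
    Fintype.card (C.tip v0 ε hε hS).ι + 2 = Fintype.card C.ι + 2 ^ d := by
  show Fintype.card ({w : C.ι // w ≠ v0} ⊕ {T : Finset (Fin d) // T.Nonempty}) + 2 = _
  rw [Fintype.card_sum]
  have h1 : Fintype.card {w : C.ι // w ≠ v0} + 1 = Fintype.card C.ι := by
    rw [Fintype.card_subtype_compl, Fintype.card_subtype_eq]
    have : 0 < Fintype.card C.ι := Fintype.card_pos_iff.2 ⟨v0⟩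
    omega
  have h2 : Fintype.card {T : Finset (Fin d) // T.Nonempty} + 1 = 2 ^ d := by
    have h3 : Fintype.card {T : Finset (Fin d) // T.Nonempty} =
        Fintype.card {T : Finset (Fin d) // T ≠ ∅} :=
      Fintype.card_congr (Equiv.subtypeEquivRight fun T => Finset.nonempty_iff_ne_empty)
    rw [h3, Fintype.card_subtype_compl, Fintype.card_subtype_eq, Fintype.card_finset,
      Fintype.card_fin]
    have : 0 < 2 ^ d := by positivity
    omega
  omega

/-- a suitable `ε` exists -/
theorem exists_eps : ∃ ε : ℝ, 0 < ε ∧ ∀ w, w ≠ v0 → ε < C.ss v0 (C.p w) := by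
  classical
  have h : ∀ s : Finset C.ι, ∃ ε : ℝ, 0 < ε ∧ ∀ w ∈ s, w ≠ v0 → ε < C.ss v0 (C.p w) := by
    intro s
    induction s using Finset.induction_on with
    | empty => exact ⟨1, one_pos, by simp⟩
    | insert w s _ ih =>
      obtain ⟨ε, h0, h1⟩ := ih
      by_cases hw : w = v0
      · refine ⟨ε, h0, fun w' hw' hne => ?_⟩
        rcases Finset.mem_insert.1 hw' with h2 | h2
        · exact absurd (h2.trans hw) hne
        · exact h1 w' h2 hne
      · have h3 := C.ss_pos v0 w hw
        refine ⟨min ε (C.ss v0 (C.p w) / 2), lt_min h0 (by linarith), fun w' hw' hne => ?_⟩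
        rcases Finset.mem_insert.1 hw' with h2 | h2
        · rw [h2]
          exact lt_of_le_of_lt (min_le_right _ _) (by linarith)
        · exact lt_of_le_of_lt (min_le_left _ _) (h1 w' h2 hne)
  obtain ⟨ε, h0, h1⟩ := h Finset.univ
  exact ⟨ε, h0, fun w => h1 w (Finset.mem_univ w)⟩

end Cert

end Pool.Agent.Helper489.Sep
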