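import Pool.Agent.Helper489.SepLoc

set_option autoImplicit false

namespace Pool.Agent.Helper489.Sep




/-- a functional which is minimal at `m` and injective on the vertices -/
theorem Loc.exists_functional {d : ℕ} {P : Poly d} (L : Loc P) (m : P.V) :
    ∃ g : (Fin d → ℝ) →ₗ[ℝ] ℝ, (∀ w : P.V, w ≠ m → g m < g w) ∧
      ∀ w w' : P.V, w ≠ w' → g w ≠ g w' := by
  classical
  set h : (Fin d → ℝ) →ₗ[ℝ] ℝ := ∑ j, (L.a m j).linear with hh
  have hval : ∀ w : P.V, h ((w : Fin d → ℝ) - m) = ∑ j, L.a m j w := by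
    intro w
    rw [hh, LinearMap.sum_apply]
    exact Finset.sum_congr rfl fun j _ => L.lin m j w
  have hpos : ∀ w : P.V, w ≠ m → 0 < h ((w : Fin d → ℝ) - m) := by
    intro w hw
    rw [hval]
    apply lt_of_le_of_ne (Finset.sum_nonneg fun j _ => L.a_nonneg m j w)
    intro h0
    have hz := (Finset.sum_eq_zero_iff_of_nonneg fun j _ => L.a_nonneg m j w).1 h0.symm
    apply hw
    apply Subtype.ext
    have hr := L.repr m (w : Fin d → ℝ)
    rw [Finset.sum_eq_zero, add_zero] at hr
    · exact hr
    · intro j _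
      rw [hz j (Finset.mem_univ j), zero_div, zero_smul]
  set W : Finset (Fin d → ℝ) := ((Finset.univ : Finset (P.V × P.V)).filter
    fun p => p.1 ≠ p.2).image fun p => (p.1 : Fin d → ℝ) - (p.2 : Fin d → ℝ) with hW
  obtain ⟨g0, hg0⟩ := exists_generic W (by
    intro w hw
    rw [hW, Finset.mem_image] at hw
    obtain ⟨p, hp, rfl⟩ := hw
    rw [Finset.mem_filter] at hp
    intro h0
    exact hp.2 (Subtype.ext (sub_eq_zero.1 h0)))
  have hg0' : ∀ w w' : P.V, w ≠ w' → g0 ((w : Fin d → ℝ) - (w' : Fin d → ℝ)) ≠ 0 := by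
    intro w w' hne
    apply hg0
    rw [hW, Finset.mem_image]
    exact ⟨(w, w'), Finset.mem_filter.2 ⟨Finset.mem_univ _, hne⟩, rfl⟩
  have hev1 : ∀ w : P.V, ∀ᶠ e : ℝ in nhdsWithin 0 (Set.Ioi 0), w ≠ m →
      0 < h ((w : Fin d → ℝ) - m) + e * g0 ((w : Fin d → ℝ) - m) := by
    intro w
    by_cases hw : w = m
    · exact Filter.Eventually.of_forall fun e hne => absurd hw hne
    · have hc : Continuous fun e : ℝ =>
          h ((w : Fin d → ℝ) - m) + e * g0 ((w : Fin d → ℝ) - m) := by fun_prop
      have h1 : ∀ᶠ e : ℝ in nhds 0,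
          0 < h ((w : Fin d → ℝ) - m) + e * g0 ((w : Fin d → ℝ) - m) := by
        apply (hc.tendsto 0).eventually_const_lt
        simpa using hpos w hw
      exact (h1.filter_mono nhdsWithin_le_nhds).mono fun e he _ => he
  have hev2 : ∀ p : P.V × P.V, ∀ᶠ e : ℝ in nhdsWithin 0 (Set.Ioi 0), p.1 ≠ p.2 →
      h ((p.1 : Fin d → ℝ) - p.2) + e * g0 ((p.1 : Fin d → ℝ) - p.2) ≠ 0 := by
    intro p
    by_cases hw : p.1 = p.2
    · exact Filter.Eventually.of_forall fun e hne => absurd hw hne
    · by_cases h0 : h ((p.1 : Fin d → ℝ) - p.2) = 0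
      · filter_upwards [self_mem_nhdsWithin] with e he _
        have he' : (0:ℝ) < e := he
        rw [h0, zero_add]
        exact mul_ne_zero he'.ne' (hg0' _ _ hw)
      · have hc : Continuous fun e : ℝ =>
            h ((p.1 : Fin d → ℝ) - p.2) + e * g0 ((p.1 : Fin d → ℝ) - p.2) := by fun_prop
        have h1 : ∀ᶠ e : ℝ in nhds 0,
            h ((p.1 : Fin d → ℝ) - p.2) + e * g0 ((p.1 : Fin d → ℝ) - p.2) ≠ 0 := by
          apply (hc.tendsto 0).eventually_ne
          simpa using h0
        exact (h1.filter_mono nhdsWithin_le_nhds).mono fun e he _ => he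
  have hall1 := Filter.eventually_all.2 hev1
  have hall2 := Filter.eventually_all.2 hev2
  obtain ⟨e, he1, he2⟩ := (hall1.and hall2).exists
  refine ⟨h + e • g0, ?_, ?_⟩
  · intro w hw
    have h1 := he1 w hw
    rw [map_sub, map_sub] at h1
    simp only [LinearMap.add_apply, LinearMap.smul_apply, smul_eq_mul]
    linarith
  · intro w w' hne heq
    have h1 := he2 (w, w') hne
    apply h1
    simp only [LinearMap.add_apply, LinearMap.smul_apply, smul_eq_mul] at heq
    simp only
    rw [map_sub, map_sub]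
    linarith

theorem Loc.walk_to_top {d : ℕ} {P : Poly d} (L : Loc P) (v : P.V) (i : Fin d) (m t : P.V)
    (g : (Fin d → ℝ) →ₗ[ℝ] ℝ) (hgm : ∀ w : P.V, w ≠ m → g m < g w)
    (hinj : ∀ w w' : P.V, w ≠ w' → g w ≠ g w') (ht : t ∈ L.fac v i) (htm : t ≠ m)
    (htop : ∀ w ∈ L.fac v i, g w ≤ g t) :
    ∀ n : ℕ, ∀ w : P.V, w ∈ L.fac v i → w ≠ m →
      ((L.fac v i).filter fun u : P.V => g (w : Fin d → ℝ) < g (u : Fin d → ℝ)).card = n →
      ∃ p : P.graph.Walk w t, ∀ z ∈ p.support, z ∈ L.fac v i ∧ z ≠ m := by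
  classical
  intro n
  induction n using Nat.strong_induction_on with
  | _ n ih =>
    intro w hw hwm hcard
    by_cases hwt : w = t
    · subst hwt
      refine ⟨SimpleGraph.Walk.nil, ?_⟩
      intro z hz
      rw [SimpleGraph.Walk.support_nil, List.mem_singleton] at hz
      rw [hz]; exact ⟨hw, hwm⟩
    · have hlt : g w < g t := lt_of_le_of_ne (htop w hw) (hinj w t hwt)
      have hAw : L.a v i w = 0 := (L.mem_fac v i w).1 hw
      have hAt : L.a v i t = 0 := (L.mem_fac v i t).1 ht
      have hKex : ∀ u : P.V, ∀ᶠ K : ℝ in Filter.atTop, u ∉ L.fac v i →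
          g u - K * L.a v i u < g w := by
        intro u
        by_cases hu : u ∈ L.fac v i
        · exact Filter.Eventually.of_forall fun K hne => absurd hu hne
        · have hApos : 0 < L.a v i u :=
            lt_of_le_of_ne (L.a_nonneg v i u) fun h0 => hu ((L.mem_fac v i u).2 h0.symm)
          filter_upwards [Filter.eventually_gt_atTop ((g u - g w) / L.a v i u)] with K hK _
          rw [div_lt_iff₀ hApos] at hK
          linarith
      obtain ⟨K, hK⟩ := (Filter.eventually_all.2 hKex).exists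
      set f : (Fin d → ℝ) →ₗ[ℝ] ℝ := g - K • (L.a v i).linear with hf
      have hfu : ∀ u : P.V, f u - f w = g u - g w - K * L.a v i u := by
        intro u
        have h1 := L.lin v i (u : Fin d → ℝ)
        have h2 := L.lin v i (w : Fin d → ℝ)
        rw [map_sub] at h1 h2
        rw [hAw] at h2
        simp only [hf, LinearMap.sub_apply, LinearMap.smul_apply, smul_eq_mul]
        have h3 : (L.a v i).linear (u : Fin d → ℝ) - (L.a v i).linear (w : Fin d → ℝ)
            = L.a v i u := by linarith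
        rw [← h3]; ring
      obtain ⟨u, hadj, hfu2⟩ := exists_up P f w ⟨t, t.2, by
        have := hfu t
        rw [hAt] at this
        linarith⟩
      have h4 := hfu u
      have hu : u ∈ L.fac v i := by
        by_contra hu
        have := hK u hu
        linarith
      have hAu : L.a v i u = 0 := (L.mem_fac v i u).1 hu
      rw [hAu] at h4
      have hgu : g w < g u := by linarith
      have hum : u ≠ m := by
        intro h
        rw [h] at hgu
        have := hgm w hwm
        linarith
      obtain ⟨q, hq⟩ := ih ((L.fac v i).filter fun z : P.V => g (u : Fin d → ℝ) < g (z : Fin d → ℝ)).card (by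
        rw [← hcard]
        apply Finset.card_lt_card
        rw [Finset.ssubset_iff_of_subset]
        · refine ⟨u, Finset.mem_filter.2 ⟨hu, hgu⟩, ?_⟩
          intro h
          exact lt_irrefl _ (Finset.mem_filter.1 h).2
        · intro z hz
          rw [Finset.mem_filter] at hz ⊢
          exact ⟨hz.1, hgu.trans hz.2⟩) u hu hum rfl
      refine ⟨SimpleGraph.Walk.cons hadj q, ?_⟩
      intro z hz
      rw [SimpleGraph.Walk.support_cons, List.mem_cons] at hz
      rcases hz with rfl | hz
      · exact ⟨hw, hwm⟩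
      · exact hq z hz

/-- TARGET: a facet minus one vertex is connected (dimension at least 2). -/
theorem Loc.fac_conn {d : ℕ} {P : Poly d} (L : Loc P) (v : P.V) (i : Fin d) (m x y : P.V)
    (hm : m ∈ L.fac v i) (hx : x ∈ L.fac v i) (hy : y ∈ L.fac v i) (hxm : x ≠ m) (hym : y ≠ m) :
    ∃ p : P.graph.Walk x y, ∀ z ∈ p.support, z ∈ L.fac v i ∧ z ≠ m := by
  classical
  obtain ⟨g, hgm, hinj⟩ := L.exists_functional m
  obtain ⟨t, ht, htop⟩ := Finset.exists_max_image (L.fac v i)
    (fun w : P.V => g (w : Fin d → ℝ)) ⟨x, hx⟩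
  have htm : t ≠ m := by
    intro h
    have h1 := htop x hx
    rw [h] at h1
    have h2 := hgm x hxm
    linarith
  obtain ⟨p, hp⟩ := L.walk_to_top v i m t g hgm hinj ht htm htop _ x hx hxm rfl
  obtain ⟨q, hq⟩ := L.walk_to_top v i m t g hgm hinj ht htm htop _ y hy hym rfl
  refine ⟨p.append q.reverse, ?_⟩
  intro z hz
  rw [SimpleGraph.Walk.mem_support_append_iff] at hz
  rcases hz with hz | hz
  · exact hp z hz
  · rw [SimpleGraph.Walk.support_reverse, List.mem_reverse] at hz
    exact hq z hz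

end Pool.Agent.Helper489.Sep
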