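import Pool.Agent.Helper489.SepBal

set_option autoImplicit false

namespace Pool.Agent.Helper489.Sep


/-- `y` can be reached from `x` outside `M` -/
def Rch {d : ℕ} (P : Poly d) (M : Finset P.V) (x y : P.V) : Prop :=
  ∃ w : P.graph.Walk x y, ∀ z ∈ w.support, z ∉ M

theorem Rch.left {d : ℕ} {P : Poly d} {M : Finset P.V} {x y : P.V} (h : Rch P M x y) : x ∉ M := by
  obtain ⟨w, hw⟩ := h
  exact hw x w.start_mem_support

theorem Rch.right {d : ℕ} {P : Poly d} {M : Finset P.V} {x y : P.V} (h : Rch P M x y) : y ∉ M := by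
  obtain ⟨w, hw⟩ := h
  exact hw y w.end_mem_support

theorem Rch.refl {d : ℕ} {P : Poly d} {M : Finset P.V} {x : P.V} (h : x ∉ M) : Rch P M x x :=
  ⟨SimpleGraph.Walk.nil, by intro z hz; rw [SimpleGraph.Walk.support_nil, List.mem_singleton] at hz; rwa [hz]⟩

theorem Rch.symm {d : ℕ} {P : Poly d} {M : Finset P.V} {x y : P.V} (h : Rch P M x y) :
    Rch P M y x := by
  obtain ⟨w, hw⟩ := h
  refine ⟨w.reverse, ?_⟩
  intro z hz
  rw [SimpleGraph.Walk.support_reverse, List.mem_reverse] at hz
  exact hw z hz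

theorem Rch.trans {d : ℕ} {P : Poly d} {M : Finset P.V} {x y z : P.V} (h : Rch P M x y)
    (h' : Rch P M y z) : Rch P M x z := by
  obtain ⟨w, hw⟩ := h
  obtain ⟨w', hw'⟩ := h'
  refine ⟨w.append w', ?_⟩
  intro u hu
  rw [SimpleGraph.Walk.mem_support_append_iff] at hu
  rcases hu with hu | hu
  · exact hw u hu
  · exact hw' u hu

theorem Rch.of_adj {d : ℕ} {P : Poly d} {M : Finset P.V} {x y : P.V} (h : P.graph.Adj x y)
    (hx : x ∉ M) (hy : y ∉ M) : Rch P M x y := by
  refine ⟨SimpleGraph.Walk.cons h SimpleGraph.Walk.nil, ?_⟩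
  intro z hz
  rw [SimpleGraph.Walk.support_cons, SimpleGraph.Walk.support_nil] at hz
  rcases List.mem_cons.mp hz with hz | hz
  · rwa [hz]
  · rw [List.mem_singleton] at hz; rwa [hz]

theorem not_rch_of_sep {d : ℕ} {P : Poly d} {M N : Finset P.V}
    (hsep : TotallySeparated P.graph M N) {a b : P.V} (ha : a ∈ N) (hb : b ∈ N) (hab : a ≠ b) :
    ¬ Rch P M a b := by
  classical
  rintro ⟨w, hw⟩
  obtain ⟨_, _, h⟩ := hsep.2 a ha b hb hab
  obtain ⟨m, hm, hms⟩ := h w.bypass w.bypass_isPath
  exact hw m (w.support_bypass_subset_support hms) hm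

theorem walk_stays {d : ℕ} {P : Poly d} {M : Finset P.V} {a : P.V} :
    ∀ {x y : P.V} (w : P.graph.Walk x y), Rch P M a x →
      (∀ z ∈ w.support, z ∈ M → ¬ ∃ u, P.graph.Adj z u ∧ Rch P M a u) → Rch P M a y := by
  intro x y w
  induction w with
  | nil => intro h _; exact h
  | cons h w' ih =>
    rename_i x1 y1 z1
    intro hx hz
    have hy1 : y1 ∉ M := by
      intro hM
      exact hz y1 (by rw [SimpleGraph.Walk.support_cons]; exact List.mem_cons_of_mem _ w'.start_mem_support)
        hM ⟨x1, h.symm, hx⟩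
    refine ih (hx.trans (Rch.of_adj h hx.right hy1)) ?_
    intro z hz1
    exact hz z (by rw [SimpleGraph.Walk.support_cons]; exact List.mem_cons_of_mem _ hz1)

/-- TARGET: structure of the case of equality in `s(n, 𝒮^d) ≤ n`. -/
theorem eq_struct {d : ℕ} (hd : 1 ≤ d) (P : Poly d) (hP : P.Simple) (M N : Finset P.V)
    (hsep : TotallySeparated P.graph M N) (hcard : M.card = N.card) (h2 : 2 ≤ N.card) :
    (∀ m ∈ M, ∀ x, P.graph.Adj m x → ∃ a ∈ N, Rch P M a x) ∧
    (∀ m ∈ M, ∀ x y, P.graph.Adj m x → P.graph.Adj m y → Rch P M x y → x = y) ∧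
    (∀ a ∈ N, open Classical in
      (M.filter fun m => ∃ x, P.graph.Adj m x ∧ Rch P M a x).card = d) := by
  classical
  set B : P.V → Finset P.V := fun a => M.filter fun m => ∃ x, P.graph.Adj m x ∧ Rch P M a x with hB
  set X : Finset (P.V × P.V) := (M ×ˢ Finset.univ).filter (fun p => P.graph.Adj p.1 p.2) with hX
  set XA : P.V → Finset (P.V × P.V) := fun a => X.filter (fun p => Rch P M a p.2) with hXA
  have hBa : ∀ a ∈ N, d ≤ (B a).card := by
    intro a ha
    by_contra hlt
    push Not at hlt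
    have haM : a ∉ M := fun h => (Finset.disjoint_left.mp hsep.1) h ha
    obtain ⟨b, hb, hba⟩ : ∃ b ∈ N, b ≠ a := by
      have h1 : 1 < N.card := by omega
      obtain ⟨b, hb, hba⟩ := Finset.exists_mem_ne h1 a
      exact ⟨b, hb, hba⟩
    have hbM : b ∉ M := fun h => (Finset.disjoint_left.mp hsep.1) h hb
    obtain ⟨w, hw⟩ := balinski P (B a) hlt a b
      (fun h => haM (Finset.mem_filter.mp h).1) (fun h => hbM (Finset.mem_filter.mp h).1)
    have := walk_stays w (Rch.refl haM) (by
      intro z hz hzM hex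
      exact hw z hz (Finset.mem_filter.mpr ⟨hzM, hex⟩))
    exact not_rch_of_sep hsep ha hb (Ne.symm hba) this
  have himg : ∀ a, B a = (XA a).image Prod.fst := by
    intro a
    ext m
    simp only [hB, hXA, hX, Finset.mem_filter, Finset.mem_image, Finset.mem_product,
      Finset.mem_univ, and_true, Prod.exists]
    constructor
    · rintro ⟨hm, x, hx, hr⟩
      exact ⟨m, x, ⟨⟨hm, hx⟩, hr⟩, rfl⟩
    · rintro ⟨m', x, ⟨⟨hm, hx⟩, hr⟩, rfl⟩
      exact ⟨hm, x, hx, hr⟩
  have hXA_ge : ∀ a ∈ N, d ≤ (XA a).card := by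
    intro a ha
    refine (hBa a ha).trans ?_
    rw [himg]
    exact Finset.card_image_le
  have hXcard : X.card = M.card * d := by
    have h1 : X.card = ∑ m ∈ M, (X.filter (fun p => p.1 = m)).card := by
      refine Finset.card_eq_sum_card_fiberwise ?_
      intro p hp
      exact (Finset.mem_product.mp (Finset.mem_filter.mp hp).1).1
    rw [h1, Finset.sum_const_nat]
    intro m hm
    have h2 : (X.filter (fun p => p.1 = m)) =
        (Finset.univ.filter (fun x => P.graph.Adj m x)).image (fun x => (m, x)) := by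
      ext ⟨m', x⟩
      simp only [hX, Finset.mem_filter, Finset.mem_image, Finset.mem_product,
        Finset.mem_univ, and_true, true_and, Prod.mk.injEq]
      constructor
      · rintro ⟨⟨hm', hx⟩, rfl⟩
        exact ⟨x, hx, rfl, rfl⟩
      · rintro ⟨x', hx', rfl, rfl⟩
        exact ⟨⟨hm, hx'⟩, rfl⟩
    rw [h2, Finset.card_image_of_injective _ (fun x y h => (Prod.mk.injEq _ _ _ _ ▸ h).2)]
    have h3 := hP m
    refine Eq.trans ?_ h3
    rw [← Set.ncard_coe_finset]
    congr 1
    ext x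
    simp
  have hdisj : ∀ a ∈ N, ∀ b ∈ N, a ≠ b → Disjoint (XA a) (XA b) := by
    intro a ha b hb hab
    rw [Finset.disjoint_left]
    intro p hp hp'
    exact not_rch_of_sep hsep ha hb hab
      ((Finset.mem_filter.mp hp).2.trans (Finset.mem_filter.mp hp').2.symm)
  have hsum : (N.biUnion XA).card = ∑ a ∈ N, (XA a).card := Finset.card_biUnion hdisj
  have hsub : N.biUnion XA ⊆ X := by
    intro p hp
    obtain ⟨a, _, hp⟩ := Finset.mem_biUnion.mp hp
    exact (Finset.mem_filter.mp hp).1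
  have hle : ∑ a ∈ N, (XA a).card ≤ N.card * d := by
    rw [← hsum, ← hcard, ← hXcard]
    exact Finset.card_le_card hsub
  have hge : N.card * d ≤ ∑ a ∈ N, (XA a).card := by
    rw [← smul_eq_mul, ← Finset.sum_const]
    exact Finset.sum_le_sum hXA_ge
  have heq : ∑ a ∈ N, d = ∑ a ∈ N, (XA a).card := by
    rw [Finset.sum_const, smul_eq_mul]; exact le_antisymm hge hle
  have hXd : ∀ a ∈ N, d = (XA a).card := (Finset.sum_eq_sum_iff_of_le hXA_ge).mp heq
  have hall : N.biUnion XA = X := by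
    refine Finset.eq_of_subset_of_card_le hsub ?_
    rw [hsum, hXcard, hcard]; exact hge
  have hcov : ∀ m ∈ M, ∀ x, P.graph.Adj m x → ∃ a ∈ N, Rch P M a x := by
    intro m hm x hx
    have h1 : (m, x) ∈ X := by
      simp only [hX, Finset.mem_filter, Finset.mem_product, Finset.mem_univ, and_true]
      exact ⟨hm, hx⟩
    rw [← hall] at h1
    obtain ⟨a, ha, hp⟩ := Finset.mem_biUnion.mp h1
    exact ⟨a, ha, (Finset.mem_filter.mp hp).2⟩
  have hBd : ∀ a ∈ N, (B a).card = d := by
    intro a ha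
    refine le_antisymm ?_ (hBa a ha)
    refine le_trans ?_ (hXd a ha).ge
    rw [himg]
    exact Finset.card_image_le
  refine ⟨hcov, ?_, ?_⟩
  · intro m hm x y hx hy hxy
    obtain ⟨a, ha, hax⟩ := hcov m hm x hx
    have hay := hax.trans hxy
    have hinj : Set.InjOn Prod.fst (XA a : Set (P.V × P.V)) := by
      rw [← Finset.card_image_iff, ← himg]
      exact (hBd a ha).trans (hXd a ha)
    have h1 : (m, x) ∈ XA a := by
      simp only [hXA, hX, Finset.mem_filter, Finset.mem_product, Finset.mem_univ, and_true]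
      exact ⟨⟨hm, hx⟩, hax⟩
    have h2 : (m, y) ∈ XA a := by
      simp only [hXA, hX, Finset.mem_filter, Finset.mem_product, Finset.mem_univ, and_true]
      exact ⟨⟨hm, hy⟩, hay⟩
    have := hinj (Finset.mem_coe.mpr h1) (Finset.mem_coe.mpr h2) rfl
    exact (Prod.mk.injEq _ _ _ _ ▸ this).2
  · intro a ha
    have := hBd a ha
    simp only [hB] at this
    convert this

end Pool.Agent.Helper489.Sep
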