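import Pool.Agent.Helper489.SepLoc

set_option autoImplicit false

namespace Pool.Agent.Helper489.Sep




theorem Loc.lin0 {P : Poly 3} (A : (Fin 3 → ℝ) →ᵃ[ℝ] ℝ) (w x : Fin 3 → ℝ) (hw : A w = 0) :
    A.linear (x - w) = A x := by
  have h := A.linearMap_vsub x w
  rw [hw] at h
  simpa using h

theorem Loc.expand {P : Poly 3} (L : Loc P) (A : (Fin 3 → ℝ) →ᵃ[ℝ] ℝ) (w : P.V)
    (hw : A w = 0) (x : Fin 3 → ℝ) :
    A x = ∑ j, (L.a w j x / L.a w j (L.nbr w j)) * A (L.nbr w j) := by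
  have h1 : x - w = ∑ j, (L.a w j x / L.a w j (L.nbr w j)) • ((L.nbr w j : Fin 3 → ℝ) - w) := by
    rw [sub_eq_iff_eq_add']
    exact L.repr w x
  rw [← Loc.lin0 (P := P) A w x hw, h1, map_sum]
  refine Finset.sum_congr rfl fun j _ => ?_
  rw [map_smul, Loc.lin0 (P := P) A w _ hw, smul_eq_mul]

theorem third : ∀ j k : Fin 3, j ≠ k → ∃ l, l ≠ j ∧ l ≠ k ∧ ∀ m, m = j ∨ m = k ∨ m = l := by
  decide

theorem two_others : ∀ i : Fin 3, ∃ m₁ m₂ : Fin 3, m₁ ≠ i ∧ m₂ ≠ i ∧ m₁ ≠ m₂ := by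
  decide

/-- points with two vanishing coordinates lie on a line -/
theorem Loc.on_line {P : Poly 3} (L : Loc P) (w : P.V) (j k l : Fin 3)
    (hall : ∀ m, m = j ∨ m = k ∨ m = l) (hlj : l ≠ j) (hlk : l ≠ k)
    (x : Fin 3 → ℝ) (hj : L.a w j x = 0) (hk : L.a w k x = 0) :
    x = w + (L.a w l x / L.a w l (L.nbr w l)) • ((L.nbr w l : Fin 3 → ℝ) - w) := by
  conv_lhs => rw [L.repr w x]
  congr 1
  refine Finset.sum_eq_single l ?_ (fun h => absurd (Finset.mem_univ l) h)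
  intro m _ hm
  rcases hall m with h | h | h
  · rw [h, hj, zero_div, zero_smul]
  · rw [h, hk, zero_div, zero_smul]
  · exact absurd h hm

/-- TARGET 1: in dimension 3 a facet through `w` is one of the facets at `w`. -/
theorem Loc.fac_eq {P : Poly 3} (L : Loc P) (v : P.V) (i : Fin 3) (w : P.V) (hw : w ∈ L.fac v i) :
    ∃ j, L.fac w j = L.fac v i := by
  rw [L.mem_fac] at hw
  have hexp := fun x => L.expand (L.a v i) w hw x
  have hc : ∀ j, 0 ≤ L.a v i (L.nbr w j : Fin 3 → ℝ) := fun j => L.a_nonneg v i _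
  have ht : ∀ (x : P.V) j, 0 ≤ L.a w j (x : Fin 3 → ℝ) / L.a w j (L.nbr w j) := fun x j =>
    div_nonneg (L.a_nonneg w j x) (L.a_pos w j).le
  have hmem : ∀ x : P.V, x ∈ L.fac v i ↔
      ∀ j, L.a v i (L.nbr w j : Fin 3 → ℝ) ≠ 0 → L.a w j (x : Fin 3 → ℝ) = 0 := by
    intro x
    rw [L.mem_fac, hexp x, Finset.sum_eq_zero_iff_of_nonneg
      (fun j _ => mul_nonneg (ht x j) (hc j))]
    constructor
    · intro h j hj
      rcases mul_eq_zero.1 (h j (Finset.mem_univ j)) with h1 | h1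
      · rcases div_eq_zero_iff.1 h1 with h2 | h2
        · exact h2
        · exact absurd h2 (L.a_pos w j).ne'
      · exact absurd h1 hj
    · intro h j _
      by_cases hj : L.a v i (L.nbr w j : Fin 3 → ℝ) = 0
      · rw [hj, mul_zero]
      · rw [h j hj, zero_div, zero_mul]
  by_cases h0 : ∀ j, L.a v i (L.nbr w j : Fin 3 → ℝ) = 0
  · exfalso
    have h1 := hexp (L.nbr v i : Fin 3 → ℝ)
    simp only [h0, mul_zero, Finset.sum_const_zero] at h1
    exact (L.a_pos v i).ne' h1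
  · push Not at h0
    obtain ⟨j, hj⟩ := h0
    refine ⟨j, ?_⟩
    by_cases h2 : ∀ k, k ≠ j → L.a v i (L.nbr w k : Fin 3 → ℝ) = 0
    · ext x
      rw [hmem x, L.mem_fac]
      constructor
      · intro hx k hk
        by_cases hkj : k = j
        · rw [hkj]; exact hx
        · exact absurd (h2 k hkj) hk
      · intro hx
        exact hx j hj
    · exfalso
      push Not at h2
      obtain ⟨k, hkj, hk⟩ := h2
      obtain ⟨l, hlj, hlk, hall⟩ := third j k (Ne.symm hkj)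
      have hline : ∀ x : P.V, x ∈ L.fac v i → ∃ t : ℝ,
          (x : Fin 3 → ℝ) = w + t • ((L.nbr w l : Fin 3 → ℝ) - w) := by
        intro x hx
        have hx' := (hmem x).1 hx
        exact ⟨_, L.on_line w j k l hall hlj hlk x (hx' j hj) (hx' k hk)⟩
      obtain ⟨m₁, m₂, hm₁, hm₂, hm⟩ := two_others i
      obtain ⟨t₀, e₀⟩ := hline v ((L.mem_fac v i v).2 (L.a_self v i))
      obtain ⟨t₁, e₁⟩ := hline (L.nbr v m₁) ((L.mem_fac v i _).2 (L.a_ne v i m₁ (Ne.symm hm₁)))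
      obtain ⟨t₂, e₂⟩ := hline (L.nbr v m₂) ((L.mem_fac v i _).2 (L.a_ne v i m₂ (Ne.symm hm₂)))
      set D := (L.nbr w l : Fin 3 → ℝ) - w with hD
      have f₁ : (L.nbr v m₁ : Fin 3 → ℝ) - v = (t₁ - t₀) • D := by
        rw [e₁, e₀, sub_smul]; abel
      have f₂ : (L.nbr v m₂ : Fin 3 → ℝ) - v = (t₂ - t₀) • D := by
        rw [e₂, e₀, sub_smul]; abel
      have f₃ : (t₂ - t₀) • ((L.nbr v m₁ : Fin 3 → ℝ) - v) =
          (t₁ - t₀) • ((L.nbr v m₂ : Fin 3 → ℝ) - v) := by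
        rw [f₁, f₂, smul_smul, smul_smul, mul_comm]
      have f₄ := congrArg (L.a v m₁).linear f₃
      rw [map_smul, map_smul, L.lin, L.lin, L.a_ne v m₁ m₂ hm, smul_zero, smul_eq_mul] at f₄
      have f₅ : t₂ - t₀ = 0 := (mul_eq_zero.1 f₄).resolve_right (L.a_pos v m₁).ne'
      rw [f₅, zero_smul] at f₂
      have f₆ := L.lin v m₂ (L.nbr v m₂ : Fin 3 → ℝ)
      rw [f₂, map_zero] at f₆
      exact (L.a_pos v m₂).ne f₆

/-- TARGET 2: two vertices in two different facets are adjacent (dimension 3). -/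
theorem Loc.fac_inter {P : Poly 3} (L : Loc P) (v v' : P.V) (i i' : Fin 3)
    (h : L.fac v i ≠ L.fac v' i') (u w : P.V) (huw : u ≠ w)
    (hu : u ∈ L.fac v i) (hu' : u ∈ L.fac v' i') (hw : w ∈ L.fac v i) (hw' : w ∈ L.fac v' i') :
    P.graph.Adj u w := by
  obtain ⟨j, hj⟩ := L.fac_eq v i u hu
  obtain ⟨k, hk⟩ := L.fac_eq v' i' u hu'
  have hjk : j ≠ k := by
    rintro rfl
    exact h (hj.symm.trans hk)
  obtain ⟨l, hlj, hlk, hall⟩ := third j k hjk
  rw [← hj, L.mem_fac] at hw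
  rw [← hk, L.mem_fac] at hw'
  have hline := L.on_line u j k l hall hlj hlk w hw hw'
  set t := L.a u l (w : Fin 3 → ℝ) / L.a u l (L.nbr u l) with ht
  have ht0 : 0 ≤ t := div_nonneg (L.a_nonneg u l w) (L.a_pos u l).le
  have hwu : (w : Fin 3 → ℝ) ≠ u := fun e => huw (Subtype.ext e.symm)
  have htne : t ≠ 0 := by
    intro h0
    rw [h0, zero_smul, add_zero] at hline
    exact hwu hline
  have htpos : 0 < t := lt_of_le_of_ne ht0 (Ne.symm htne)
  have hnu : (L.nbr u l : Fin 3 → ℝ) ≠ u := by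
    intro e
    have := L.a_pos u l
    rw [e, L.a_self] at this
    exact lt_irrefl _ this
  by_cases ht1 : t = 1
  · rw [ht1, one_smul, add_sub_cancel] at hline
    rw [L.adj]
    exact ⟨l, Subtype.ext hline⟩
  · exfalso
    have hwn : (w : Fin 3 → ℝ) ≠ (L.nbr u l : Fin 3 → ℝ) := by
      intro e
      apply ht1
      rw [ht, e, div_self (L.a_pos u l).ne']
    rcases lt_or_gt_of_ne ht1 with h1 | h1
    · apply P.conv w w.2
      have hc := convex_convexHull ℝ ((P.V : Set (Fin 3 → ℝ)) \ {(w : Fin 3 → ℝ)})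
      have m1 : (u : Fin 3 → ℝ) ∈ convexHull ℝ ((P.V : Set (Fin 3 → ℝ)) \ {(w : Fin 3 → ℝ)}) :=
        subset_convexHull ℝ _ ⟨u.2, fun e => hwu (Set.mem_singleton_iff.1 e).symm⟩
      have m2 : (L.nbr u l : Fin 3 → ℝ) ∈
          convexHull ℝ ((P.V : Set (Fin 3 → ℝ)) \ {(w : Fin 3 → ℝ)}) :=
        subset_convexHull ℝ _ ⟨(L.nbr u l).2, fun e => hwn (Set.mem_singleton_iff.1 e).symm⟩
      have m3 := hc m1 m2 (show 0 ≤ 1 - t by linarith) ht0 (by ring)
      have e3 : (1 - t) • (u : Fin 3 → ℝ) + t • (L.nbr u l : Fin 3 → ℝ) = w := by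
        conv_rhs => rw [hline]
        rw [sub_smul, one_smul, smul_sub]; abel
      rwa [e3] at m3
    · apply P.conv (L.nbr u l) (L.nbr u l).2
      have hc := convex_convexHull ℝ ((P.V : Set (Fin 3 → ℝ)) \ {(L.nbr u l : Fin 3 → ℝ)})
      have m1 : (u : Fin 3 → ℝ) ∈
          convexHull ℝ ((P.V : Set (Fin 3 → ℝ)) \ {(L.nbr u l : Fin 3 → ℝ)}) :=
        subset_convexHull ℝ _ ⟨u.2, fun e => hnu (Set.mem_singleton_iff.1 e).symm⟩
      have m2 : (w : Fin 3 → ℝ) ∈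
          convexHull ℝ ((P.V : Set (Fin 3 → ℝ)) \ {(L.nbr u l : Fin 3 → ℝ)}) :=
        subset_convexHull ℝ _ ⟨w.2, fun e => hwn (Set.mem_singleton_iff.1 e)⟩
      have hti : t⁻¹ ≤ 1 := inv_le_one_of_one_le₀ h1.le
      have m3 := hc m1 m2 (show 0 ≤ 1 - t⁻¹ by linarith) (inv_nonneg.2 ht0) (by ring)
      have e3 : (1 - t⁻¹) • (u : Fin 3 → ℝ) + t⁻¹ • (w : Fin 3 → ℝ) = L.nbr u l := by
        conv_lhs => rw [hline]
        rw [smul_add, smul_smul, inv_mul_cancel₀ htne, one_smul, sub_smul, one_smul]; abel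
      rwa [e3] at m3

end Pool.Agent.Helper489.Sep
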