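import Pool.Agent.Helper489.SepExLoc
import Pool.Agent.Helper489.SepFac
import Pool.Agent.Helper489.SepConn
import Pool.Agent.Helper489.SepEq

set_option autoImplicit false

namespace Pool.Agent.Helper489.Sep

theorem Rch.left_notMem {d : ℕ} {P : Poly d} {M : Finset P.V} {x y : P.V} (h : Rch P M x y) :
    x ∉ M := by
  obtain ⟨w, hw⟩ := h
  exact hw x w.start_mem_support

theorem Rch.right_notMem {d : ℕ} {P : Poly d} {M : Finset P.V} {x y : P.V} (h : Rch P M x y) :
    y ∉ M := by
  obtain ⟨w, hw⟩ := h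
  exact hw y w.end_mem_support

theorem Rch.eq_of_sep {d : ℕ} {P : Poly d} {M N : Finset P.V}
    (hsep : TotallySeparated P.graph M N) {a b : P.V} (ha : a ∈ N) (hb : b ∈ N)
    (h : Rch P M a b) : a = b := by
  by_contra hab
  obtain ⟨w, hw⟩ := h
  classical
  obtain ⟨m, hm, hm2⟩ := (hsep.2 a ha b hb hab).2.2 w.bypass w.bypass_isPath
  exact hw m (w.support_bypass_subset_support hm2) hm

/-- last vertex before the first visit of `M` -/
theorem exists_last {d : ℕ} {P : Poly d} {M : Finset P.V} : ∀ {x y : P.V}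
    (p : P.graph.Walk x y), y ∈ M → x ∉ M → (∀ z ∈ p.support, z ∈ M → z = y) →
    ∃ z, P.graph.Adj y z ∧ Rch P M x z := by
  intro x y p
  induction p with
  | nil => intro h1 h2; exact absurd h1 h2
  | @cons x x1 y h q ih =>
    intro hy hx hs
    by_cases h1 : x1 ∈ M
    · have h2 : x1 = y := hs x1 (by
        rw [SimpleGraph.Walk.support_cons]
        exact List.mem_cons_of_mem _ q.start_mem_support) h1
      subst h2
      refine ⟨x, h.symm, SimpleGraph.Walk.nil, fun z hz => ?_⟩
      rw [SimpleGraph.Walk.support_nil, List.mem_singleton] at hz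
      rw [hz]; exact hx
    · obtain ⟨z, hz1, hz2⟩ := ih hy h1 fun z hz => hs z (by
        rw [SimpleGraph.Walk.support_cons]
        exact List.mem_cons_of_mem _ hz)
      refine ⟨z, hz1, ?_⟩
      refine Rch.trans ⟨SimpleGraph.Walk.cons h SimpleGraph.Walk.nil, fun t ht => ?_⟩ hz2
      simp only [SimpleGraph.Walk.support_cons, SimpleGraph.Walk.support_nil, List.mem_cons,
        List.not_mem_nil, or_false] at ht
      rcases ht with rfl | rfl
      · exact hx
      · exact h1

theorem no_five (P : Poly 3) (hP : P.Simple) (M N : Finset P.V)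
    (hsep : TotallySeparated P.graph M N) (hM : M.card = 5) (hN : N.card = 5) : False := by
  classical
  obtain ⟨L⟩ := exists_loc P hP
  obtain ⟨e1, e2, e3⟩ := eq_struct (by norm_num) P hP M N hsep (by rw [hM, hN]) (by omega)
  -- the components seen from `m`
  let A : P.V → Finset P.V := fun m => N.filter fun a => ∃ x, P.graph.Adj m x ∧ Rch P M a x
  have memA : ∀ m a, a ∈ A m ↔ a ∈ N ∧ ∃ x, P.graph.Adj m x ∧ Rch P M a x := fun m a => by
    simp [A]
  have hadj : ∀ m i, P.graph.Adj m (L.nbr m i) := fun m i => (L.adj m _).2 ⟨i, rfl⟩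
  have hMM : ∀ m ∈ M, ∀ m' ∈ M, ¬ P.graph.Adj m m' := by
    intro m hm m' hm' h
    obtain ⟨a, -, ha⟩ := e1 m hm m' h
    exact ha.right_notMem hm'
  -- representative of the component of the i-th neighbour
  have hrep : ∀ m ∈ M, ∀ i, ∃ a ∈ N, Rch P M a (L.nbr m i) := fun m hm i =>
    e1 m hm _ (hadj m i)
  have hinj : ∀ m ∈ M, ∀ i j, Rch P M (L.nbr m i) (L.nbr m j) → i = j := fun m hm i j h =>
    L.nbr_inj m (e2 m hm _ _ (hadj m i) (hadj m j) h)
  have hA3 : ∀ m ∈ M, (A m).card = 3 := by
    intro m hm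
    choose f hf1 hf2 using hrep m hm
    have h1 : A m = Finset.univ.image f := by
      ext a
      rw [memA, Finset.mem_image]
      constructor
      · rintro ⟨ha, x, hx, hax⟩
        obtain ⟨i, rfl⟩ := (L.adj m x).1 hx
        exact ⟨i, Finset.mem_univ i, (Rch.eq_of_sep hsep ha (hf1 i) (hax.trans (hf2 i).symm)).symm⟩
      · rintro ⟨i, -, rfl⟩
        exact ⟨hf1 i, _, hadj m i, hf2 i⟩
    rw [h1, Finset.card_image_of_injective]
    · rw [Finset.card_univ, Fintype.card_fin]
    · intro i j hij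
      have h2 := hf2 i
      have h3 := hf2 j
      rw [← hij] at h3
      exact hinj m hm i j (h2.symm.trans h3)
  have hB3 : ∀ a ∈ N, (M.filter fun m => a ∈ A m).card = 3 := by
    intro a ha
    refine Eq.trans (congrArg Finset.card ?_) (e3 a ha)
    ext m
    simp only [Finset.mem_filter, memA, ha, true_and]
  have hsum : ∀ m ∈ M, ∑ m' ∈ M.erase m, (A m ∩ A m').card = 6 := by
    intro m hm
    have h1 : ∀ m' ∈ M.erase m, (A m ∩ A m').card = ∑ a ∈ A m, if a ∈ A m' then 1 else 0 := by
      intro m' _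
      rw [← Finset.card_filter, Finset.filter_mem_eq_inter]
    rw [Finset.sum_congr rfl h1, Finset.sum_comm]
    have h2 : ∀ a ∈ A m, ∑ m' ∈ M.erase m, (if a ∈ A m' then 1 else 0) = 2 := by
      intro a ha
      have h3 := hB3 a ((memA m a).1 ha).1
      rw [← Finset.card_filter, Finset.filter_erase,
        Finset.card_erase_of_mem (Finset.mem_filter.2 ⟨hm, ha⟩), h3]
    rw [Finset.sum_congr rfl h2, Finset.sum_const, hA3 m hm]
    rfl
  have hone : ∀ m ∈ M, ∀ m' ∈ M, 1 ≤ (A m ∩ A m').card := by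
    intro m hm m' hm'
    have h1 := Finset.card_union_add_card_inter (A m) (A m')
    rw [hA3 m hm, hA3 m' hm'] at h1
    have h2 : (A m ∪ A m').card ≤ N.card :=
      Finset.card_le_card (Finset.union_subset (Finset.filter_subset _ _) (Finset.filter_subset _ _))
    omega
  -- the blocks
  let B : P.V → Fin 3 → Finset P.V := fun m i => M.filter fun x => x ∈ L.fac m i
  have memB : ∀ m i x, x ∈ B m i ↔ x ∈ M ∧ x ∈ L.fac m i := fun m i x => by simp [B]
  have hself : ∀ m i, m ∈ L.fac m i := fun m i => (L.mem_fac m i m).2 (L.a_self m i)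
  have hnbr : ∀ m i j, i ≠ j → L.nbr m j ∈ L.fac m i := fun m i j hij =>
    (L.mem_fac m i _).2 (L.a_ne m i j hij)
  have hnbr' : ∀ m i, L.nbr m i ∉ L.fac m i := fun m i h =>
    (L.a_pos m i).ne' ((L.mem_fac m i _).1 h)
  have hfne : ∀ m i j, i ≠ j → L.fac m i ≠ L.fac m j := by
    intro m i j hij h
    apply hnbr' m i
    rw [h]
    exact hnbr m j i (Ne.symm hij)
  -- along a facet
  have hpath : ∀ m ∈ M, ∀ i j m', i ≠ j → m' ∈ B m i → m' ≠ m →
      (∀ z ∈ B m i, z = m ∨ z = m') → ∃ z, P.graph.Adj m' z ∧ Rch P M (L.nbr m j) z := by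
    intro m hm i j m' hij hm' hne hall
    obtain ⟨p, hp⟩ := L.fac_conn m i m (L.nbr m j) m' (hself m i) (hnbr m i j hij)
      ((memB m i m').1 hm').2 (hadj m j).ne' hne
    refine exists_last p ((memB m i m').1 hm').1 ?_ ?_
    · intro h
      exact hMM m hm _ h (hadj m j)
    · intro z hz hzM
      rcases hall z ((memB m i z).2 ⟨hzM, (hp z hz).1⟩) with h | h
      · exact absurd h (hp z hz).2
      · exact h
  have htwo : ∀ m ∈ M, ∀ i, 2 ≤ (B m i).card := by
    intro m hm i
    have hmB : m ∈ B m i := (memB m i m).2 ⟨hm, hself m i⟩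
    by_contra hcon
    have h1 : (B m i).card ≤ 1 := by omega
    have h2 : ∀ z ∈ B m i, z = m := fun z hz => Finset.card_le_one.1 h1 z hz m hmB
    obtain ⟨j, k, hij, hik, hjk⟩ : ∃ j k : Fin 3, i ≠ j ∧ i ≠ k ∧ j ≠ k := by
      fin_cases i
      · exact ⟨1, 2, by decide, by decide, by decide⟩
      · exact ⟨0, 2, by decide, by decide, by decide⟩
      · exact ⟨0, 1, by decide, by decide, by decide⟩
    obtain ⟨p, hp⟩ := L.fac_conn m i m (L.nbr m j) (L.nbr m k) (hself m i) (hnbr m i j hij)
      (hnbr m i k hik) (hadj m j).ne' (hadj m k).ne'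
    refine hjk (hinj m hm j k ⟨p, fun z hz hzM => ?_⟩)
    exact (hp z hz).2 (h2 z ((memB m i z).2 ⟨hzM, (hp z hz).1⟩))
  have hdisj : ∀ m ∈ M, ∀ i j, i ≠ j → Disjoint ((B m i).erase m) ((B m j).erase m) := by
    intro m hm i j hij
    rw [Finset.disjoint_left]
    intro x hx hx'
    have h1 := Finset.mem_erase.1 hx
    have h2 := Finset.mem_erase.1 hx'
    have h3 := (memB m i x).1 h1.2
    have h4 := (memB m j x).1 h2.2
    exact hMM m hm x h3.1 (L.fac_inter m m i j (hfne m i j hij) m x (Ne.symm h1.1)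
      (hself m i) (hself m j) h3.2 h4.2)
  have hmB : ∀ m ∈ M, ∀ i, m ∈ B m i := fun m hm i => (memB m i m).2 ⟨hm, hself m i⟩
  have hsub : ∀ m i, (B m i).erase m ⊆ M.erase m := fun m i =>
    Finset.erase_subset_erase _ (Finset.filter_subset _ _)
  -- sizes
  have hsizes : ∀ m ∈ M, (B m 0).card + (B m 1).card + (B m 2).card ≤ 7 := by
    intro m hm
    have h1 : (((B m 0).erase m ∪ (B m 1).erase m) ∪ (B m 2).erase m).card ≤ (M.erase m).card :=
      Finset.card_le_card (Finset.union_subset (Finset.union_subset (hsub m 0) (hsub m 1)) (hsub m 2))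
    rw [Finset.card_union_of_disjoint, Finset.card_union_of_disjoint (hdisj m hm 0 1 (by decide)),
      Finset.card_erase_of_mem (hmB m hm 0), Finset.card_erase_of_mem (hmB m hm 1),
      Finset.card_erase_of_mem (hmB m hm 2), Finset.card_erase_of_mem hm, hM] at h1
    · have := htwo m hm 0
      have := htwo m hm 1
      have := htwo m hm 2
      omega
    · rw [Finset.disjoint_union_left]
      exact ⟨hdisj m hm 0 2 (by decide), hdisj m hm 1 2 (by decide)⟩
  -- partners of 2-blocks share two components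
  have hpair : ∀ m ∈ M, ∀ i, (B m i).card = 2 → ∃ m' ∈ (B m i).erase m, 2 ≤ (A m ∩ A m').card := by
    intro m hm i hc
    have h1 : ((B m i).erase m).card = 1 := by
      rw [Finset.card_erase_of_mem (hmB m hm i), hc]
    obtain ⟨m', hm'⟩ := Finset.card_eq_one.1 h1
    have h2 : m' ∈ (B m i).erase m := by rw [hm']; exact Finset.mem_singleton_self _
    refine ⟨m', h2, ?_⟩
    have h3 := Finset.mem_erase.1 h2
    have hall : ∀ z ∈ B m i, z = m ∨ z = m' := by
      intro z hz
      by_cases hzm : z = m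
      · exact Or.inl hzm
      · right
        have : z ∈ (B m i).erase m := Finset.mem_erase.2 ⟨hzm, hz⟩
        rw [hm'] at this
        exact Finset.mem_singleton.1 this
    obtain ⟨j, k, hij, hik, hjk⟩ : ∃ j k : Fin 3, i ≠ j ∧ i ≠ k ∧ j ≠ k := by
      fin_cases i
      · exact ⟨1, 2, by decide, by decide, by decide⟩
      · exact ⟨0, 2, by decide, by decide, by decide⟩
      · exact ⟨0, 1, by decide, by decide, by decide⟩
    have key : ∀ l, i ≠ l → ∃ a ∈ A m ∩ A m', Rch P M a (L.nbr m l) := by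
      intro l hil
      obtain ⟨a, ha, har⟩ := hrep m hm l
      obtain ⟨z, hz1, hz2⟩ := hpath m hm i l m' hil h3.2 h3.1 hall
      refine ⟨a, Finset.mem_inter.2 ⟨(memA m a).2 ⟨ha, _, hadj m l, har⟩,
        (memA m' a).2 ⟨ha, z, hz1, har.trans hz2⟩⟩, har⟩
    obtain ⟨a, ha, har⟩ := key j hij
    obtain ⟨b, hb, hbr⟩ := key k hik
    have hab : a ≠ b := by
      intro h
      rw [h] at har
      exact hjk (hinj m hm j k (har.symm.trans hbr))
    have : ({a, b} : Finset P.V) ⊆ A m ∩ A m' := by
      intro x hx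
      rcases Finset.mem_insert.1 hx with h | h
      · rw [h]; exact ha
      · rw [Finset.mem_singleton.1 h]; exact hb
    have h4 := Finset.card_le_card this
    rwa [Finset.card_pair hab] at h4
  have hnot3 : ∀ m ∈ M, ¬ ((B m 0).card = 2 ∧ (B m 1).card = 2 ∧ (B m 2).card = 2) := by
    rintro m hm ⟨c0, c1, c2⟩
    obtain ⟨p0, hp0, q0⟩ := hpair m hm 0 c0
    obtain ⟨p1, hp1, q1⟩ := hpair m hm 1 c1
    obtain ⟨p2, hp2, q2⟩ := hpair m hm 2 c2
    have n01 : p0 ≠ p1 := fun h => Finset.disjoint_left.1 (hdisj m hm 0 1 (by decide)) hp0 (h ▸ hp1)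
    have n02 : p0 ≠ p2 := fun h => Finset.disjoint_left.1 (hdisj m hm 0 2 (by decide)) hp0 (h ▸ hp2)
    have n12 : p1 ≠ p2 := fun h => Finset.disjoint_left.1 (hdisj m hm 1 2 (by decide)) hp1 (h ▸ hp2)
    have h1 := hsum m hm
    have h2 : ∑ m' ∈ M.erase m, ((A m ∩ A m').card) =
        ∑ m' ∈ M.erase m, ((A m ∩ A m').card - 1) + 4 := by
      have h3 : (4 : ℕ) = ∑ m' ∈ M.erase m, 1 := by
        rw [Finset.sum_const, Finset.card_erase_of_mem hm, hM]
        rfl
      rw [h3, ← Finset.sum_add_distrib]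
      refine Finset.sum_congr rfl fun m' hm' => ?_
      have := hone m hm m' (Finset.mem_of_mem_erase hm')
      omega
    have h3 : ∑ m' ∈ ({p0, p1, p2} : Finset P.V), ((A m ∩ A m').card - 1) ≤
        ∑ m' ∈ M.erase m, ((A m ∩ A m').card - 1) := by
      refine Finset.sum_le_sum_of_subset ?_
      intro x hx
      rcases Finset.mem_insert.1 hx with h | h
      · rw [h]; exact hsub m 0 hp0
      · rcases Finset.mem_insert.1 h with h | h
        · rw [h]; exact hsub m 1 hp1
        · rw [Finset.mem_singleton.1 h]; exact hsub m 2 hp2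
    rw [Finset.sum_insert (by simp [n01, n02]), Finset.sum_insert (by simp [n12]),
      Finset.sum_singleton] at h3
    omega
  -- the unique block of size 3
  have hthree : ∀ m ∈ M, ∃ i, (B m i).card = 3 ∧ ∀ j, (B m j).card = 3 → j = i := by
    intro m hm
    have s := hsizes m hm
    have t0 := htwo m hm 0
    have t1 := htwo m hm 1
    have t2 := htwo m hm 2
    have t := hnot3 m hm
    by_cases c0 : (B m 0).card = 3
    · refine ⟨0, c0, fun j hj => ?_⟩
      fin_cases j
      · rfl
      · have h5 : (B m 1).card = 3 := hj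
        omega
      · have h5 : (B m 2).card = 3 := hj
        omega
    · by_cases c1 : (B m 1).card = 3
      · refine ⟨1, c1, fun j hj => ?_⟩
        fin_cases j
        · exact absurd hj c0
        · rfl
        · have h5 : (B m 2).card = 3 := hj
          omega
      · refine ⟨2, by omega, fun j hj => ?_⟩
        fin_cases j
        · exact absurd hj c0
        · exact absurd hj c1
        · rfl
  choose φ hφ1 hφ2 using hthree
  let ψ : P.V → Finset P.V := fun m => if hm : m ∈ M then B m (φ m hm) else ∅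
  have hψ : ∀ m (hm : m ∈ M), ψ m = B m (φ m hm) := fun m hm => by
    simp only [ψ, dif_pos hm]
  have hψeq : ∀ m ∈ M, ∀ x ∈ ψ m, x ∈ M ∧ ψ x = ψ m := by
    intro m hm x hx
    rw [hψ m hm] at hx
    have h1 := (memB m _ x).1 hx
    refine ⟨h1.1, ?_⟩
    rw [hψ m hm, hψ x h1.1]
    obtain ⟨j, hj⟩ := L.fac_eq m (φ m hm) x h1.2
    have h2 : B x j = B m (φ m hm) := by
      ext z
      rw [memB, memB, hj]
    have h3 : j = φ x h1.1 := hφ2 x h1.1 j (by rw [h2]; exact hφ1 m hm)
    rw [← h3, h2]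
  have hfib : ∀ b ∈ M.image ψ, (M.filter fun x => ψ x = b).card = 3 := by
    intro b hb
    obtain ⟨m, hm, rfl⟩ := Finset.mem_image.1 hb
    have h1 : (M.filter fun x => ψ x = ψ m) = ψ m := by
      ext x
      rw [Finset.mem_filter]
      constructor
      · rintro ⟨hx, hxm⟩
        rw [← hxm, hψ x hx]
        exact hmB x hx _
      · intro hx
        exact hψeq m hm x hx
    rw [h1, hψ m hm]
    exact hφ1 m hm
  have h1 := Finset.card_eq_sum_card_image ψ M
  rw [Finset.sum_congr rfl hfib, Finset.sum_const, hM, smul_eq_mul] at h1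
  omega

end Pool.Agent.Helper489.Sep
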