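import Mathlib

/-!
Graphs of simple polytopes and total separability: definitions.
-/

set_option autoImplicit false

namespace Pool.Agent.Helper489.Sep

/-- A `d`-polytope in `ℝ^d`, given by its vertex set: a finite set `V` of points of `ℝ^d` in convex
position (no point of `V` lies in the convex hull of the other ones) whose affine span is the whole
space.  The polytope itself is the convex hull of `V`. -/
structure Poly (d : ℕ) where
  /-- the set of vertices -/
  V : Finset (Fin d → ℝ)
  /-- convex position -/
  conv : ∀ v ∈ V, v ∉ convexHull ℝ ((V : Set (Fin d → ℝ)) \ {v})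
  /-- the polytope has dimension `d` -/
  full : affineSpan ℝ (V : Set (Fin d → ℝ)) = ⊤

/-- The graph (1-skeleton) of a polytope: two different vertices `u`, `v` are adjacent iff the segment
`[u,v]` is an (exposed) face of the polytope. -/
def Poly.graph {d : ℕ} (P : Poly d) : SimpleGraph P.V where
  Adj u v := u ≠ v ∧
    IsExposed ℝ (convexHull ℝ (P.V : Set (Fin d → ℝ))) (segment ℝ (u : Fin d → ℝ) (v : Fin d → ℝ))
  symm := ⟨fun u v h => ⟨h.1.symm, by rw [segment_symm]; exact h.2⟩⟩
  loopless := ⟨fun u h => h.1 rfl⟩

/-- A `d`-polytope is simple if every vertex lies in exactly `d` edges. -/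
def Poly.Simple {d : ℕ} (P : Poly d) : Prop := ∀ v : P.V, (P.graph.neighborSet v).ncard = d

/-- `M` separates `a` from `b` in the graph `G`: `a, b ∉ M` and every path from `a` to `b` contains a
node of `M`. -/
def Separates {α : Type} (G : SimpleGraph α) (M : Finset α) (a b : α) : Prop :=
  a ∉ M ∧ b ∉ M ∧ ∀ p : G.Walk a b, p.IsPath → ∃ m ∈ M, m ∈ p.support

/-- `N` is totally separated by `M`. -/
def TotallySeparated {α : Type} (G : SimpleGraph α) (M N : Finset α) : Prop :=
  Disjoint M N ∧ ∀ a ∈ N, ∀ b ∈ N, a ≠ b → Separates G M a b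

/-- The set of all `|N|`, where `N` is a set of vertices of a simple `d`-polytope which is totally
separated by a set of exactly `n` vertices; its maximum is `s(n, 𝒮^d)`. -/
def sepVals (n d : ℕ) : Set ℕ :=
  {k | ∃ P : Poly d, P.Simple ∧ ∃ M N : Finset P.V,
    M.card = n ∧ TotallySeparated P.graph M N ∧ N.card = k}

end Pool.Agent.Helper489.Sep
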