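import Pool.Agent.Helper489.SepLoc

set_option autoImplicit false

namespace Pool.Agent.Helper489.Sep



theorem loc_at {d : ℕ} (P : Poly d) (hP : P.Simple) (v : P.V) :
    ∃ (u : Fin d → P.V) (a : Fin d → ((Fin d → ℝ) →ᵃ[ℝ] ℝ)),
      (∀ w, P.graph.Adj v w ↔ ∃ i, w = u i) ∧ (∀ i, a i (v : Fin d → ℝ) = 0) ∧
      (∀ i j, i ≠ j → a i (u j : Fin d → ℝ) = 0) ∧ (∀ i, 0 < a i (u i : Fin d → ℝ)) ∧
      ∀ i (w : P.V), 0 ≤ a i (w : Fin d → ℝ) := by
  classical
  have hcard : Nat.card (P.graph.neighborSet v) = d := by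
    rw [Nat.card_coe_set_eq]; exact hP v
  let e := Finite.equivFinOfCardEq hcard
  let u : Fin d → P.V := fun i => (e.symm i).1
  have hu : ∀ w, P.graph.Adj v w ↔ ∃ i, w = u i := by
    intro w
    constructor
    · intro h
      refine ⟨e ⟨w, h⟩, ?_⟩
      simp [u]
    · rintro ⟨i, rfl⟩
      exact (e.symm i).2
  let b0 : Fin d → (Fin d → ℝ) := fun i => (u i : Fin d → ℝ) - v
  have hspan : ⊤ ≤ Submodule.span ℝ (Set.range b0) := by
    by_contra hc
    have hlt : Submodule.span ℝ (Set.range b0) < ⊤ := lt_of_le_of_ne le_top (fun h => hc h.ge)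
    obtain ⟨f, hf0, hf⟩ := Submodule.exists_le_ker_of_lt_top _ hlt
    have hfu : ∀ i, f (u i) = f v := by
      intro i
      have h1 : b0 i ∈ LinearMap.ker f := hf (Submodule.subset_span ⟨i, rfl⟩)
      rw [LinearMap.mem_ker, map_sub, sub_eq_zero] at h1
      exact h1
    have hne : ∃ w ∈ P.V, f w ≠ f v := by
      by_contra hc2
      push Not at hc2
      apply hf0
      have h1 := AffineSubspace.vectorSpan_eq_top_of_affineSpan_eq_top ℝ (Fin d → ℝ) (Fin d → ℝ)
        P.full
      rw [vectorSpan_def] at h1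
      have h2 : Submodule.span ℝ ((P.V : Set (Fin d → ℝ)) -ᵥ (P.V : Set (Fin d → ℝ)))
          ≤ LinearMap.ker f := by
        rw [Submodule.span_le]
        rintro _ ⟨x, hx, y, hy, rfl⟩
        rw [SetLike.mem_coe, LinearMap.mem_ker]
        change f (x - y) = 0
        rw [map_sub, hc2 x hx, hc2 y hy, sub_self]
      rw [h1] at h2
      exact LinearMap.ker_eq_top.1 (top_le_iff.1 h2)
    obtain ⟨w, hw, hwv⟩ := hne
    rcases lt_or_gt_of_ne hwv with h | h
    · obtain ⟨z, hz, hz2⟩ := exists_up P (-f) v ⟨w, hw, by simpa using h⟩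
      obtain ⟨i, rfl⟩ := (hu z).1 hz
      simp only [LinearMap.neg_apply, hfu i] at hz2
      exact lt_irrefl _ hz2
    · obtain ⟨z, hz, hz2⟩ := exists_up P f v ⟨w, hw, h⟩
      obtain ⟨i, rfl⟩ := (hu z).1 hz
      rw [hfu i] at hz2
      exact lt_irrefl _ hz2
  let b := basisOfTopLeSpanOfCardEqFinrank b0 hspan (by simp)
  have hb : ∀ i, b i = b0 i := by
    intro i
    exact congrFun (coe_basisOfTopLeSpanOfCardEqFinrank b0 hspan (by simp)) i
  have hcoord : ∀ i j, b.coord i ((u j : Fin d → ℝ)) - b.coord i (v : Fin d → ℝ)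
      = if i = j then 1 else 0 := by
    intro i j
    rw [← map_sub]
    have : (u j : Fin d → ℝ) - v = b j := (hb j).symm
    rw [this, Module.Basis.coord_apply, Module.Basis.repr_self, Finsupp.single_apply]
    simp only [eq_comm]
  let a : Fin d → ((Fin d → ℝ) →ᵃ[ℝ] ℝ) := fun i =>
    (b.coord i).toAffineMap - AffineMap.const ℝ (Fin d → ℝ) (b.coord i (v : Fin d → ℝ))
  have ha : ∀ i x, a i x = b.coord i x - b.coord i (v : Fin d → ℝ) := by
    intro i x
    simp [a]
  refine ⟨u, a, hu, ?_, ?_, ?_, ?_⟩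
  · intro i
    rw [ha, sub_self]
  · intro i j hij
    rw [ha, hcoord i j, if_neg hij]
  · intro i
    rw [ha, hcoord i i, if_pos rfl]
    exact one_pos
  · intro i w
    rw [ha]
    by_contra hc
    push Not at hc
    obtain ⟨z, hz, hz2⟩ := exists_up P (-(b.coord i)) v ⟨w, w.2, by
      simp only [LinearMap.neg_apply]; linarith⟩
    obtain ⟨j, rfl⟩ := (hu z).1 hz
    simp only [LinearMap.neg_apply] at hz2
    have h3 := hcoord i j
    split_ifs at h3 <;> linarith

/-- TARGET: every simple polytope has a local structure. -/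
theorem exists_loc {d : ℕ} (P : Poly d) (hP : P.Simple) : Nonempty (Loc P) := by
  choose u a h1 h2 h3 h4 h5 using fun v => loc_at P hP v
  exact ⟨⟨u, a, h1, h2, h3, h4, h5⟩⟩

end Pool.Agent.Helper489.Sep
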