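import Pool.Agent.Helper489.SepUp

set_option autoImplicit false

namespace Pool.Agent.Helper489.Sep

/-- Local structure of a simple polytope: at every vertex `v` the `d` neighbours and `d` affine
functionals which are nonnegative on all vertices, zero at `v`, and dual to the neighbours. -/
structure Loc {d : ℕ} (P : Poly d) where
  nbr : P.V → Fin d → P.V
  a : P.V → Fin d → ((Fin d → ℝ) →ᵃ[ℝ] ℝ)
  adj : ∀ v w, P.graph.Adj v w ↔ ∃ i, w = nbr v i
  a_self : ∀ v i, a v i (v : Fin d → ℝ) = 0
  a_ne : ∀ v i j, i ≠ j → a v i (nbr v j : Fin d → ℝ) = 0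
  a_pos : ∀ v i, 0 < a v i (nbr v i : Fin d → ℝ)
  a_nonneg : ∀ v i (w : P.V), 0 ≤ a v i (w : Fin d → ℝ)

namespace Loc

variable {d : ℕ} {P : Poly d} (L : Loc P)

theorem nbr_inj (v : P.V) : Function.Injective (L.nbr v) := by
  intro i j h
  by_contra hij
  have h1 := L.a_pos v i
  rw [h, L.a_ne v i j hij] at h1
  exact lt_irrefl _ h1

theorem lin (v : P.V) (i : Fin d) (x : Fin d → ℝ) : (L.a v i).linear (x - v) = L.a v i x := by
  have h := (L.a v i).linearMap_vsub x v
  rw [L.a_self] at h
  simpa using h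

theorem linInd (v : P.V) :
    LinearIndependent ℝ (fun j => (L.nbr v j : Fin d → ℝ) - (v : Fin d → ℝ)) := by
  rw [Fintype.linearIndependent_iff]
  intro g hg i
  have h1 := congrArg (L.a v i).linear hg
  rw [map_sum, map_zero] at h1
  simp only [map_smul, L.lin, smul_eq_mul] at h1
  rw [Finset.sum_eq_single i] at h1
  · rcases mul_eq_zero.1 h1 with h2 | h2
    · exact h2
    · exact absurd h2 (L.a_pos v i).ne'
  · intro j _ hj
    rw [L.a_ne v i j (Ne.symm hj), mul_zero]
  · intro h; exact absurd (Finset.mem_univ i) h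

/-- every point in terms of the functionals at `v` -/
theorem repr (v : P.V) (x : Fin d → ℝ) :
    x = v + ∑ j, (L.a v j x / L.a v j (L.nbr v j)) • ((L.nbr v j : Fin d → ℝ) - v) := by
  classical
  have hcard : Fintype.card (Fin d) = Module.finrank ℝ (Fin d → ℝ) := by simp
  let b := basisOfLinearIndependentOfCardEqFinrank' _ (L.linInd v) hcard
  have hb : ∀ j, b j = (L.nbr v j : Fin d → ℝ) - v := fun j => by
    simp [b]
  have h1 : x - v = ∑ j, b.repr (x - v) j • ((L.nbr v j : Fin d → ℝ) - v) := by
    conv_lhs => rw [← b.sum_repr (x - v)]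
    simp only [hb]
  have h2 : ∀ i, b.repr (x - v) i = L.a v i x / L.a v i (L.nbr v i) := by
    intro i
    have h3 := congrArg (L.a v i).linear h1
    rw [map_sum] at h3
    simp only [map_smul, L.lin, smul_eq_mul] at h3
    rw [Finset.sum_eq_single i] at h3
    · rw [h3]
      field_simp [(L.a_pos v i).ne']
    · intro j _ hj
      rw [L.a_ne v i j (Ne.symm hj), mul_zero]
    · intro h; exact absurd (Finset.mem_univ i) h
  rw [← sub_eq_iff_eq_add']
  conv_lhs => rw [h1]
  refine Finset.sum_congr rfl fun j _ => ?_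
  rw [h2]

/-- the facet at `v` opposite to the `i`-th neighbour (as a set of vertices) -/
noncomputable def fac (v : P.V) (i : Fin d) : Finset P.V :=
  open Classical in Finset.univ.filter fun w => L.a v i (w : Fin d → ℝ) = 0

theorem mem_fac (v : P.V) (i : Fin d) (w : P.V) :
    w ∈ L.fac v i ↔ L.a v i (w : Fin d → ℝ) = 0 := by
  simp [fac]

end Loc

end Pool.Agent.Helper489.Sep
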