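import Pool.Agent.Helper489.SepBal

set_option autoImplicit false

namespace Pool.Agent.Helper489.Sep


theorem sep_abstract {α : Type} [Fintype α] (G : SimpleGraph α) {d n : ℕ} (hd : 1 ≤ d)
    (hdeg : ∀ v : α, (G.neighborSet v).ncard = d)
    (hbal : ∀ (S : Finset α), S.card < d → ∀ a b : α, a ∉ S → b ∉ S →
      ∃ w : G.Walk a b, ∀ x ∈ w.support, x ∉ S)
    (M N : Finset α) (hM : M.card = n) (hn : 1 ≤ n) (hs : TotallySeparated G M N) :
    N.card ≤ n := by
  classical
  obtain ⟨hMN, hsep⟩ := hs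
  rcases Nat.lt_or_ge N.card 2 with hN | hN
  · omega
  set D : α → Finset α := fun a => Finset.univ.filter
    (fun x => ∃ w : G.Walk a x, ∀ y ∈ w.support, y ∉ M) with hD
  have hDmem : ∀ a x, x ∈ D a ↔ ∃ w : G.Walk a x, ∀ y ∈ w.support, y ∉ M := by
    intro a x; simp [hD]
  have hNM : ∀ a ∈ N, a ∉ M := fun a ha hm => (Finset.disjoint_left.1 hMN) hm ha
  have hself : ∀ a ∈ N, a ∈ D a := by
    intro a ha
    rw [hDmem]
    refine ⟨SimpleGraph.Walk.nil, ?_⟩
    intro y hy
    rw [SimpleGraph.Walk.support_nil, List.mem_singleton] at hy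
    rw [hy]
    exact hNM a ha
  have hdis : ∀ a ∈ N, ∀ b ∈ N, ∀ x, x ∈ D a → x ∈ D b → a = b := by
    intro a ha b hb x hxa hxb
    by_contra hab
    obtain ⟨w1, h1⟩ := (hDmem a x).1 hxa
    obtain ⟨w2, h2⟩ := (hDmem b x).1 hxb
    obtain ⟨m, hm, hm2⟩ := (hsep a ha b hb hab).2.2 (w1.append w2.reverse).bypass
      (SimpleGraph.Walk.bypass_isPath _)
    have h3 := SimpleGraph.Walk.support_bypass_subset_support _ hm2
    rw [SimpleGraph.Walk.mem_support_append_iff, SimpleGraph.Walk.support_reverse,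
      List.mem_reverse] at h3
    rcases h3 with h3 | h3
    · exact h1 m h3 hm
    · exact h2 m h3 hm
  set B : α → Finset α := fun a => M.filter (fun m => ∃ x ∈ D a, G.Adj m x) with hB
  have hBmem : ∀ a m, m ∈ B a ↔ m ∈ M ∧ ∃ x ∈ D a, G.Adj m x := by
    intro a m; simp [hB]
  have hwalk : ∀ a, ∀ (u v : α) (w : G.Walk u v), u ∈ D a → (∀ y ∈ w.support, y ∉ B a) →
      v ∈ D a := by
    intro a u v w
    induction w with
    | nil => intro h _; exact h
    | @cons u u' v h p ih =>
      intro hu hav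
      apply ih
      · have hu' : u' ∉ B a := hav u' (by
          rw [SimpleGraph.Walk.support_cons]
          exact List.mem_cons_of_mem _ p.start_mem_support)
        have hu'M : u' ∉ M := by
          intro hm
          exact hu' ((hBmem a u').2 ⟨hm, u, hu, h.symm⟩)
        obtain ⟨w1, h1⟩ := (hDmem a u).1 hu
        rw [hDmem]
        refine ⟨w1.concat h, ?_⟩
        intro y hy
        rw [SimpleGraph.Walk.support_concat, List.mem_append, List.mem_singleton] at hy
        rcases hy with hy | hy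
        · exact h1 y hy
        · rw [hy]; exact hu'M
      · intro y hy
        exact hav y (by
          rw [SimpleGraph.Walk.support_cons]
          exact List.mem_cons_of_mem _ hy)
  have hBcard : ∀ a ∈ N, d ≤ (B a).card := by
    intro a ha
    by_contra hlt
    push Not at hlt
    obtain ⟨b, hb, hab⟩ := Finset.exists_mem_ne (by omega : 1 < N.card) a
    have hBM : ∀ c, c ∈ B a → c ∈ M := fun c hc => ((hBmem a c).1 hc).1
    obtain ⟨w, hw⟩ := hbal (B a) hlt a b (fun h => hNM a ha (hBM a h))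
      (fun h => hNM b hb (hBM b h))
    have h1 := hwalk a a b w (hself a ha) hw
    exact hab (hdis a ha b hb b h1 (hself b hb)).symm
  have hcol : ∀ m ∈ M, (N.filter (fun a => m ∈ B a)).card ≤ d := by
    intro m hm
    have hch : ∀ a ∈ N.filter (fun a => m ∈ B a), ∃ x ∈ D a, G.Adj m x := by
      intro a ha
      exact ((hBmem a m).1 (Finset.mem_filter.1 ha).2).2
    choose! f hf1 hf2 using hch
    have h1 : (G.neighborSet m).toFinset.card = d := by
      rw [← hdeg m, Set.ncard_eq_toFinset_card']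
    rw [← h1]
    refine Finset.card_le_card_of_injOn f ?_ ?_
    · intro a ha
      rw [Finset.mem_coe, Set.mem_toFinset, SimpleGraph.mem_neighborSet]
      exact hf2 a ha
    · intro a ha b hb hab
      have ha' := Finset.mem_filter.1 (Finset.mem_coe.1 ha)
      have hb' := Finset.mem_filter.1 (Finset.mem_coe.1 hb)
      refine hdis a ha'.1 b hb'.1 (f a) (hf1 a ha) ?_
      rw [hab]
      exact hf1 b hb
  have hsum1 : N.card * d ≤ ∑ a ∈ N, (B a).card := by
    rw [← smul_eq_mul]
    exact Finset.card_nsmul_le_sum _ _ _ hBcard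
  have hsum2 : ∑ a ∈ N, (B a).card = ∑ m ∈ M, (N.filter (fun a => m ∈ B a)).card := by
    have e1 : ∀ a ∈ N, (B a).card = ∑ m ∈ M, (if m ∈ B a then 1 else 0) := by
      intro a _
      rw [← Finset.sum_filter, Finset.sum_const, smul_eq_mul, mul_one]
      congr 1
      ext m
      constructor
      · intro h; exact Finset.mem_filter.2 ⟨((hBmem a m).1 h).1, h⟩
      · intro h; exact (Finset.mem_filter.1 h).2
    rw [Finset.sum_congr rfl e1, Finset.sum_comm]
    refine Finset.sum_congr rfl fun m _ => ?_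
    rw [← Finset.sum_filter, Finset.sum_const, smul_eq_mul, mul_one]
  have hsum3 : ∑ m ∈ M, (N.filter (fun a => m ∈ B a)).card ≤ n * d := by
    rw [← hM, ← smul_eq_mul]
    exact Finset.sum_le_card_nsmul _ _ _ hcol
  have h5 : N.card * d ≤ n * d := by
    rw [hsum2] at hsum1
    exact hsum1.trans hsum3
  exact Nat.le_of_mul_le_mul_right h5 (by omega)

/-- TARGET: `s(n, 𝒮^d) ≤ n`. -/
theorem upper_bound {d n k : ℕ} (hd : 1 ≤ d) (hn : 1 ≤ n) (hk : k ∈ sepVals n d) : k ≤ n := by
  obtain ⟨P, hP, M, N, hM, hs, rfl⟩ := hk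
  exact sep_abstract P.graph hd hP (fun S hS a b ha hb => balinski P S hS a b ha hb) M N hM hn hs

end Pool.Agent.Helper489.Sep
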