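import Pool.Agent.Helper489.SepCert2
import Pool.Agent.Helper489.SepCert4
import Pool.Agent.Helper489.SepUB

set_option autoImplicit false

namespace Pool.Agent.Helper489.Sep

namespace Cert

variable {d : ℕ} (C : Cert d)

/-- total separation from a certificate -/
theorem separated (v0 : C.ι) (M N : Finset C.ι) (hMN : Disjoint M N)
    (h : ∀ a ∈ N, ∀ b ∈ N, a ≠ b → (∀ i, C.nbr a i ∈ M) ∨ (∀ i, C.nbr b i ∈ M)) :
    TotallySeparated (C.poly v0).graph (M.map ⟨C.vtx v0, C.vtx_inj v0⟩)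
      (N.map ⟨C.vtx v0, C.vtx_inj v0⟩) := by
  have key : ∀ a b : C.ι, a ≠ b → (∀ i, C.nbr a i ∈ M) →
      ∀ p : (C.poly v0).graph.Walk (C.vtx v0 a) (C.vtx v0 b),
        ∃ m ∈ M.map ⟨C.vtx v0, C.vtx_inj v0⟩, m ∈ p.support := by
    intro a b hab hM p
    have aux : ∀ x y : (C.poly v0).V, ∀ p : (C.poly v0).graph.Walk x y, x ≠ y →
        (∀ z, (C.poly v0).graph.Adj x z → z ∈ M.map ⟨C.vtx v0, C.vtx_inj v0⟩) →
        ∃ m ∈ M.map ⟨C.vtx v0, C.vtx_inj v0⟩, m ∈ p.support := by
      intro x y p hxy hz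
      cases p with
      | nil => exact absurd rfl hxy
      | cons h1 q =>
        refine ⟨_, hz _ h1, ?_⟩
        rw [SimpleGraph.Walk.support_cons]
        exact List.mem_cons_of_mem _ q.start_mem_support
    refine aux _ _ p (fun h => hab (C.vtx_inj v0 h)) fun z hz => ?_
    obtain ⟨w, rfl⟩ := C.vtx_surj v0 z
    obtain ⟨i, rfl⟩ := (C.adj v0 a w).1 hz
    exact Finset.mem_map.2 ⟨C.nbr a i, hM i, rfl⟩
  refine ⟨Finset.disjoint_map _ |>.2 hMN, ?_⟩
  intro x hx y hy hxy
  obtain ⟨a, ha, rfl⟩ := Finset.mem_map.1 hx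
  obtain ⟨b, hb, rfl⟩ := Finset.mem_map.1 hy
  have hab : a ≠ b := fun h2 => hxy (by rw [h2])
  refine ⟨fun h2 => ?_, fun h2 => ?_, fun p _ => ?_⟩
  · obtain ⟨c, hc, hc2⟩ := Finset.mem_map.1 h2
    rw [C.vtx_inj v0 hc2] at hc
    exact Finset.disjoint_left.1 hMN hc ha
  · obtain ⟨c, hc, hc2⟩ := Finset.mem_map.1 h2
    rw [C.vtx_inj v0 hc2] at hc
    exact Finset.disjoint_left.1 hMN hc hb
  · rcases h a ha b hb hab with h3 | h3
    · exact key a b hab h3 p
    · obtain ⟨m, hm, hm2⟩ := key b a (Ne.symm hab) h3 p.reverse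
      refine ⟨m, hm, ?_⟩
      rw [SimpleGraph.Walk.support_reverse] at hm2
      exact List.mem_reverse.1 hm2

theorem mem_sepVals (v0 : C.ι) (M N : Finset C.ι) (hMN : Disjoint M N)
    (h : ∀ a ∈ N, ∀ b ∈ N, a ≠ b → (∀ i, C.nbr a i ∈ M) ∨ (∀ i, C.nbr b i ∈ M)) :
    N.card ∈ sepVals M.card d :=
  ⟨C.poly v0, C.simple v0, _, _, Finset.card_map _, C.separated v0 M N hMN h, Finset.card_map _⟩

/-- the colour classes -/
def cls (b : Bool) : Finset C.ι := Finset.univ.filter fun v => C.col v = b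

theorem mem_cls (b : Bool) (v : C.ι) : v ∈ C.cls b ↔ C.col v = b := by
  simp [cls]

theorem nbr_mem_cls {b : Bool} {v : C.ι} (h : v ∈ C.cls b) (i : Fin d) :
    C.nbr v i ∈ C.cls (!b) := by
  rw [mem_cls] at h ⊢
  rw [C.col_nbr, h]

theorem disjoint_cls (b : Bool) : Disjoint (C.cls b) (C.cls (!b)) := by
  rw [Finset.disjoint_left]
  intro v h1 h2
  rw [mem_cls] at h1 h2
  rw [h1] at h2
  cases b <;> simp at h2

theorem cls_card_le (hd : 1 ≤ d) (v0 : C.ι) (b : Bool) : (C.cls (!b)).card ≤ (C.cls b).card := by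
  have h1 : (C.cls b).Nonempty := by
    by_cases h : C.col v0 = b
    · exact ⟨v0, (C.mem_cls _ _).2 h⟩
    · refine ⟨C.nbr v0 ⟨0, hd⟩, (C.mem_cls _ _).2 ?_⟩
      rw [C.col_nbr]
      cases hb : C.col v0 <;> cases b <;> simp_all
  have h2 := C.mem_sepVals v0 (C.cls b) (C.cls (!b)) (C.disjoint_cls b) (fun a ha b' _ _ => by
    left; intro i
    have := C.nbr_mem_cls ha i
    rwa [Bool.not_not] at this)
  exact upper_bound hd (Finset.card_pos.2 h1) h2

theorem cls_card (hd : 1 ≤ d) (v0 : C.ι) (m : ℕ) (hm : Fintype.card C.ι = 2 * m) (b : Bool) :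
    (C.cls b).card = m := by
  have h1 := C.cls_card_le hd v0 b
  have h2 := C.cls_card_le hd v0 (!b)
  rw [Bool.not_not] at h2
  have h3 : (C.cls b).card + (C.cls (!b)).card = Fintype.card C.ι := by
    rw [← Finset.card_univ, ← Finset.card_union_of_disjoint (C.disjoint_cls b)]
    congr 1
    ext v
    simp only [Finset.mem_union, mem_cls, Finset.mem_univ, iff_true]
    cases C.col v <;> cases b <;> simp
  omega

theorem nonempty_of_card {m : ℕ} (hm1 : 1 ≤ m) (hm : Fintype.card C.ι = 2 * m) : Nonempty C.ι := by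
  rw [← Fintype.card_pos_iff]; omega

/-- equality from a certificate -/
theorem isGreatest (hd : 1 ≤ d) (m : ℕ) (hm1 : 1 ≤ m) (hm : Fintype.card C.ι = 2 * m) :
    IsGreatest (sepVals m d) m := by
  obtain ⟨v0⟩ := C.nonempty_of_card hm1 hm
  refine ⟨?_, fun k hk => upper_bound hd hm1 hk⟩
  have h2 := C.mem_sepVals v0 (C.cls true) (C.cls false) (C.disjoint_cls true) (fun a ha b' _ _ => by
    left; intro i
    exact C.nbr_mem_cls ha i)
  rwa [C.cls_card hd v0 m hm, C.cls_card hd v0 m hm] at h2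

/-- lower bound with extra vertices -/
theorem extra (hd : 1 ≤ d) (m : ℕ) (hm1 : 1 ≤ m) (hm : Fintype.card C.ι = 2 * m) (r : ℕ)
    (hr : r + 2 ≤ 2 ^ d) : m ∈ sepVals (m + r) d := by
  classical
  obtain ⟨v1⟩ := C.nonempty_of_card hm1 hm
  have h0 : 0 < (C.cls false).card := by rw [C.cls_card hd v1 m hm]; exact hm1
  obtain ⟨v0, hv0⟩ := Finset.card_pos.1 h0
  obtain ⟨ε, hε, hS⟩ := C.exists_eps v0
  let C' := C.tip v0 ε hε hS
  -- the spare vertices
  have hdu : (Finset.univ : Finset (Fin d)).Nonempty := ⟨⟨0, hd⟩, Finset.mem_univ _⟩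
  let t0 : {T : Finset (Fin d) // T.Nonempty} := ⟨Finset.univ, hdu⟩
  have hcard : r ≤ ((Finset.univ : Finset {T : Finset (Fin d) // T.Nonempty}).erase t0).card := by
    rw [Finset.card_erase_of_mem (Finset.mem_univ _), Finset.card_univ]
    have h3 : Fintype.card {T : Finset (Fin d) // T.Nonempty} + 1 = 2 ^ d := by
      have h3 : Fintype.card {T : Finset (Fin d) // T.Nonempty} =
          Fintype.card {T : Finset (Fin d) // T ≠ ∅} :=
        Fintype.card_congr (Equiv.subtypeEquivRight fun T => Finset.nonempty_iff_ne_empty)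
      rw [h3, Fintype.card_subtype_compl, Fintype.card_subtype_eq, Fintype.card_finset,
        Fintype.card_fin]
      have : 0 < 2 ^ d := by positivity
      omega
    omega
  obtain ⟨R, hR1, hR2⟩ := Finset.exists_subset_card_eq hcard
  let A : Finset {w : C.ι // w ≠ v0} := (C.cls true).subtype (· ≠ v0)
  let B : Finset {w : C.ι // w ≠ v0} := (C.cls false).subtype (· ≠ v0)
  have hA : A.card = m := by
    rw [Finset.card_subtype, Finset.filter_true_of_mem, C.cls_card hd v1 m hm]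
    intro x hx hxv
    rw [hxv] at hx
    exact Finset.disjoint_left.1 (C.disjoint_cls true) hx hv0
  have hB : B.card + 1 = m := by
    rw [Finset.card_subtype, Finset.filter_ne', Finset.card_erase_of_mem hv0,
      C.cls_card hd v1 m hm]
    omega
  let M : Finset C'.ι := A.disjSum R
  let N : Finset C'.ι := B.disjSum {t0}
  have hM : M.card = m + r := by
    show (A.disjSum R).card = _
    rw [Finset.card_disjSum, hA, hR2]
  have hN : N.card = m := by
    show (B.disjSum {t0}).card = _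
    rw [Finset.card_disjSum, Finset.card_singleton, hB]
  have hdis : Disjoint M N := by
    rw [Finset.disjoint_left]
    rintro (w | T) h1 h2
    · have h3 : w ∈ A := Finset.inl_mem_disjSum.1 h1
      have h4 : w ∈ B := Finset.inl_mem_disjSum.1 h2
      exact Finset.disjoint_left.1 (C.disjoint_cls true) (Finset.mem_subtype.1 h3)
        (Finset.mem_subtype.1 h4)
    · have h3 : T ∈ R := Finset.inr_mem_disjSum.1 h1
      have h4 : T ∈ ({t0} : Finset _) := Finset.inr_mem_disjSum.1 h2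
      rw [Finset.mem_singleton] at h4
      rw [h4] at h3
      exact Finset.notMem_erase _ _ (hR1 h3)
  have hnb : ∀ w : {w : C.ι // w ≠ v0}, w ∈ B → ∀ i, C'.nbr (Sum.inl w) i ∈ M := by
    intro w hw i
    have h1 : C.nbr w.1 i ∈ C.cls true := C.nbr_mem_cls (Finset.mem_subtype.1 hw) i
    have h2 : C.nbr w.1 i ≠ v0 := by
      intro h3
      rw [h3] at h1
      exact Finset.disjoint_left.1 (C.disjoint_cls true) h1 hv0
    have h3 : C'.nbr (Sum.inl w) i = Sum.inl ⟨C.nbr w.1 i, h2⟩ := dif_neg h2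
    rw [h3]
    exact Finset.inl_mem_disjSum.2 (Finset.mem_subtype.2 h1)
  have h5 := C'.mem_sepVals (Sum.inr t0) M N hdis (by
    rintro (w | T) ha (w' | T') hb hab
    · exact Or.inl (hnb w (Finset.inl_mem_disjSum.1 ha))
    · exact Or.inl (hnb w (Finset.inl_mem_disjSum.1 ha))
    · exact Or.inr (hnb w' (Finset.inl_mem_disjSum.1 hb))
    · exfalso
      have h3 : T ∈ ({t0} : Finset _) := Finset.inr_mem_disjSum.1 ha
      have h4 : T' ∈ ({t0} : Finset _) := Finset.inr_mem_disjSum.1 hb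
      rw [Finset.mem_singleton] at h3 h4
      exact hab (by rw [h3, h4]))
  rwa [hM, hN] at h5

end Cert

/-- polygons with `2a` vertices -/
theorem exists_polygon (a : ℕ) (ha : 2 ≤ a) : ∃ C : Cert 2, Fintype.card C.ι = 2 * a := by
  induction a, ha using Nat.le_induction with
  | base =>
    refine ⟨Cert.point.prism.prism, ?_⟩
    rw [Cert.card_prism, Cert.card_prism]
    rfl
  | succ a ha ih =>
    obtain ⟨C, hC⟩ := ih
    obtain ⟨v0⟩ := C.nonempty_of_card (by omega : 1 ≤ a) hC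
    obtain ⟨ε, hε, hS⟩ := C.exists_eps v0
    refine ⟨C.tip v0 ε hε hS, ?_⟩
    have := C.card_tip v0 ε hε hS
    omega

/-- all large numbers -/
theorem exists_cert (d : ℕ) (hd : 2 ≤ d) : ∀ n : ℕ, (d - 2) * 2 ^ (d - 1) + 2 ≤ n →
    ∃ C : Cert d, Fintype.card C.ι = 2 * n := by
  induction d, hd using Nat.le_induction with
  | base =>
    intro n hn
    exact exists_polygon n (by simpa using hn)
  | succ d hd ih =>
    intro n hn
    obtain ⟨q, hq⟩ : ∃ q : ℕ, q = 2 ^ (d - 1) := ⟨_, rfl⟩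
    have hq1 : 1 ≤ q := by rw [hq]; exact Nat.one_le_two_pow
    have hq2 : 2 ^ (d + 1 - 1) = 2 * q := by
      rw [hq, ← pow_succ']; congr 1; omega
    obtain ⟨e, he⟩ : ∃ e : ℕ, d = e + 2 := ⟨d - 2, by omega⟩
    have h1 : d + 1 - 2 = e + 1 := by omega
    have h2 : d - 2 = e := by omega
    rw [hq2, h1] at hn
    rw [← hq, h2] at ih
    have h3 : (e + 1) * (2 * q) + 2 = 2 * (e * q) + 2 * q + 2 := by ring
    rw [h3] at hn
    rcases Nat.even_or_odd n with hev | hodd
    · obtain ⟨m, hm⟩ := hev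
      obtain ⟨C, hC⟩ := ih m (by omega)
      refine ⟨C.prism, ?_⟩
      rw [Cert.card_prism, hC]; omega
    · obtain ⟨m, hm⟩ := hodd
      obtain ⟨C, hC⟩ := ih (m + 1 - q) (by omega)
      have hC' : Fintype.card C.prism.ι = 2 * (2 * (m + 1 - q)) := by
        rw [Cert.card_prism, hC]
      obtain ⟨v0⟩ := C.prism.nonempty_of_card (by omega : 1 ≤ 2 * (m + 1 - q)) hC'
      obtain ⟨ε, hε, hS⟩ := C.prism.exists_eps v0
      refine ⟨C.prism.tip v0 ε hε hS, ?_⟩
      have h4 := C.prism.card_tip v0 ε hε hS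
      have h5 : 2 ^ (d + 1) = 4 * q := by
        have : d + 1 = (d - 1) + 2 := by omega
        rw [this, pow_add, ← hq]; ring
      omega

theorem exists_cert_mul (d : ℕ) (hd : 2 ≤ d) (a : ℕ) (ha : 2 ≤ a) :
    ∃ C : Cert d, Fintype.card C.ι = 2 * (a * 2 ^ (d - 2)) := by
  induction d, hd using Nat.le_induction with
  | base =>
    obtain ⟨C, hC⟩ := exists_polygon a ha
    exact ⟨C, by simpa using hC⟩
  | succ d hd ih =>
    obtain ⟨C, hC⟩ := ih
    refine ⟨C.prism, ?_⟩
    rw [Cert.card_prism, hC]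
    have h1 : d + 1 - 2 = (d - 2) + 1 := by omega
    rw [h1, pow_succ]; ring

end Pool.Agent.Helper489.Sep
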