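import Pool.Agent.Helper489.SepAdj

set_option autoImplicit false

namespace Pool.Agent.Helper489.Sep


/-- TARGET 1: a generic linear functional. -/
theorem exists_generic {d : ℕ} (W : Finset (Fin d → ℝ)) (hW : ∀ w ∈ W, w ≠ 0) :
    ∃ g : (Fin d → ℝ) →ₗ[ℝ] ℝ, ∀ w ∈ W, g w ≠ 0 := by
  obtain ⟨g, hg⟩ := Module.exists_dual_forall_apply_ne_zero (K := ℝ)
    (fun w : W => (w : Fin d → ℝ)) (fun w => hW w w.2)
  exact ⟨g, fun w hw => hg ⟨w, hw⟩⟩

theorem seg_false {d : ℕ} (P : Poly d) {v w w' : Fin d → ℝ} (hv : v ∈ P.V) (hw : w ∈ P.V)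
    (hw' : w' ∈ P.V) (hwv : w ≠ v) (hww' : w ≠ w') {c : ℝ} (hc0 : 0 ≤ c) (hc1 : c ≤ 1)
    (h : w - v = c • (w' - v)) : False := by
  apply P.conv w hw
  have h1 : w = (1 - c) • v + c • w' := by
    have : w = v + c • (w' - v) := by rw [← h]; abel
    rw [this]
    module
  have hv' : v ∈ convexHull ℝ ((P.V : Set (Fin d → ℝ)) \ {w}) :=
    subset_convexHull ℝ _ ⟨hv, fun h => hwv h.symm⟩
  have hw'' : w' ∈ convexHull ℝ ((P.V : Set (Fin d → ℝ)) \ {w}) :=
    subset_convexHull ℝ _ ⟨hw', fun h => hww' h.symm⟩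
  have h2 := (convex_convexHull ℝ ((P.V : Set (Fin d → ℝ)) \ {w})) hv' hw''
    (by linarith : (0 : ℝ) ≤ 1 - c) hc0 (by ring)
  rwa [← h1] at h2

theorem vec_ne {d : ℕ} (P : Poly d) {v w w' : Fin d → ℝ} (hv : v ∈ P.V) (hw : w ∈ P.V)
    (hw' : w' ∈ P.V) (hwv : w ≠ v) (hwv' : w' ≠ v) (hww' : w ≠ w') {a b : ℝ} (ha : 0 < a)
    (hb : 0 < b) : a⁻¹ • (w - v) - b⁻¹ • (w' - v) ≠ 0 := by
  intro h
  rw [sub_eq_zero] at h
  rcases le_total a b with hab | hab
  · apply seg_false P hv hw hw' hwv hww' (c := a / b) (by positivity)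
      ((div_le_one hb).2 hab)
    calc w - v = a • (a⁻¹ • (w - v)) := by rw [smul_smul, mul_inv_cancel₀ ha.ne', one_smul]
      _ = (a / b) • (w' - v) := by rw [h, smul_smul]; rfl
  · apply seg_false P hv hw' hw hwv' hww'.symm (c := b / a) (by positivity)
      ((div_le_one ha).2 hab)
    calc w' - v = b • (b⁻¹ • (w' - v)) := by rw [smul_smul, mul_inv_cancel₀ hb.ne', one_smul]
      _ = (b / a) • (w - v) := by rw [← h, smul_smul]; rfl

open Filter Topology in
/-- TARGET 2: a vertex which does not maximise `f` has a neighbour with a larger value of `f`. -/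
theorem exists_up {d : ℕ} (P : Poly d) (f : (Fin d → ℝ) →ₗ[ℝ] ℝ) (v : P.V)
    (h : ∃ w ∈ P.V, f v < f w) : ∃ u : P.V, P.graph.Adj v u ∧ f v < f u := by
  classical
  obtain ⟨v, hv⟩ := v
  obtain ⟨w0, hw0, hfw0⟩ := h
  simp only at hfw0
  have hfin : ((P.V : Set (Fin d → ℝ)) \ {v}).Finite := P.V.finite_toSet.subset fun x hx => hx.1
  obtain ⟨H, c, hH1, hH2⟩ := geometric_hahn_banach_closed_point
    (convex_convexHull ℝ ((P.V : Set (Fin d → ℝ)) \ {v})) (hfin.isCompact_convexHull ℝ).isClosed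
    (P.conv v hv)
  have hD : ∀ w ∈ P.V, w ≠ v → 0 < H v - H w := by
    intro w hw hwv
    have := hH1 w (subset_convexHull ℝ _ ⟨hw, hwv⟩)
    linarith
  have hmemW : ∀ w, w ∈ P.V.erase v ↔ w ≠ v ∧ w ∈ P.V := fun w => Finset.mem_erase
  -- generic functional
  obtain ⟨g, hg⟩ := exists_generic
    (((P.V.erase v) ×ˢ (P.V.erase v)).filter (fun p => p.1 ≠ p.2) |>.image
      (fun p => (H v - H p.1)⁻¹ • (p.1 - v) - (H v - H p.2)⁻¹ • (p.2 - v))) (by
    intro x hx
    rw [Finset.mem_image] at hx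
    obtain ⟨⟨w, w'⟩, hp, rfl⟩ := hx
    rw [Finset.mem_filter, Finset.mem_product, hmemW, hmemW] at hp
    obtain ⟨⟨⟨h1, h2⟩, h3, h4⟩, h5⟩ := hp
    exact vec_ne P hv h2 h4 h1 h3 h5 (hD w h2 h1) (hD w' h4 h3))
  obtain ⟨r, hr⟩ : ∃ r : (Fin d → ℝ) → ℝ, ∀ w, r w = (f w - f v) / (H v - H w) :=
    ⟨_, fun _ => rfl⟩
  obtain ⟨s, hs⟩ : ∃ s : (Fin d → ℝ) → ℝ, ∀ w, s w = (g w - g v) / (H v - H w) :=
    ⟨_, fun _ => rfl⟩
  have hsinj : ∀ w ∈ P.V.erase v, ∀ w' ∈ P.V.erase v, w ≠ w' → s w ≠ s w' := by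
    intro w hw w' hw' hne heq
    apply hg _ (Finset.mem_image.2 ⟨(w, w'), Finset.mem_filter.2
      ⟨Finset.mem_product.2 ⟨hw, hw'⟩, hne⟩, rfl⟩)
    simp only [map_sub, map_smul, smul_eq_mul]
    rw [hs, hs] at heq
    rw [div_eq_inv_mul, div_eq_inv_mul] at heq
    rw [heq, sub_self]
  have hw0v : w0 ≠ v := by
    rintro rfl
    exact lt_irrefl _ hfw0
  have hw0W : w0 ∈ P.V.erase v := (hmemW w0).2 ⟨hw0v, hw0⟩
  obtain ⟨u0, hu0, hu0max⟩ := Finset.exists_max_image (P.V.erase v) r ⟨w0, hw0W⟩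
  obtain ⟨u, hu, humax⟩ := Finset.exists_max_image ((P.V.erase v).filter (fun w => r w = r u0)) s
    ⟨u0, Finset.mem_filter.2 ⟨hu0, rfl⟩⟩
  obtain ⟨huW, hur⟩ := Finset.mem_filter.1 hu
  obtain ⟨huv, huV⟩ := (hmemW u).1 huW
  have hlex : ∀ w ∈ P.V.erase v, w ≠ u → r w < r u ∨ (r w = r u ∧ s w < s u) := by
    intro w hw hwu
    rcases lt_or_eq_of_le (hu0max w hw) with h1 | h1
    · left; rwa [hur]
    · right
      refine ⟨by rw [hur, h1], ?_⟩
      exact lt_of_le_of_ne (humax w (Finset.mem_filter.2 ⟨hw, h1⟩)) (hsinj w hw u huW hwu)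
  have hev : ∀ᶠ e in 𝓝[>] (0 : ℝ), ∀ w ∈ (P.V.erase v).erase u, r w + e * s w < r u + e * s u := by
    rw [eventually_all_finset]
    intro w hw
    obtain ⟨hwu, hwW⟩ := Finset.mem_erase.1 hw
    rcases hlex w hwW hwu with h1 | ⟨h1, h2⟩
    · have hc1 : Continuous (fun e : ℝ => r w + e * s w) := by fun_prop
      have hc2 : Continuous (fun e : ℝ => r u + e * s u) := by fun_prop
      have : ∀ᶠ e in 𝓝 (0 : ℝ), r w + e * s w < r u + e * s u := by
        apply hc1.continuousAt.eventually_lt hc2.continuousAt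
        simpa using h1
      exact this.filter_mono nhdsWithin_le_nhds
    · filter_upwards [self_mem_nhdsWithin] with e he
      have he' : (0 : ℝ) < e := he
      rw [h1]
      have := mul_lt_mul_of_pos_left h2 he'
      linarith
  obtain ⟨e, he⟩ := hev.exists
  refine ⟨⟨u, huV⟩, ?_, ?_⟩
  · rw [adj_iff]
    refine ⟨fun hcon => huv (congrArg Subtype.val hcon).symm, ?_⟩
    have hval : ∀ w ∈ P.V, w ≠ v →
        (f + e • g + (r u + e * s u) • (H : (Fin d → ℝ) →ₗ[ℝ] ℝ)) w -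
        (f + e • g + (r u + e * s u) • (H : (Fin d → ℝ) →ₗ[ℝ] ℝ)) v =
        (H v - H w) * ((r w + e * s w) - (r u + e * s u)) := by
      intro w hw hwv
      have h1 := hD w hw hwv
      have h2 : f w - f v = (H v - H w) * r w := by rw [hr]; field_simp
      have h3 : g w - g v = (H v - H w) * s w := by rw [hs]; field_simp
      simp only [LinearMap.add_apply, LinearMap.smul_apply, ContinuousLinearMap.coe_coe, smul_eq_mul]
      linear_combination h2 + e * h3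
    refine ⟨f + e • g + (r u + e * s u) • (H : (Fin d → ℝ) →ₗ[ℝ] ℝ), ?_, ?_⟩
    · have h1 := hval u huV huv
      rw [sub_self, mul_zero, sub_eq_zero] at h1
      exact h1.symm
    · intro w hw hwv hwu
      have hwv' : w ≠ v := hwv
      have hwu' : w ≠ u := hwu
      have h1 := hval w hw hwv'
      have h2 := he w (Finset.mem_erase.2 ⟨hwu', (hmemW w).2 ⟨hwv', hw⟩⟩)
      have h3 : (H v - H w) * ((r w + e * s w) - (r u + e * s u)) < 0 :=
        mul_neg_of_pos_of_neg (hD w hw hwv') (by linarith)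
      rw [← h1] at h3
      exact sub_neg.1 h3
  · show f v < f u
    have h1 : 0 < r w0 := by
      rw [hr]
      exact div_pos (by linarith) (hD w0 hw0 hw0v)
    have h2 : 0 < r u := by
      rw [hur]
      exact lt_of_lt_of_le h1 (hu0max w0 hw0W)
    have h3 := hD u huV huv
    have h4 : f u - f v = (H v - H u) * r u := by rw [hr]; field_simp
    have h5 : 0 < (H v - H u) * r u := mul_pos h3 h2
    linarith


end Pool.Agent.Helper489.Sep
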